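import Mathlib

set_option autoImplicit false

/-!
An elementary large sieve for prime moduli, in variance form.
-/

namespace Pool.Agent.Lib_helper72.AP

open Finset

noncomputable section

/-- The pair of residues is injective on short intervals. -/
lemma injOn_pair {a b : ℕ} (hab : Nat.Coprime a b) (u L : ℕ) (hL : L ≤ a * b) :
    Set.InjOn (fun k : ℕ => ((k : ZMod a), (k : ZMod b))) (Ico u (u + L) : Finset ℕ) := by
  intro x hx y hy hxy
  rw [mem_coe, mem_Ico] at hx hy
  rw [Prod.mk.injEq, ZMod.natCast_eq_natCast_iff, ZMod.natCast_eq_natCast_iff] at hxy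
  have h1 : x ≡ y [MOD a * b] := (Nat.modEq_and_modEq_iff_modEq_mul hab).1 hxy
  rcases le_total x y with h | h
  · have h2 : a * b ∣ y - x := (Nat.modEq_iff_dvd' h).1 h1
    rcases Nat.eq_zero_or_pos (y - x) with h3 | h3
    · omega
    · have := Nat.le_of_dvd h3 h2
      omega
  · have h2 : a * b ∣ x - y := (Nat.modEq_iff_dvd' h).1 h1.symm
    rcases Nat.eq_zero_or_pos (x - y) with h3 | h3
    · omega
    · have := Nat.le_of_dvd h3 h2
      omega

variable {a b : ℕ} [NeZero a] [NeZero b]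

lemma sum_abs_pair_le (hab : Nat.Coprime a b) (f : ZMod a → ℝ) (g : ZMod b → ℝ)
    (u L : ℕ) (hL : L ≤ a * b) :
    ∑ k ∈ Ico u (u + L), |f k| * |g k| ≤ (∑ x, |f x|) * (∑ y, |g y|) := by
  classical
  rw [Finset.sum_mul_sum, ← Finset.sum_product']
  calc ∑ k ∈ Ico u (u + L), |f k| * |g k|
      = ∑ z ∈ (Ico u (u + L)).image (fun k : ℕ => ((k : ZMod a), (k : ZMod b))),
          |f z.1| * |g z.2| := by
        rw [Finset.sum_image (injOn_pair hab u L hL)]
    _ ≤ ∑ z ∈ univ ×ˢ univ, |f z.1| * |g z.2| := by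
        apply Finset.sum_le_sum_of_subset_of_nonneg
        · intro z _
          simp
        · intro z _ _
          positivity

lemma sum_pair_full (hab : Nat.Coprime a b) (f : ZMod a → ℝ) (g : ZMod b → ℝ) (u : ℕ) :
    ∑ k ∈ Ico u (u + a * b), f k * g k = (∑ x, f x) * (∑ y, g y) := by
  classical
  rw [Finset.sum_mul_sum, ← Finset.sum_product']
  have himg : (Ico u (u + a * b)).image (fun k : ℕ => ((k : ZMod a), (k : ZMod b)))
      = (univ : Finset (ZMod a)) ×ˢ (univ : Finset (ZMod b)) := by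
    apply Finset.eq_of_subset_of_card_le
    · intro z _
      simp
    · rw [Finset.card_image_of_injOn (injOn_pair hab u _ le_rfl), Finset.card_product,
        Finset.card_univ, Finset.card_univ, ZMod.card, ZMod.card, Nat.card_Ico]
      omega
  rw [← himg, Finset.sum_image (injOn_pair hab u _ le_rfl)]

lemma abs_sum_pair_le (hab : Nat.Coprime a b) (f : ZMod a → ℝ) (g : ZMod b → ℝ)
    (hf : ∑ x, f x = 0) (L : ℕ) : ∀ u : ℕ,
    |∑ k ∈ Ico u (u + L), f k * g k| ≤ (∑ x, |f x|) * (∑ y, |g y|) := by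
  induction L using Nat.strong_induction_on with
  | _ L ih =>
    intro u
    have hpos : 0 < a * b := Nat.mul_pos (Nat.pos_of_ne_zero (NeZero.ne a))
      (Nat.pos_of_ne_zero (NeZero.ne b))
    by_cases hL : L ≤ a * b
    · refine (Finset.abs_sum_le_sum_abs _ _).trans ?_
      simp only [abs_mul]
      exact sum_abs_pair_le hab f g u L hL
    · have h1 : L - a * b < L := by omega
      have h2 := ih (L - a * b) h1 (u + a * b)
      have e : u + a * b + (L - a * b) = u + L := by omega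
      rw [e] at h2
      rw [← Finset.sum_Ico_consecutive _ (show u ≤ u + a * b by omega)
        (show u + a * b ≤ u + L by omega), sum_pair_full hab, hf, zero_mul, zero_add]
      exact h2

omit [NeZero a] in
/-- At most one element of a residue class in a short interval. -/
lemma card_class_short (h : ZMod a) (u L : ℕ) (hL : L ≤ a) :
    ((Ico u (u + L)).filter (fun k : ℕ => (k : ZMod a) = h)).card ≤ 1 := by
  apply Finset.card_le_one.2
  intro x hx y hy
  rw [mem_filter, mem_Ico] at hx hy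
  have hxy : (x : ZMod a) = y := by rw [hx.2, hy.2]
  rw [ZMod.natCast_eq_natCast_iff] at hxy
  rcases le_total x y with h | h
  · have h2 : a ∣ y - x := (Nat.modEq_iff_dvd' h).1 hxy
    rcases Nat.eq_zero_or_pos (y - x) with h3 | h3
    · omega
    · have := Nat.le_of_dvd h3 h2
      omega
  · have h2 : a ∣ x - y := (Nat.modEq_iff_dvd' h).1 hxy.symm
    rcases Nat.eq_zero_or_pos (x - y) with h3 | h3
    · omega
    · have := Nat.le_of_dvd h3 h2
      omega

/-- Number of elements of a residue class in an interval. -/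
lemma card_class_le_nat (h : ZMod a) (L : ℕ) : ∀ u : ℕ,
    ((Ico u (u + L)).filter (fun k : ℕ => (k : ZMod a) = h)).card ≤ L / a + 1 := by
  classical
  have ha : 0 < a := Nat.pos_of_ne_zero (NeZero.ne a)
  induction L using Nat.strong_induction_on with
  | _ L ih =>
    intro u
    by_cases hL : L ≤ a
    · exact (card_class_short h u L hL).trans (Nat.le_add_left 1 (L / a))
    · have h2 := ih (L - a) (by omega) (u + a)
      have e : u + a + (L - a) = u + L := by omega
      rw [e] at h2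
      have h3 : Ico u (u + L) = Ico u (u + a) ∪ Ico (u + a) (u + L) := by
        rw [Finset.Ico_union_Ico_eq_Ico (by omega) (by omega)]
      have h4 := card_class_short h u a le_rfl
      rw [h3, filter_union]
      refine (Finset.card_union_le _ _).trans ?_
      have h5 : L / a = (L - a) / a + 1 := by
        have : L = (L - a) + a := by omega
        conv_lhs => rw [this]
        rw [Nat.add_div_right _ ha]
      rw [h5]
      omega

/-- Number of elements of a residue class in an interval. -/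
lemma card_class_le (h : ZMod a) (u L : ℕ) :
    (((Ico u (u + L)).filter (fun k : ℕ => (k : ZMod a) = h)).card : ℝ) ≤ (L : ℝ) / a + 1 := by
  have h1 := card_class_le_nat h L u
  have h2 : ((L / a : ℕ) : ℝ) ≤ (L : ℝ) / a := Nat.cast_div_le
  calc (((Ico u (u + L)).filter (fun k : ℕ => (k : ZMod a) = h)).card : ℝ)
      ≤ ((L / a + 1 : ℕ) : ℝ) := by exact_mod_cast h1
    _ ≤ (L : ℝ) / a + 1 := by push_cast; linarith

lemma sum_comp_class_le (f : ZMod a → ℝ) (hf : ∀ x, 0 ≤ f x) (u L : ℕ) :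
    ∑ k ∈ Ico u (u + L), f k ≤ ((L : ℝ) / a + 1) * ∑ x, f x := by
  classical
  have h1 : ∑ k ∈ Ico u (u + L), f k
      = ∑ x : ZMod a, ∑ k ∈ (Ico u (u + L)).filter (fun k : ℕ => (k : ZMod a) = x), f x := by
    rw [← Finset.sum_fiberwise (Ico u (u + L)) (fun k : ℕ => (k : ZMod a))]
    apply Finset.sum_congr rfl
    intro x _
    apply Finset.sum_congr rfl
    intro k hk
    rw [(mem_filter.1 hk).2]
  rw [h1, Finset.mul_sum]
  apply Finset.sum_le_sum
  intro x _
  rw [Finset.sum_const, nsmul_eq_mul]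
  exact mul_le_mul_of_nonneg_right (card_class_le x u L) (hf x)

/-- Sums over `ZMod a` as sums over `range a`. -/
lemma sum_zmod_val (g : ℕ → ℝ) : ∑ x : ZMod a, g x.val = ∑ r ∈ range a, g r := by
  apply Finset.sum_nbij' (fun x : ZMod a => x.val) (fun r : ℕ => (r : ZMod a))
  · intro x _
    exact mem_range.2 (ZMod.val_lt x)
  · intro r _
    simp
  · intro x _
    exact ZMod.natCast_zmod_val x
  · intro r hr
    exact ZMod.val_cast_of_lt (mem_range.1 hr)
  · intro x _
    rfl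

/-- Off-diagonal correlations. -/
lemma abs_corr_le {a b : ℕ} (ha : a.Prime) (hb : b.Prime) (hab : a ≠ b) (f g : ℕ → ℝ)
    (hf : ∑ r ∈ range a, f r = 0) (u L : ℕ) :
    |∑ k ∈ Ico u (u + L), f (k % a) * g (k % b)| ≤
      (∑ r ∈ range a, |f r|) * (∑ r ∈ range b, |g r|) := by
  have : NeZero a := ⟨ha.ne_zero⟩
  have : NeZero b := ⟨hb.ne_zero⟩
  have h := abs_sum_pair_le ((Nat.coprime_primes ha hb).2 hab)
    (fun x : ZMod a => f x.val) (fun x : ZMod b => g x.val) (by rw [sum_zmod_val, hf]) L u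
  simp only [ZMod.val_natCast] at h
  rw [sum_zmod_val (a := a) (fun r => |f r|), sum_zmod_val (a := b) (fun r => |g r|)] at h
  exact h

/-- Diagonal terms. -/
lemma diag_le {a : ℕ} (ha : 0 < a) (f : ℕ → ℝ) (hf : ∀ r, 0 ≤ f r) (u L : ℕ) :
    ∑ k ∈ Ico u (u + L), f (k % a) ≤ ((L : ℝ) / a + 1) * ∑ r ∈ range a, f r := by
  have : NeZero a := ⟨ha.ne'⟩
  have h := sum_comp_class_le (fun x : ZMod a => f x.val) (fun x => hf _) u L
  simp only [ZMod.val_natCast] at h
  rw [sum_zmod_val (a := a) f] at h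
  exact h

/-- The dual large sieve for prime moduli. -/
theorem dual_large_sieve (P : Finset ℕ) (hP : ∀ a ∈ P, a.Prime) {A₀ A₁ : ℝ} (hA₀ : 0 < A₀)
    (h0 : ∀ a ∈ P, A₀ ≤ a) (h1 : ∀ a ∈ P, (a : ℝ) ≤ A₁) (C : ℕ → ℕ → ℝ)
    (hC : ∀ a ∈ P, ∑ r ∈ range a, C a r = 0) (u L : ℕ) :
    ∑ k ∈ Ico u (u + L), (∑ a ∈ P, C a (k % a)) ^ 2 ≤
      ((L : ℝ) / A₀ + 1 + A₁ * P.card) * ∑ a ∈ P, ∑ r ∈ range a, (C a r) ^ 2 := by
  classical
  set Q : ℕ → ℝ := fun a => ∑ r ∈ range a, (C a r) ^ 2 with hQ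
  set T : ℕ → ℝ := fun a => ∑ r ∈ range a, |C a r| with hT
  have hQ0 : ∀ a, 0 ≤ Q a := fun a => Finset.sum_nonneg fun r _ => sq_nonneg _
  have hT0 : ∀ a, 0 ≤ T a := fun a => Finset.sum_nonneg fun r _ => abs_nonneg _
  have hTQ : ∀ a ∈ P, T a ^ 2 ≤ A₁ * Q a := by
    intro a ha
    have h := sq_sum_le_card_mul_sum_sq (s := range a) (f := fun r => |C a r|)
    simp only [card_range, sq_abs] at h
    exact h.trans (mul_le_mul_of_nonneg_right (h1 a ha) (hQ0 a))
  have hexp : ∑ k ∈ Ico u (u + L), (∑ a ∈ P, C a (k % a)) ^ 2 =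
      ∑ a ∈ P, ∑ b ∈ P, ∑ k ∈ Ico u (u + L), C a (k % a) * C b (k % b) := by
    simp only [sq, Finset.sum_mul_sum]
    rw [Finset.sum_comm]
    apply Finset.sum_congr rfl
    intro a _
    rw [Finset.sum_comm]
  have hterm : ∀ a ∈ P, ∀ b ∈ P, ∑ k ∈ Ico u (u + L), C a (k % a) * C b (k % b) ≤
      (if a = b then ((L : ℝ) / A₀ + 1) * Q a else 0) + T a * T b := by
    intro a ha b hb
    by_cases hab : a = b
    · subst hab
      rw [if_pos rfl]
      have hap : (0 : ℝ) < a := by exact_mod_cast (hP a ha).pos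
      have h2 : ∑ k ∈ Ico u (u + L), C a (k % a) * C a (k % a) ≤ ((L : ℝ) / a + 1) * Q a := by
        have h := diag_le (hP a ha).pos (fun r => (C a r) ^ 2) (fun r => sq_nonneg _) u L
        simp only [sq] at h
        simpa only [hQ, sq] using h
      have h3 : (L : ℝ) / a ≤ (L : ℝ) / A₀ :=
        div_le_div_of_nonneg_left (Nat.cast_nonneg _) hA₀ (h0 a ha)
      have h4 : ((L : ℝ) / a + 1) * Q a ≤ ((L : ℝ) / A₀ + 1) * Q a :=
        mul_le_mul_of_nonneg_right (by linarith) (hQ0 a)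
      have h5 : 0 ≤ T a * T a := mul_nonneg (hT0 a) (hT0 a)
      linarith
    · rw [if_neg hab, zero_add]
      exact (le_abs_self _).trans (abs_corr_le (hP a ha) (hP b hb) hab (C a) (C b) (hC a ha) u L)
  rw [hexp]
  calc ∑ a ∈ P, ∑ b ∈ P, ∑ k ∈ Ico u (u + L), C a (k % a) * C b (k % b)
      ≤ ∑ a ∈ P, ∑ b ∈ P, ((if a = b then ((L : ℝ) / A₀ + 1) * Q a else 0) + T a * T b) :=
        Finset.sum_le_sum fun a ha => Finset.sum_le_sum fun b hb => hterm a ha b hb
    _ = ((L : ℝ) / A₀ + 1) * ∑ a ∈ P, Q a + (∑ a ∈ P, T a) ^ 2 := by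
        simp only [Finset.sum_add_distrib]
        congr 1
        · rw [Finset.mul_sum]
          apply Finset.sum_congr rfl
          intro a ha
          rw [Finset.sum_ite_eq, if_pos ha]
        · rw [sq, Finset.sum_mul_sum]
    _ ≤ ((L : ℝ) / A₀ + 1) * ∑ a ∈ P, Q a + P.card * ∑ a ∈ P, T a ^ 2 := by
        have := sq_sum_le_card_mul_sum_sq (s := P) (f := T)
        linarith
    _ ≤ ((L : ℝ) / A₀ + 1) * ∑ a ∈ P, Q a + P.card * (A₁ * ∑ a ∈ P, Q a) := by
        have h6 : ∑ a ∈ P, T a ^ 2 ≤ A₁ * ∑ a ∈ P, Q a := by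
          rw [Finset.mul_sum]
          exact Finset.sum_le_sum hTQ
        have h7 : (0 : ℝ) ≤ P.card := Nat.cast_nonneg _
        have := mul_le_mul_of_nonneg_left h6 h7
        linarith
    _ = _ := by ring

/-- The residue class sums of `β` over an interval. -/
def cls (β : ℕ → ℝ) (u L a r : ℕ) : ℝ := ∑ k ∈ (Ico u (u + L)).filter (fun k => k % a = r), β k

/-- The mean over the nonzero classes. -/
def clsMean (β : ℕ → ℝ) (u L a : ℕ) : ℝ :=
  (∑ k ∈ (Ico u (u + L)).filter (fun k => k % a ≠ 0), β k) / ((a : ℝ) - 1)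

/-- The deviation from the mean. -/
def dev (β : ℕ → ℝ) (u L a r : ℕ) : ℝ := if r = 0 then 0 else cls β u L a r - clsMean β u L a

lemma sum_cls_mul (β : ℕ → ℝ) (u L : ℕ) {a : ℕ} (ha : 0 < a) (g : ℕ → ℝ) :
    ∑ r ∈ range a, cls β u L a r * g r = ∑ k ∈ Ico u (u + L), β k * g (k % a) := by
  classical
  have hmaps : ∀ k ∈ Ico u (u + L), k % a ∈ range a := fun k _ => mem_range.2 (Nat.mod_lt _ ha)
  rw [← Finset.sum_fiberwise_of_maps_to hmaps]
  apply Finset.sum_congr rfl
  intro r _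
  rw [cls, Finset.sum_mul]
  apply Finset.sum_congr rfl
  intro k hk
  rw [(mem_filter.1 hk).2]

lemma sum_dev (β : ℕ → ℝ) (u L : ℕ) {a : ℕ} (ha : 1 < a) :
    ∑ r ∈ range a, dev β u L a r = 0 := by
  classical
  have h1 : ∑ r ∈ range a, dev β u L a r =
      ∑ r ∈ range a, (cls β u L a r * (if r = 0 then 0 else 1)
        - (if r = 0 then 0 else clsMean β u L a)) := by
    apply Finset.sum_congr rfl
    intro r _
    rw [dev]
    split_ifs <;> simp
  rw [h1, Finset.sum_sub_distrib, sum_cls_mul β u L (by omega)]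
  have h2 : ∑ k ∈ Ico u (u + L), β k * (if k % a = 0 then (0 : ℝ) else 1) =
      ∑ k ∈ (Ico u (u + L)).filter (fun k => k % a ≠ 0), β k := by
    rw [Finset.sum_filter]
    apply Finset.sum_congr rfl
    intro k _
    by_cases h : k % a = 0 <;> simp [h]
  have h3 : ∑ r ∈ range a, (if r = 0 then (0 : ℝ) else clsMean β u L a) =
      ((a : ℝ) - 1) * clsMean β u L a := by
    obtain ⟨b, rfl⟩ : ∃ b, a = b + 1 := ⟨a - 1, by omega⟩
    rw [Finset.sum_range_succ']
    simp
  have h4 : (a : ℝ) - 1 ≠ 0 := by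
    have : (1 : ℝ) < a := by exact_mod_cast ha
    linarith
  rw [h2, h3, clsMean, mul_div_cancel₀ _ h4, sub_self]

lemma sum_dev_sq (β : ℕ → ℝ) (u L : ℕ) {a : ℕ} (ha : 1 < a) :
    ∑ r ∈ range a, (dev β u L a r) ^ 2 = ∑ k ∈ Ico u (u + L), β k * dev β u L a (k % a) := by
  classical
  rw [← sum_cls_mul β u L (by omega) (dev β u L a)]
  have h1 : ∀ r ∈ range a, (dev β u L a r) ^ 2 =
      cls β u L a r * dev β u L a r - clsMean β u L a * dev β u L a r := by
    intro r _
    rw [dev]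
    split_ifs
    · ring
    · ring
  rw [Finset.sum_congr rfl h1, Finset.sum_sub_distrib, ← Finset.mul_sum, sum_dev β u L ha,
    mul_zero, sub_zero]

/-- The large sieve for prime moduli, variance form. -/
theorem large_sieve (P : Finset ℕ) (hP : ∀ a ∈ P, a.Prime) {A₀ A₁ : ℝ} (hA₀ : 0 < A₀)
    (h0 : ∀ a ∈ P, A₀ ≤ a) (h1 : ∀ a ∈ P, (a : ℝ) ≤ A₁) (β : ℕ → ℝ) (u L : ℕ) :
    ∑ a ∈ P, ∑ r ∈ range a, (dev β u L a r) ^ 2 ≤
      ((L : ℝ) / A₀ + 1 + A₁ * P.card) * ∑ k ∈ Ico u (u + L), (β k) ^ 2 := by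
  classical
  set W : ℝ := ∑ a ∈ P, ∑ r ∈ range a, (dev β u L a r) ^ 2 with hW
  set D : ℝ := (L : ℝ) / A₀ + 1 + A₁ * P.card with hD
  set N : ℝ := ∑ k ∈ Ico u (u + L), (β k) ^ 2 with hN
  have hW0 : 0 ≤ W := Finset.sum_nonneg fun a _ => Finset.sum_nonneg fun r _ => sq_nonneg _
  have hN0 : 0 ≤ N := Finset.sum_nonneg fun r _ => sq_nonneg _
  have hWeq : W = ∑ k ∈ Ico u (u + L), β k * ∑ a ∈ P, dev β u L a (k % a) := by
    rw [hW]
    simp only [Finset.mul_sum]
    rw [Finset.sum_comm]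
    apply Finset.sum_congr rfl
    intro a ha
    exact sum_dev_sq β u L (hP a ha).one_lt
  have hdual := dual_large_sieve P hP hA₀ h0 h1 (dev β u L)
    (fun a ha => sum_dev β u L (hP a ha).one_lt) u L
  rw [← hW, ← hD] at hdual
  have hCS : W ^ 2 ≤ N * (D * W) := by
    rw [hWeq]
    refine (Finset.sum_mul_sq_le_sq_mul_sq _ _ _).trans ?_
    rw [← hWeq]
    exact mul_le_mul_of_nonneg_left hdual hN0
  rcases hW0.eq_or_lt with h | h
  · rw [← h]
    have hD0 : 0 ≤ D := by
      rcases P.eq_empty_or_nonempty with hPe | ⟨a, ha⟩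
      · rw [hD, hPe]
        simp
        positivity
      · have := h1 a ha
        have h3 : (0 : ℝ) ≤ a := Nat.cast_nonneg _
        have h4 : (0 : ℝ) ≤ A₁ := h3.trans this
        rw [hD]
        positivity
    exact mul_nonneg hD0 hN0
  · nlinarith

end

end Pool.Agent.Lib_helper72.AP
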