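import Mathlib
import Pool.Agent.Lib_helper72.AP.LargeSieve

set_option autoImplicit false

/-!
Bilinear forms in a fixed residue class, on average over prime moduli.
-/

namespace Pool.Agent.Lib_helper72.AP

open Finset

noncomputable section

/-- Inner discrepancy for the product `m * k`. -/
def inner (a : ℕ) (c : ℤ) (β : ℕ → ℝ) (u L m : ℕ) : ℝ :=
  ∑ k ∈ (Ico u (u + L)).filter (fun k => (((m * k : ℕ) : ZMod a)) = (c : ZMod a)), β k -
    (∑ k ∈ (Ico u (u + L)).filter (fun k => ¬ a ∣ m * k), β k) / ((a : ℝ) - 1)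

lemma inner_eq {a : ℕ} (ha : a.Prime) {c : ℤ} (hc : ((c : ℤ) : ZMod a) ≠ 0)
    (β : ℕ → ℝ) (u L m : ℕ) :
    inner a c β u L m = dev β u L a (((c : ZMod a) * ((m : ZMod a))⁻¹).val) := by
  have : Fact a.Prime := ⟨ha⟩
  have : NeZero a := ⟨ha.ne_zero⟩
  by_cases hm : a ∣ m
  · have hm0 : (m : ZMod a) = 0 := (ZMod.natCast_eq_zero_iff m a).2 hm
    have e1 : (Ico u (u + L)).filter
        (fun k => (((m * k : ℕ) : ZMod a)) = (c : ZMod a)) = ∅ := by
      apply Finset.filter_eq_empty_iff.2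
      intro k _ h
      rw [Nat.cast_mul, hm0, zero_mul] at h
      exact hc h.symm
    have e2 : (Ico u (u + L)).filter (fun k => ¬ a ∣ m * k) = ∅ := by
      apply Finset.filter_eq_empty_iff.2
      intro k _ h
      exact h (hm.mul_right k)
    rw [inner, e1, e2, hm0, inv_zero, mul_zero, ZMod.val_zero, dev]
    simp
  · have hm0 : (m : ZMod a) ≠ 0 := fun h => hm ((ZMod.natCast_eq_zero_iff m a).1 h)
    have hr : ((c : ZMod a) * ((m : ZMod a))⁻¹).val ≠ 0 := by
      intro h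
      have := (ZMod.val_eq_zero _).1 h
      exact mul_ne_zero hc (inv_ne_zero hm0) this
    rw [inner, dev, if_neg hr, cls, clsMean]
    have e1 : (Ico u (u + L)).filter (fun k => (((m * k : ℕ) : ZMod a)) = (c : ZMod a)) =
        (Ico u (u + L)).filter (fun k => k % a = ((c : ZMod a) * ((m : ZMod a))⁻¹).val) := by
      apply Finset.filter_congr
      intro k _
      rw [Nat.cast_mul]
      constructor
      · intro h
        have h2 : (k : ZMod a) = (c : ZMod a) * ((m : ZMod a))⁻¹ := by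
          rw [← h]
          field_simp
        rw [← h2, ZMod.val_natCast]
      · intro h
        have h2 : (k : ZMod a) = (c : ZMod a) * ((m : ZMod a))⁻¹ := by
          rw [← ZMod.natCast_zmod_val ((c : ZMod a) * ((m : ZMod a))⁻¹), ← h, ZMod.natCast_mod]
        rw [h2]
        field_simp
    have e2 : (Ico u (u + L)).filter (fun k => ¬ a ∣ m * k) =
        (Ico u (u + L)).filter (fun k => k % a ≠ 0) := by
      apply Finset.filter_congr
      intro k _
      rw [ha.dvd_mul, not_or]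
      constructor
      · intro h h0
        exact h.2 (Nat.dvd_of_mod_eq_zero h0)
      · intro h
        exact ⟨hm, fun h0 => h (Nat.mod_eq_zero_of_dvd h0)⟩
    rw [e1, e2]

lemma sum_inner_sq_le {a : ℕ} (ha : a.Prime) {c : ℤ} (hc : ((c : ℤ) : ZMod a) ≠ 0)
    (β : ℕ → ℝ) (u L v LJ : ℕ) :
    ∑ m ∈ Ico v (v + LJ), (inner a c β u L m) ^ 2 ≤
      ((LJ : ℝ) / a + 1) * ∑ r ∈ range a, (dev β u L a r) ^ 2 := by
  have : Fact a.Prime := ⟨ha⟩
  have : NeZero a := ⟨ha.ne_zero⟩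
  have h1 : ∀ m ∈ Ico v (v + LJ), (inner a c β u L m) ^ 2 =
      (fun x : ZMod a => (dev β u L a (((c : ZMod a) * x⁻¹).val)) ^ 2) (m : ZMod a) := by
    intro m _
    rw [inner_eq ha hc]
  rw [Finset.sum_congr rfl h1]
  refine (sum_comp_class_le (fun x : ZMod a => (dev β u L a (((c : ZMod a) * x⁻¹).val)) ^ 2)
    (fun x => sq_nonneg _) v LJ).trans (le_of_eq ?_)
  congr 1
  rw [← sum_zmod_val (a := a) (fun r => (dev β u L a r) ^ 2)]
  have hbij : Function.Bijective (fun x : ZMod a => (c : ZMod a) * x⁻¹) := by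
    have : Function.Injective (fun x : ZMod a => (c : ZMod a) * x⁻¹) := by
      intro x y hxy
      exact inv_injective (mul_left_cancel₀ hc hxy)
    exact Finite.injective_iff_bijective.1 this
  exact Function.Bijective.sum_comp hbij (fun y : ZMod a => (dev β u L a y.val) ^ 2)

/-- The bilinear discrepancy. -/
def bil (a : ℕ) (c : ℤ) (α β : ℕ → ℝ) (v LJ u L : ℕ) : ℝ :=
  ∑ m ∈ Ico v (v + LJ), α m * inner a c β u L m

/-- Bilinear forms on average over prime moduli. -/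
theorem sum_abs_bil_le (P : Finset ℕ) (hP : ∀ a ∈ P, a.Prime) {A₀ A₁ : ℝ} (hA₀ : 0 < A₀)
    (h0 : ∀ a ∈ P, A₀ ≤ a) (h1 : ∀ a ∈ P, (a : ℝ) ≤ A₁) {c : ℤ}
    (hc : ∀ a ∈ P, ((c : ℤ) : ZMod a) ≠ 0) (α β : ℕ → ℝ) (v LJ u L : ℕ) :
    (∑ a ∈ P, |bil a c α β v LJ u L|) ^ 2 ≤
      P.card * ((∑ m ∈ Ico v (v + LJ), (α m) ^ 2) * ((LJ : ℝ) / A₀ + 1) *
        (((L : ℝ) / A₀ + 1 + A₁ * P.card) * ∑ k ∈ Ico u (u + L), (β k) ^ 2)) := by
  classical
  set Na : ℝ := ∑ m ∈ Ico v (v + LJ), (α m) ^ 2 with hNa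
  have hNa0 : 0 ≤ Na := Finset.sum_nonneg fun r _ => sq_nonneg _
  have hbil : ∀ a ∈ P, |bil a c α β v LJ u L| ^ 2 ≤
      Na * ((LJ : ℝ) / A₀ + 1) * ∑ r ∈ range a, (dev β u L a r) ^ 2 := by
    intro a ha
    rw [sq_abs, bil]
    refine (Finset.sum_mul_sq_le_sq_mul_sq _ _ _).trans ?_
    rw [← hNa, mul_assoc]
    apply mul_le_mul_of_nonneg_left _ hNa0
    refine (sum_inner_sq_le (hP a ha) (hc a ha) β u L v LJ).trans ?_
    apply mul_le_mul_of_nonneg_right _ (Finset.sum_nonneg fun r _ => sq_nonneg _)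
    have h3 : (LJ : ℝ) / a ≤ (LJ : ℝ) / A₀ :=
      div_le_div_of_nonneg_left (Nat.cast_nonneg _) hA₀ (h0 a ha)
    linarith
  have h2 := sq_sum_le_card_mul_sum_sq (s := P) (f := fun a => |bil a c α β v LJ u L|)
  refine h2.trans ?_
  apply mul_le_mul_of_nonneg_left _ (Nat.cast_nonneg _)
  refine (Finset.sum_le_sum hbil).trans ?_
  rw [← Finset.mul_sum]
  apply mul_le_mul_of_nonneg_left (large_sieve P hP hA₀ h0 h1 β u L)
  positivity

end

end Pool.Agent.Lib_helper72.AP
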