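import Mathlib
import Pool.Agent.Lib_helper72.AP.TypeII

set_option autoImplicit false

/-!
The discrepancy weight of a residue class, and Type I sums.
-/

namespace Pool.Agent.Lib_helper72.AP

open Finset

noncomputable section

/-- The discrepancy weight: indicator of `n ≡ c (mod a)` minus its mean over the classes
prime to `a`. -/
def wt (a : ℕ) (c : ℤ) (n : ℕ) : ℝ :=
  (if (n : ZMod a) = (c : ZMod a) then 1 else 0) - (if a ∣ n then 0 else 1) / ((a : ℝ) - 1)

lemma inner_eq_wt (a : ℕ) (c : ℤ) (β : ℕ → ℝ) (u L m : ℕ) :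
    inner a c β u L m = ∑ k ∈ Ico u (u + L), β k * wt a c (m * k) := by
  classical
  rw [inner, Finset.sum_filter, Finset.sum_filter, Finset.sum_div, ← Finset.sum_sub_distrib]
  apply Finset.sum_congr rfl
  intro k _
  rw [wt]
  by_cases h1 : ((m * k : ℕ) : ZMod a) = (c : ZMod a) <;> by_cases h2 : a ∣ m * k <;>
    simp only [h1, h2, if_true, if_false, not_true, not_false_iff] <;> ring

/-- Lower bound for the number of elements of a residue class in an interval. -/
lemma card_mod_bounds {a : ℕ} (ha : 0 < a) {r : ℕ} (hr : r < a) (L : ℕ) : ∀ u : ℕ,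
    L / a ≤ ((Ico u (u + L)).filter (fun k => k % a = r)).card ∧
    ((Ico u (u + L)).filter (fun k => k % a = r)).card ≤ L / a + 1 := by
  classical
  have hfull : ∀ u, ((Ico u (u + a)).filter (fun k => k % a = r)).card = 1 := by
    intro u
    have hper : Function.Periodic (fun k => k % a = r) a := by
      intro k
      simp
    rw [Nat.filter_Ico_card_eq_of_periodic u a _ hper, Nat.count_eq_card_filter_range]
    apply Finset.card_eq_one.2
    refine ⟨r, ?_⟩
    ext k
    rw [mem_filter, mem_range, mem_singleton]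
    constructor
    · rintro ⟨h1, h2⟩
      rwa [Nat.mod_eq_of_lt h1] at h2
    · rintro rfl
      exact ⟨hr, Nat.mod_eq_of_lt hr⟩
  induction L using Nat.strong_induction_on with
  | _ L ih =>
    intro u
    by_cases hL : L < a
    · rw [Nat.div_eq_of_lt hL]
      refine ⟨Nat.zero_le _, ?_⟩
      rw [zero_add, ← hfull u]
      exact Finset.card_le_card (Finset.filter_subset_filter _
        (Finset.Ico_subset_Ico le_rfl (by omega)))
    · obtain ⟨h1, h2⟩ := ih (L - a) (by omega) (u + a)
      have e : u + a + (L - a) = u + L := by omega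
      rw [e] at h1 h2
      have h3 : Ico u (u + L) = Ico u (u + a) ∪ Ico (u + a) (u + L) := by
        rw [Finset.Ico_union_Ico_eq_Ico (by omega) (by omega)]
      have h5 : L / a = (L - a) / a + 1 := by
        have : L = (L - a) + a := by omega
        conv_lhs => rw [this]
        rw [Nat.add_div_right _ ha]
      have h6 : ((Ico u (u + L)).filter (fun k => k % a = r)).card =
          1 + ((Ico (u + a) (u + L)).filter (fun k => k % a = r)).card := by
        rw [h3, filter_union, card_union_of_disjoint, hfull]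
        apply Finset.disjoint_filter_filter
        exact Finset.Ico_disjoint_Ico_consecutive _ _ _
      omega

lemma abs_dev_one_le {a : ℕ} (ha : 1 < a) {r : ℕ} (hr : r < a) (u L : ℕ) :
    |dev (fun _ => 1) u L a r| ≤ 1 := by
  classical
  rw [dev]
  split_ifs with h
  · simp
  · have hcls : ∀ s, cls (fun _ => 1) u L a s =
        (((Ico u (u + L)).filter (fun k => k % a = s)).card : ℝ) := by
      intro s
      rw [cls]
      simp
    have ha1 : (0 : ℝ) < (a : ℝ) - 1 := by
      have : (1 : ℝ) < a := by exact_mod_cast ha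
      linarith
    have hmean : ((a : ℝ) - 1) * clsMean (fun _ => 1) u L a =
        ∑ s ∈ range (a - 1), (((Ico u (u + L)).filter (fun k => k % a = s + 1)).card : ℝ) := by
      rw [clsMean, mul_div_cancel₀ _ ha1.ne']
      have h1 := sum_cls_mul (fun _ => 1) u L (a := a) (by omega)
        (fun s => if s = 0 then (0 : ℝ) else 1)
      have h2 : ∑ k ∈ (Ico u (u + L)).filter (fun k => k % a ≠ 0), (1 : ℝ) =
          ∑ k ∈ Ico u (u + L), 1 * (if k % a = 0 then (0 : ℝ) else 1) := by
        rw [Finset.sum_filter]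
        apply Finset.sum_congr rfl
        intro k _
        by_cases h : k % a = 0 <;> simp [h]
      rw [h2, ← h1]
      obtain ⟨b, rfl⟩ : ∃ b, a = b + 1 := ⟨a - 1, by omega⟩
      rw [Finset.sum_range_succ']
      simp only [Nat.add_eq_zero_iff, one_ne_zero, and_false, if_false, mul_one, if_true, mul_zero,
        add_zero, Nat.add_sub_cancel]
      apply Finset.sum_congr rfl
      intro s _
      rw [hcls]
    have hlo : ((L / a : ℕ) : ℝ) ≤ clsMean (fun _ => 1) u L a := by
      have h3 : ((a : ℝ) - 1) * ((L / a : ℕ) : ℝ) ≤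
          ((a : ℝ) - 1) * clsMean (fun _ => 1) u L a := by
        rw [hmean]
        have h4 : ((a : ℝ) - 1) * ((L / a : ℕ) : ℝ) = ∑ s ∈ range (a - 1), ((L / a : ℕ) : ℝ) := by
          rw [Finset.sum_const, card_range, nsmul_eq_mul]
          congr 1
          rw [Nat.cast_sub (by omega)]
          simp
        rw [h4]
        apply Finset.sum_le_sum
        intro s hs
        rw [mem_range] at hs
        exact_mod_cast (card_mod_bounds (a := a) (by omega) (r := s + 1) (by omega) L u).1
      exact le_of_mul_le_mul_left h3 ha1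
    have hhi : clsMean (fun _ => 1) u L a ≤ ((L / a : ℕ) : ℝ) + 1 := by
      have h3 : ((a : ℝ) - 1) * clsMean (fun _ => 1) u L a ≤
          ((a : ℝ) - 1) * (((L / a : ℕ) : ℝ) + 1) := by
        rw [hmean]
        have h4 : ((a : ℝ) - 1) * (((L / a : ℕ) : ℝ) + 1) =
            ∑ s ∈ range (a - 1), (((L / a : ℕ) : ℝ) + 1) := by
          rw [Finset.sum_const, card_range, nsmul_eq_mul]
          congr 1
          rw [Nat.cast_sub (by omega)]
          simp
        rw [h4]
        apply Finset.sum_le_sum
        intro s hs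
        rw [mem_range] at hs
        exact_mod_cast (card_mod_bounds (a := a) (by omega) (r := s + 1) (by omega) L u).2
      exact le_of_mul_le_mul_left h3 ha1
    have hr2 := card_mod_bounds (a := a) (by omega) hr L u
    have hr3 : ((L / a : ℕ) : ℝ) ≤ cls (fun _ => 1) u L a r := by
      rw [hcls]; exact_mod_cast hr2.1
    have hr4 : cls (fun _ => 1) u L a r ≤ ((L / a : ℕ) : ℝ) + 1 := by
      rw [hcls]; exact_mod_cast hr2.2
    rw [abs_le]
    constructor <;> linarith

/-- Type I sums with constant weight. -/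
lemma abs_sum_wt_le {a : ℕ} (ha : a.Prime) {c : ℤ} (hc : ((c : ℤ) : ZMod a) ≠ 0) (m u L : ℕ) :
    |∑ k ∈ Ico u (u + L), wt a c (m * k)| ≤ 1 := by
  have : NeZero a := ⟨ha.ne_zero⟩
  have h := inner_eq_wt a c (fun _ => 1) u L m
  simp only [one_mul] at h
  rw [← h, inner_eq ha hc]
  exact abs_dev_one_le ha.one_lt (ZMod.val_lt _) u L

/-- Type I sums with a monotone weight, given through its increments. -/
lemma abs_sum_mul_wt_le {a : ℕ} (ha : a.Prime) {c : ℤ} (hc : ((c : ℤ) : ZMod a) ≠ 0)
    (δ : ℕ → ℝ) (hδ : ∀ j, 0 ≤ δ j) (m u v : ℕ) :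
    |∑ k ∈ Ico u v, (∑ j ∈ range k, δ j) * wt a c (m * k)| ≤ ∑ j ∈ range v, δ j := by
  classical
  have h1 : ∑ k ∈ Ico u v, (∑ j ∈ range k, δ j) * wt a c (m * k) =
      ∑ j ∈ range v, δ j * ∑ k ∈ Ico (max u (j + 1)) v, wt a c (m * k) := by
    have h2 : ∀ k ∈ Ico u v, (∑ j ∈ range k, δ j) * wt a c (m * k) =
        ∑ j ∈ range v, if j < k then δ j * wt a c (m * k) else 0 := by
      intro k hk
      rw [mem_Ico] at hk
      rw [Finset.sum_mul, ← Finset.sum_filter]
      apply Finset.sum_congr _ (fun _ _ => rfl)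
      ext j
      simp only [mem_range, mem_filter]
      omega
    rw [Finset.sum_congr rfl h2, Finset.sum_comm]
    apply Finset.sum_congr rfl
    intro j _
    rw [Finset.mul_sum, ← Finset.sum_filter]
    apply Finset.sum_congr _ (fun _ _ => rfl)
    ext k
    simp only [mem_filter, mem_Ico]
    omega
  rw [h1]
  refine (Finset.abs_sum_le_sum_abs _ _).trans (Finset.sum_le_sum fun j _ => ?_)
  rw [abs_mul, abs_of_nonneg (hδ j)]
  have h3 : |∑ k ∈ Ico (max u (j + 1)) v, wt a c (m * k)| ≤ 1 := by
    by_cases h : max u (j + 1) ≤ v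
    · have e : v = max u (j + 1) + (v - max u (j + 1)) := by omega
      rw [e]
      exact abs_sum_wt_le ha hc m _ _
    · rw [Finset.Ico_eq_empty (by omega)]
      simp
  calc δ j * |∑ k ∈ Ico (max u (j + 1)) v, wt a c (m * k)| ≤ δ j * 1 :=
        mul_le_mul_of_nonneg_left h3 (hδ j)
    _ = δ j := mul_one _

/-- Increments of the logarithm. -/
def dlog (j : ℕ) : ℝ := if j = 0 then 0 else Real.log (j + 1) - Real.log j

lemma dlog_nonneg (j : ℕ) : 0 ≤ dlog j := by
  rw [dlog]
  split_ifs with h
  · exact le_rfl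
  · have h1 : (0 : ℝ) < j := by exact_mod_cast Nat.pos_of_ne_zero h
    have := Real.log_le_log h1 (by linarith : (j : ℝ) ≤ j + 1)
    linarith

lemma sum_dlog {k : ℕ} (hk : 1 ≤ k) : ∑ j ∈ range k, dlog j = Real.log k := by
  induction k, hk using Nat.le_induction with
  | base => simp [dlog]
  | succ k hk ih =>
    rw [Finset.sum_range_succ, ih, dlog, if_neg (by omega)]
    push_cast
    ring

lemma abs_sum_log_wt_le {a : ℕ} (ha : a.Prime) {c : ℤ} (hc : ((c : ℤ) : ZMod a) ≠ 0)
    (m u v : ℕ) (hu : 1 ≤ u) (hv : 1 ≤ v) :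
    |∑ k ∈ Ico u v, Real.log k * wt a c (m * k)| ≤ Real.log v := by
  have h := abs_sum_mul_wt_le ha hc dlog dlog_nonneg m u v
  rw [sum_dlog hv] at h
  have e : ∑ k ∈ Ico u v, Real.log k * wt a c (m * k) =
      ∑ k ∈ Ico u v, (∑ j ∈ range k, dlog j) * wt a c (m * k) := by
    apply Finset.sum_congr rfl
    intro k hk
    rw [mem_Ico] at hk
    rw [sum_dlog (by omega)]
  rw [e]
  exact h

end

end Pool.Agent.Lib_helper72.AP
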