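import Mathlib
import Pool.Agent.Lib_helper72.AP.Wt

set_option autoImplicit false

/-!
Discrepancies of convolutions, Vaughan's identity and the Type I part.
-/

namespace Pool.Agent.Lib_helper72.AP

open Finset ArithmeticFunction
open scoped ArithmeticFunction.zeta ArithmeticFunction.Moebius

noncomputable section

/-- Weighted sums of convolutions. -/
lemma sum_conv_weight (f g : ArithmeticFunction ℝ) (w : ℕ → ℝ) (X Y : ℕ) :
    ∑ n ∈ Ioc X Y, (f * g) n * w n =
      ∑ m ∈ Ioc 0 Y, f m * ∑ k ∈ Ioc (X / m) (Y / m), g k * w (m * k) := by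
  classical
  have h1 : ∀ n ∈ Ioc X Y, (f * g) n * w n =
      ∑ x ∈ Ioc 0 Y ×ˢ Ioc 0 Y, if x.1 * x.2 = n then f x.1 * g x.2 * w n else 0 := by
    intro n hn
    rw [mem_Ioc] at hn
    rw [mul_apply, Nat.divisorsAntidiagonal_eq_prod_filter_of_le (N := Y) (by omega) hn.2,
      Finset.sum_mul, Finset.sum_filter]
  rw [Finset.sum_congr rfl h1, Finset.sum_comm, Finset.sum_product]
  apply Finset.sum_congr rfl
  intro m hm
  rw [mem_Ioc] at hm
  have hm0 : 0 < m := by omega
  have h2 : ∀ k ∈ Ioc 0 Y, (∑ n ∈ Ioc X Y, if m * k = n then f m * g k * w n else 0) =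
      if X < m * k ∧ m * k ≤ Y then f m * g k * w (m * k) else 0 := by
    intro k _
    rw [Finset.sum_ite_eq]
    simp only [mem_Ioc]
  rw [Finset.sum_congr rfl h2, Finset.mul_sum, ← Finset.sum_filter]
  apply Finset.sum_congr
  · ext k
    simp only [mem_filter, mem_Ioc]
    rw [Nat.div_lt_iff_lt_mul hm0, Nat.le_div_iff_mul_le hm0, mul_comm k m]
    constructor
    · rintro ⟨⟨h1, h2⟩, h3, h4⟩
      exact ⟨h3, h4⟩
    · rintro ⟨h3, h4⟩
      refine ⟨⟨?_, ?_⟩, h3, h4⟩
      · rcases Nat.eq_zero_or_pos k with h | h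
        · rw [h, mul_zero] at h3
          omega
        · exact h
      · exact (Nat.le_mul_of_pos_left k hm0).trans h4
  · intro k _
    ring

/-- Discrepancy of a function on `(X, Y]`. -/
def disc (a : ℕ) (c : ℤ) (X Y : ℕ) (F : ArithmeticFunction ℝ) : ℝ :=
  ∑ n ∈ Ioc X Y, F n * wt a c n

lemma disc_add (a : ℕ) (c : ℤ) (X Y : ℕ) (F G : ArithmeticFunction ℝ) :
    disc a c X Y (F + G) = disc a c X Y F + disc a c X Y G := by
  simp only [disc, ArithmeticFunction.add_apply, add_mul, Finset.sum_add_distrib]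

lemma disc_sub (a : ℕ) (c : ℤ) (X Y : ℕ) (F G : ArithmeticFunction ℝ) :
    disc a c X Y (F - G) = disc a c X Y F - disc a c X Y G := by
  have h : F = (F - G) + G := by ring
  have h2 := disc_add a c X Y (F - G) G
  rw [← h] at h2
  linarith

lemma Ioc_eq_Ico_succ (u v : ℕ) : Ioc u v = Ico (u + 1) (v + 1) := by
  ext x
  simp only [mem_Ioc, mem_Ico]
  omega

lemma disc_mul_zeta_le {a : ℕ} (ha : a.Prime) {c : ℤ} (hc : ((c : ℤ) : ZMod a) ≠ 0)
    (X Y E : ℕ) (f : ArithmeticFunction ℝ) (hf : ∀ m, E < m → f m = 0) (B : ℝ)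
    (hB : ∀ m, m ≤ E → |f m| ≤ B) :
    |disc a c X Y (f * (ζ : ArithmeticFunction ℝ))| ≤ E * B := by
  classical
  rw [disc, sum_conv_weight]
  have hB0 : 0 ≤ B := (abs_nonneg _).trans (hB 0 (Nat.zero_le _))
  have h1 : ∀ m ∈ Ioc 0 Y, |f m * ∑ k ∈ Ioc (X / m) (Y / m),
      (ζ : ArithmeticFunction ℝ) k * wt a c (m * k)| ≤ if m ≤ E then B else 0 := by
    intro m _
    split_ifs with h
    · rw [abs_mul]
      have h2 : |∑ k ∈ Ioc (X / m) (Y / m), (ζ : ArithmeticFunction ℝ) k * wt a c (m * k)| ≤ 1 := by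
        have e : ∑ k ∈ Ioc (X / m) (Y / m), (ζ : ArithmeticFunction ℝ) k * wt a c (m * k) =
            ∑ k ∈ Ioc (X / m) (Y / m), wt a c (m * k) := by
          apply Finset.sum_congr rfl
          intro k hk
          rw [mem_Ioc] at hk
          have hk0 : k ≠ 0 := (Nat.lt_of_le_of_lt (Nat.zero_le _) hk.1).ne'
          simp [hk0]
        rw [e, Ioc_eq_Ico_succ]
        generalize X / m = p
        generalize Y / m = q
        by_cases hle : p + 1 ≤ q + 1
        · have e2 : q + 1 = (p + 1) + (q - p) := by omega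
          rw [e2]
          exact abs_sum_wt_le ha hc m _ _
        · rw [Finset.Ico_eq_empty (by omega)]
          simp
      calc |f m| * _ ≤ B * 1 := mul_le_mul (hB m h) h2 (abs_nonneg _) hB0
        _ = B := mul_one B
    · rw [hf m (by omega)]
      simp
  refine (Finset.abs_sum_le_sum_abs _ _).trans ((Finset.sum_le_sum h1).trans ?_)
  rw [← Finset.sum_filter, Finset.sum_const, nsmul_eq_mul]
  apply mul_le_mul_of_nonneg_right _ hB0
  have : ((Ioc 0 Y).filter (fun m => m ≤ E)).card ≤ E := by
    have h3 : (Ioc 0 Y).filter (fun m => m ≤ E) ⊆ Ioc 0 E := by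
      intro x hx
      rw [mem_filter, mem_Ioc] at hx
      rw [mem_Ioc]
      omega
    have := Finset.card_le_card h3
    rwa [Nat.card_Ioc, Nat.sub_zero] at this
  exact_mod_cast this

lemma disc_mul_log_le {a : ℕ} (ha : a.Prime) {c : ℤ} (hc : ((c : ℤ) : ZMod a) ≠ 0)
    (X Y E : ℕ) (f : ArithmeticFunction ℝ) (hf : ∀ m, E < m → f m = 0) (B : ℝ)
    (hB : ∀ m, m ≤ E → |f m| ≤ B) :
    |disc a c X Y (f * ArithmeticFunction.log)| ≤ E * (B * Real.log (Y + 1)) := by
  classical
  rw [disc, sum_conv_weight]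
  have hB0 : 0 ≤ B := (abs_nonneg _).trans (hB 0 (Nat.zero_le _))
  have hlog0 : 0 ≤ Real.log ((Y : ℝ) + 1) := Real.log_nonneg (by
    have : (0 : ℝ) ≤ Y := Nat.cast_nonneg _
    linarith)
  have h1 : ∀ m ∈ Ioc 0 Y, |f m * ∑ k ∈ Ioc (X / m) (Y / m),
      (ArithmeticFunction.log : ArithmeticFunction ℝ) k * wt a c (m * k)| ≤
        if m ≤ E then B * Real.log (Y + 1) else 0 := by
    intro m _
    split_ifs with h
    · rw [abs_mul]
      have h2 : |∑ k ∈ Ioc (X / m) (Y / m),
          (ArithmeticFunction.log : ArithmeticFunction ℝ) k * wt a c (m * k)| ≤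
            Real.log (Y + 1) := by
        simp only [ArithmeticFunction.log_apply]
        rw [Ioc_eq_Ico_succ]
        refine (abs_sum_log_wt_le ha hc m _ _ (Nat.le_add_left 1 _)
          (Nat.le_add_left 1 _)).trans ?_
        apply Real.log_le_log
        · positivity
        · push_cast
          have : ((Y / m : ℕ) : ℝ) ≤ Y := by exact_mod_cast Nat.div_le_self Y m
          linarith
      exact mul_le_mul (hB m h) h2 (abs_nonneg _) hB0
    · rw [hf m (by omega)]
      simp
  refine (Finset.abs_sum_le_sum_abs _ _).trans ((Finset.sum_le_sum h1).trans ?_)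
  rw [← Finset.sum_filter, Finset.sum_const, nsmul_eq_mul]
  apply mul_le_mul_of_nonneg_right _ (mul_nonneg hB0 hlog0)
  have : ((Ioc 0 Y).filter (fun m => m ≤ E)).card ≤ E := by
    have h3 : (Ioc 0 Y).filter (fun m => m ≤ E) ⊆ Ioc 0 E := by
      intro x hx
      rw [mem_filter, mem_Ioc] at hx
      rw [mem_Ioc]
      omega
    have := Finset.card_le_card h3
    rwa [Nat.card_Ioc, Nat.sub_zero] at this
  exact_mod_cast this

/-! ### Vaughan's identity -/

/-- Small part of an arithmetic function. -/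
def small (f : ArithmeticFunction ℝ) (V : ℕ) : ArithmeticFunction ℝ :=
  ⟨fun n => if n ≤ V then f n else 0, by simp⟩

/-- Large part of an arithmetic function. -/
def large (f : ArithmeticFunction ℝ) (V : ℕ) : ArithmeticFunction ℝ :=
  ⟨fun n => if n ≤ V then 0 else f n, by simp⟩

lemma small_apply (f : ArithmeticFunction ℝ) (V n : ℕ) :
    small f V n = if n ≤ V then f n else 0 := rfl

lemma large_apply (f : ArithmeticFunction ℝ) (V n : ℕ) :
    large f V n = if n ≤ V then 0 else f n := rfl

lemma small_add_large (f : ArithmeticFunction ℝ) (V : ℕ) : small f V + large f V = f := by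
  ext n
  rw [ArithmeticFunction.add_apply, small_apply, large_apply]
  split_ifs <;> simp

/-- The Moebius function with real values. -/
abbrev muR : ArithmeticFunction ℝ := ((μ : ArithmeticFunction ℤ) : ArithmeticFunction ℝ)

theorem vaughan (U V : ℕ) :
    (Λ : ArithmeticFunction ℝ) = small Λ U + small muR V * ArithmeticFunction.log
      - (small muR V * small Λ U) * (ζ : ArithmeticFunction ℝ)
      + large muR V * (large Λ U * (ζ : ArithmeticFunction ℝ)) := by
  have h1 : (ζ : ArithmeticFunction ℝ) * muR = 1 := coe_zeta_mul_coe_moebius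
  have h2 : (Λ : ArithmeticFunction ℝ) * (ζ : ArithmeticFunction ℝ) = ArithmeticFunction.log :=
    vonMangoldt_mul_zeta
  have h3 : large muR V = muR - small muR V := by
    have := small_add_large muR V
    rw [eq_sub_iff_add_eq, add_comm]
    exact this
  have h4 : large Λ U = Λ - small Λ U := by
    have := small_add_large Λ U
    rw [eq_sub_iff_add_eq, add_comm]
    exact this
  rw [h3, h4, ← h2]
  have e : (muR - small muR V) * ((Λ - small Λ U) * (ζ : ArithmeticFunction ℝ)) =
      ((ζ : ArithmeticFunction ℝ) * muR) * Λ - ((ζ : ArithmeticFunction ℝ) * muR) * small Λ U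
        - small muR V * (Λ * (ζ : ArithmeticFunction ℝ))
        + (small muR V * small Λ U) * (ζ : ArithmeticFunction ℝ) := by ring
  rw [e, h1]
  ring

/-! ### Sizes of the coefficients -/

lemma abs_muR_le (n : ℕ) : |muR n| ≤ 1 := by
  have h := ArithmeticFunction.abs_moebius_le_one (n := n)
  have h2 : muR n = ((μ n : ℤ) : ℝ) := rfl
  rw [h2]
  exact_mod_cast h

lemma abs_small_mul_small_le (U V n : ℕ) :
    |(small muR V * small Λ U) n| ≤ Real.log n := by
  classical
  rw [mul_apply]
  refine (Finset.abs_sum_le_sum_abs _ _).trans ?_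
  have h1 : ∀ x ∈ n.divisorsAntidiagonal, |small muR V x.1 * small Λ U x.2| ≤ Λ x.2 := by
    intro x _
    rw [abs_mul]
    have h2 : |small muR V x.1| ≤ 1 := by
      rw [small_apply]
      split_ifs
      · exact abs_muR_le _
      · simp
    have h3 : |small Λ U x.2| ≤ Λ x.2 := by
      rw [small_apply]
      split_ifs
      · rw [abs_of_nonneg vonMangoldt_nonneg]
      · simp
    calc |small muR V x.1| * |small Λ U x.2| ≤ 1 * Λ x.2 :=
          mul_le_mul h2 h3 (abs_nonneg _) zero_le_one
      _ = Λ x.2 := one_mul _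
  refine (Finset.sum_le_sum h1).trans (le_of_eq ?_)
  rw [Nat.sum_divisorsAntidiagonal' (f := fun _ y => Λ y), vonMangoldt_sum]

lemma small_mul_small_eq_zero (U V n : ℕ) (hn : V * U < n) :
    (small muR V * small Λ U) n = 0 := by
  classical
  rw [mul_apply]
  apply Finset.sum_eq_zero
  intro x hx
  rw [Nat.mem_divisorsAntidiagonal] at hx
  rw [small_apply, small_apply]
  split_ifs with h1 h2
  · exfalso
    have := Nat.mul_le_mul h1 h2
    omega
  · simp
  · simp
  · simp

lemma large_mul_zeta_apply (U k : ℕ) :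
    (large Λ U * (ζ : ArithmeticFunction ℝ)) k = ∑ b ∈ k.divisors, large Λ U b := by
  rw [coe_mul_zeta_apply]

lemma large_mul_zeta_nonneg (U k : ℕ) :
    0 ≤ (large Λ U * (ζ : ArithmeticFunction ℝ)) k := by
  rw [large_mul_zeta_apply]
  apply Finset.sum_nonneg
  intro b _
  rw [large_apply]
  split_ifs
  · exact le_rfl
  · exact vonMangoldt_nonneg

lemma large_mul_zeta_le (U k : ℕ) :
    (large Λ U * (ζ : ArithmeticFunction ℝ)) k ≤ Real.log k := by
  rw [large_mul_zeta_apply, ← vonMangoldt_sum]
  apply Finset.sum_le_sum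
  intro b _
  rw [large_apply]
  split_ifs
  · exact vonMangoldt_nonneg
  · exact le_rfl

lemma large_mul_zeta_eq_zero (U k : ℕ) (hk : k ≤ U) :
    (large Λ U * (ζ : ArithmeticFunction ℝ)) k = 0 := by
  rw [large_mul_zeta_apply]
  apply Finset.sum_eq_zero
  intro b hb
  rw [large_apply, if_pos]
  exact (Nat.divisor_le hb).trans hk

/-- The Type I part of the discrepancy of the von Mangoldt function. -/
theorem disc_vonMangoldt_sub_le {a : ℕ} (ha : a.Prime) {c : ℤ} (hc : ((c : ℤ) : ZMod a) ≠ 0)
    (X Y U V : ℕ) (hU : U ≤ X) (hY : V * U ≤ Y) :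
    |disc a c X Y Λ - disc a c X Y (large muR V * (large Λ U * (ζ : ArithmeticFunction ℝ)))| ≤
      V * Real.log (Y + 1) + (V * U : ℕ) * Real.log (Y + 1) := by
  have h0 : disc a c X Y (small Λ U) = 0 := by
    rw [disc]
    apply Finset.sum_eq_zero
    intro n hn
    rw [mem_Ioc] at hn
    rw [small_apply, if_neg (by omega), zero_mul]
  have h1 : disc a c X Y Λ - disc a c X Y (large muR V * (large Λ U * (ζ : ArithmeticFunction ℝ)))
      = disc a c X Y (small muR V * ArithmeticFunction.log) -
        disc a c X Y ((small muR V * small Λ U) * (ζ : ArithmeticFunction ℝ)) := by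
    have hv := congrArg (disc a c X Y) (vaughan U V)
    rw [disc_add, disc_sub, disc_add, h0] at hv
    linarith
  rw [h1]
  have h2 := disc_mul_log_le ha hc X Y V (small muR V)
    (fun m hm => by rw [small_apply, if_neg (by omega)]) 1
    (fun m hm => by rw [small_apply, if_pos hm]; exact abs_muR_le m)
  have h3 := disc_mul_zeta_le ha hc X Y (V * U) (small muR V * small Λ U)
    (fun m hm => small_mul_small_eq_zero U V m hm) (Real.log (Y + 1))
    (fun m hm => by
      refine (abs_small_mul_small_le U V m).trans ?_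
      rcases Nat.eq_zero_or_pos m with h | h
      · rw [h]
        simp only [Nat.cast_zero, Real.log_zero]
        apply Real.log_nonneg
        have : (0 : ℝ) ≤ Y := Nat.cast_nonneg _
        linarith
      · apply Real.log_le_log (by exact_mod_cast h)
        have : (m : ℝ) ≤ Y := by exact_mod_cast hm.trans hY
        linarith)
  rw [one_mul] at h2
  have h4 := abs_sub (disc a c X Y (small muR V * ArithmeticFunction.log))
    (disc a c X Y ((small muR V * small Λ U) * (ζ : ArithmeticFunction ℝ)))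
  linarith

end

end Pool.Agent.Lib_helper72.AP
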