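import Mathlib
import Pool.Agent.Lib_helper72.AP.Vaughan

set_option autoImplicit false

/-!
Splitting into short blocks, and counting prime divisors.
-/

namespace Pool.Agent.Lib_helper72.AP

open Finset ArithmeticFunction
open scoped ArithmeticFunction.zeta ArithmeticFunction.Moebius

noncomputable section

/-- The left endpoints of the blocks. -/
def blk (V B : ℕ) : ℕ → ℕ
  | 0 => V + 1
  | (j + 1) => blk V B j + blk V B j / B

lemma blk_succ (V B j : ℕ) : blk V B (j + 1) = blk V B j + blk V B j / B := rfl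

lemma blk_le_succ (V B j : ℕ) : blk V B j ≤ blk V B (j + 1) := by
  rw [blk_succ]
  exact Nat.le_add_right _ _

lemma blk_mono (V B : ℕ) : Monotone (blk V B) := monotone_nat_of_le_succ (blk_le_succ V B)

lemma blk_ge (V B j : ℕ) : V + 1 ≤ blk V B j := blk_mono V B (Nat.zero_le j)

lemma blk_growth_step {V B : ℕ} (hB : 1 ≤ B) (hV : B ≤ V) (j : ℕ) :
    (blk V B j : ℝ) * (1 + 1 / (2 * B)) ≤ blk V B (j + 1) := by
  set v := blk V B j with hv
  have hv1 : B ≤ v := by
    have := blk_ge V B j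
    omega
  have h1 : v ≤ 2 * B * (v / B) := by
    have e1 := Nat.div_add_mod v B
    have e2 := Nat.mod_lt v (show 0 < B by omega)
    have e3 : 1 ≤ v / B := (Nat.one_le_div_iff (by omega)).2 hv1
    have e4 : B * 1 ≤ B * (v / B) := Nat.mul_le_mul_left B e3
    have e5 : 2 * B * (v / B) = B * (v / B) + B * (v / B) := by ring
    omega
  have h2 : (v : ℝ) ≤ 2 * B * ((v / B : ℕ) : ℝ) := by exact_mod_cast h1
  rw [blk_succ, ← hv]
  push_cast
  have hB' : (0 : ℝ) < 2 * B := by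
    have : (0 : ℝ) < B := by exact_mod_cast (show 0 < B by omega)
    linarith
  have h3 : (v : ℝ) * (1 / (2 * B)) ≤ ((v / B : ℕ) : ℝ) := by
    rw [mul_one_div, div_le_iff₀ hB']
    linarith
  linarith

lemma blk_growth {V B : ℕ} (hB : 1 ≤ B) (hV : B ≤ V) (j n : ℕ) :
    (blk V B j : ℝ) * (1 + 1 / (2 * B)) ^ n ≤ blk V B (j + n) := by
  induction n with
  | zero => simp
  | succ n ih =>
    have h1 := blk_growth_step hB hV (j + n)
    have h2 : (0 : ℝ) ≤ 1 + 1 / (2 * B) := by positivity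
    calc (blk V B j : ℝ) * (1 + 1 / (2 * B)) ^ (n + 1)
        = (blk V B j : ℝ) * (1 + 1 / (2 * B)) ^ n * (1 + 1 / (2 * B)) := by ring
      _ ≤ blk V B (j + n) * (1 + 1 / (2 * B)) := mul_le_mul_of_nonneg_right ih h2
      _ ≤ blk V B (j + n + 1) := h1

lemma blk_double {V B : ℕ} (hB : 1 ≤ B) (hV : B ≤ V) (j : ℕ) :
    2 * blk V B j ≤ blk V B (j + 2 * B) := by
  have h1 := blk_growth hB hV j (2 * B)
  have hB' : (0 : ℝ) < 2 * B := by
    have : (0 : ℝ) < B := by exact_mod_cast (show 0 < B by omega)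
    linarith
  have h2 : (2 : ℝ) ≤ (1 + 1 / (2 * B)) ^ (2 * B) := by
    have h3 := one_add_mul_le_pow (a := 1 / (2 * (B : ℝ))) (by
      have : (0 : ℝ) ≤ 1 / (2 * (B : ℝ)) := by positivity
      linarith) (2 * B)
    have h4 : ((2 * B : ℕ) : ℝ) * (1 / (2 * (B : ℝ))) = 1 := by
      push_cast
      field_simp
    linarith
  have h5 : (0 : ℝ) ≤ blk V B j := Nat.cast_nonneg _
  have h6 : (2 : ℝ) * blk V B j ≤ blk V B (j + 2 * B) := by nlinarith
  exact_mod_cast h6

lemma blk_pow {V B : ℕ} (hB : 1 ≤ B) (hV : B ≤ V) (i : ℕ) :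
    2 ^ i ≤ blk V B (2 * B * i) := by
  induction i with
  | zero =>
    have := blk_ge V B (2 * B * 0)
    simp only [pow_zero]
    omega
  | succ i ih =>
    have h1 := blk_double hB hV (2 * B * i)
    have e : 2 * B * (i + 1) = 2 * B * i + 2 * B := by ring
    rw [e, pow_succ]
    omega

/-- Splitting a sum into blocks. -/
lemma sum_blocks (V B N : ℕ) (F : ℕ → ℝ) :
    ∑ m ∈ Ico (V + 1) (blk V B N), F m =
      ∑ j ∈ range N, ∑ m ∈ Ico (blk V B j) (blk V B j + blk V B j / B), F m := by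
  induction N with
  | zero => simp [blk]
  | succ N ih =>
    rw [Finset.sum_range_succ, ← ih, ← blk_succ, Finset.sum_Ico_consecutive _ (blk_ge V B N)
      (blk_le_succ V B N)]

/-- The number of primes of a set dividing a nonzero integer. -/
lemma card_prime_dvd_le (P : Finset ℕ) (hP : ∀ a ∈ P, a.Prime) {z : ℤ} (hz : z ≠ 0) :
    ((P.filter (fun a => ((a : ℕ) : ℤ) ∣ z)).card : ℝ) * Real.log 2 ≤ Real.log |(z : ℝ)| := by
  classical
  set Q := P.filter (fun a => ((a : ℕ) : ℤ) ∣ z) with hQ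
  have h1 : (∏ p ∈ Q, p) ∣ z.natAbs := by
    apply Finset.prod_primes_dvd
    · intro a ha
      exact (hP a (mem_filter.1 ha).1).prime
    · intro a ha
      exact Int.natCast_dvd.1 (mem_filter.1 ha).2
  have h2 : ∏ p ∈ Q, p ≤ z.natAbs := Nat.le_of_dvd (Int.natAbs_pos.2 hz) h1
  have h3 : 2 ^ Q.card ≤ ∏ p ∈ Q, p := by
    rw [← Finset.prod_const]
    apply Finset.prod_le_prod
    · intro i _
      norm_num
    · intro i hi
      exact (hP i (mem_filter.1 hi).1).two_le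
  have h4 : ((2 : ℝ)) ^ Q.card ≤ |(z : ℝ)| := by
    have h5 : 2 ^ Q.card ≤ z.natAbs := h3.trans h2
    have h6 : ((2 ^ Q.card : ℕ) : ℝ) ≤ (z.natAbs : ℝ) := by exact_mod_cast h5
    rw [Nat.cast_natAbs] at h6
    push_cast at h6
    exact h6
  calc (Q.card : ℝ) * Real.log 2 = Real.log (2 ^ Q.card) := by rw [Real.log_pow]
    _ ≤ Real.log |(z : ℝ)| := Real.log_le_log (by positivity) h4

/-- The sum of the absolute discrepancy weights over prime moduli. -/
lemma sum_abs_wt_le (P : Finset ℕ) (hP : ∀ a ∈ P, a.Prime) {A₀ : ℝ} (hA₀ : 1 < A₀)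
    (h0 : ∀ a ∈ P, A₀ ≤ a) {c : ℤ} {n : ℕ} (hn : (n : ℤ) ≠ c) {Z : ℝ}
    (hZ : |((n : ℤ) - c : ℝ)| ≤ Z) :
    ∑ a ∈ P, |wt a c n| ≤ 2 * Real.log Z + P.card / (A₀ - 1) := by
  classical
  have hz : (n : ℤ) - c ≠ 0 := sub_ne_zero.2 hn
  have h1 : ∀ a ∈ P, |wt a c n| ≤
      (if ((a : ℕ) : ℤ) ∣ (n : ℤ) - c then 1 else 0) + 1 / (A₀ - 1) := by
    intro a ha
    have ha1 := h0 a ha
    have hpos : (0 : ℝ) < A₀ - 1 := by linarith
    have hpos2 : (0 : ℝ) < (a : ℝ) - 1 := by linarith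
    have h2 : |(if a ∣ n then (0 : ℝ) else 1) / ((a : ℝ) - 1)| ≤ 1 / (A₀ - 1) := by
      rw [abs_div, abs_of_pos hpos2]
      have h3 : |(if a ∣ n then (0 : ℝ) else 1)| ≤ 1 := by split_ifs <;> simp
      exact div_le_div₀ zero_le_one h3 hpos (by linarith)
    have h3 : |(if (n : ZMod a) = (c : ZMod a) then (1 : ℝ) else 0)| ≤
        (if ((a : ℕ) : ℤ) ∣ (n : ℤ) - c then 1 else 0) := by
      by_cases h4 : (n : ZMod a) = (c : ZMod a)
      · have h5 : ((a : ℕ) : ℤ) ∣ (n : ℤ) - c := by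
          rw [← ZMod.intCast_zmod_eq_zero_iff_dvd]
          push_cast
          rw [h4, sub_self]
        rw [if_pos h4, if_pos h5, abs_one]
      · rw [if_neg h4, abs_zero]
        split_ifs <;> simp
    rw [wt]
    exact (abs_sub _ _).trans (add_le_add h3 h2)
  refine (Finset.sum_le_sum h1).trans ?_
  rw [Finset.sum_add_distrib, Finset.sum_const, nsmul_eq_mul, mul_one_div]
  apply add_le_add_left
  have h2 : ∑ a ∈ P, (if ((a : ℕ) : ℤ) ∣ (n : ℤ) - c then (1 : ℝ) else 0) =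
      ((P.filter (fun a => ((a : ℕ) : ℤ) ∣ (n : ℤ) - c)).card : ℝ) := by
    rw [← Finset.sum_filter]
    simp
  rw [h2]
  have h3 := card_prime_dvd_le P hP hz
  have h4 : Real.log |((((n : ℤ) - c : ℤ)) : ℝ)| ≤ Real.log Z := by
    apply Real.log_le_log
    · rw [abs_pos]
      exact_mod_cast hz
    · push_cast
      push_cast at hZ
      exact hZ
  have h5 : (1 : ℝ) / 2 ≤ Real.log 2 := by
    have := Real.log_two_gt_d9
    linarith
  have h6 : (0 : ℝ) ≤ ((P.filter (fun a => ((a : ℕ) : ℤ) ∣ (n : ℤ) - c)).card : ℝ) :=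
    Nat.cast_nonneg _
  nlinarith

end

end Pool.Agent.Lib_helper72.AP
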