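import Mathlib
import Pool.Agent.Lib_helper72.AP.Blocks

set_option autoImplicit false

/-!
The Type II part of the discrepancy of the von Mangoldt function, on average over prime moduli.
-/

namespace Pool.Agent.Lib_helper72.AP

open Finset ArithmeticFunction
open scoped ArithmeticFunction.zeta ArithmeticFunction.Moebius

noncomputable section

/-- The smooth variable coefficient. -/
abbrev GG (U : ℕ) : ArithmeticFunction ℝ := large Λ U * (ζ : ArithmeticFunction ℝ)

/-- The truncated Moebius function. -/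
def al (W m : ℕ) : ℝ := if m ≤ W then muR m else 0

lemma abs_al_le (W m : ℕ) : |al W m| ≤ 1 := by
  rw [al]
  split_ifs
  · exact abs_muR_le m
  · simp

lemma div_le_of_lt {Y U m : ℕ} (hU : 1 ≤ U) (hm : Y / U < m) : Y / m ≤ U := by
  have h1 : Y < (Y / U + 1) * U := by
    have e1 := Nat.div_add_mod Y U
    have e2 := Nat.mod_lt Y (show 0 < U by omega)
    have e3 : (Y / U + 1) * U = U * (Y / U) + U := by ring
    omega
  have h2 : Y < m * U := lt_of_lt_of_le h1 (Nat.mul_le_mul_right U hm)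
  have h3 : Y / m < U + 1 := by
    rw [Nat.div_lt_iff_lt_mul (Nat.lt_of_le_of_lt (Nat.zero_le _) hm)]
    calc Y < m * U := h2
      _ ≤ (U + 1) * m := by
        rw [Nat.add_mul, Nat.mul_comm m U]
        omega
  omega

lemma typeII_split (a : ℕ) (c : ℤ) {X Y U V B N : ℕ} (hU : 1 ≤ U)
    (hN : Y / U + 1 ≤ blk V B N) :
    disc a c X Y (large muR V * GG U) =
      ∑ j ∈ range N, ∑ m ∈ Ico (blk V B j) (blk V B j + blk V B j / B),
        al (Y / U) m * ∑ k ∈ Ioc (X / m) (Y / m), GG U k * wt a c (m * k) := by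
  classical
  set W := Y / U with hW
  have hWY : W ≤ Y := Nat.div_le_self _ _
  set In : ℕ → ℝ := fun m => ∑ k ∈ Ioc (X / m) (Y / m), GG U k * wt a c (m * k) with hIn
  rw [← sum_blocks V B N (fun m => al W m * In m), disc, sum_conv_weight]
  have h1 : ∑ m ∈ Ioc 0 Y, large muR V m * In m = ∑ m ∈ Ioc V W, muR m * In m := by
    have hsub : Ioc V W ⊆ Ioc 0 Y := by
      intro m hm
      rw [mem_Ioc] at hm ⊢
      omega
    rw [← Finset.sum_subset hsub]
    · apply Finset.sum_congr rfl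
      intro m hm
      rw [mem_Ioc] at hm
      rw [large_apply, if_neg (by omega)]
    · intro m hm hm2
      rw [mem_Ioc] at hm hm2
      by_cases hmV : m ≤ V
      · rw [large_apply, if_pos hmV, zero_mul]
      · have hmW : W < m := by omega
        have h2 : In m = 0 := by
          apply Finset.sum_eq_zero
          intro k hk
          rw [mem_Ioc] at hk
          have h3 := div_le_of_lt hU hmW
          have h4 : GG U k = 0 := large_mul_zeta_eq_zero U k (hk.2.trans h3)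
          rw [h4, zero_mul]
        rw [h2, mul_zero]
  have h2 : ∑ m ∈ Ico (V + 1) (blk V B N), al W m * In m = ∑ m ∈ Ioc V W, muR m * In m := by
    have hsub : Ioc V W ⊆ Ico (V + 1) (blk V B N) := by
      intro m hm
      rw [mem_Ioc] at hm
      rw [mem_Ico]
      omega
    rw [← Finset.sum_subset hsub]
    · apply Finset.sum_congr rfl
      intro m hm
      rw [mem_Ioc] at hm
      rw [al, if_pos hm.2]
    · intro m hm hm2
      rw [mem_Ico] at hm
      rw [mem_Ioc] at hm2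
      rw [al, if_neg (by omega), zero_mul]
  rw [h1, h2]

lemma abs_sum_Ioc_sub_le (F : ℕ → ℝ) {p q p' q' : ℕ} (h1 : p ≤ p') (h2 : q ≤ q') (h3 : p ≤ q)
    (h4 : p' ≤ q') :
    |∑ k ∈ Ioc p q, F k - ∑ k ∈ Ioc p' q', F k| ≤
      ∑ k ∈ Ioc p p', |F k| + ∑ k ∈ Ioc q q', |F k| := by
  have e1 := Finset.sum_Ioc_consecutive F h1 h4
  have e2 := Finset.sum_Ioc_consecutive F h3 h2
  have e3 : ∑ k ∈ Ioc p q, F k - ∑ k ∈ Ioc p' q', F k =
      ∑ k ∈ Ioc p p', F k - ∑ k ∈ Ioc q q', F k := by linarith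
  rw [e3]
  exact (abs_sub _ _).trans (add_le_add (Finset.abs_sum_le_sum_abs _ _)
    (Finset.abs_sum_le_sum_abs _ _))

/-- The number of integers between two close quotients. -/
lemma card_div_sub_le {X v B m : ℕ} (hB : 1 ≤ B) (hv : 1 ≤ v) (hvm : v ≤ m)
    (hm : m ≤ v + v / B) :
    ((Ioc (X / m) (X / v)).card : ℝ) ≤ (X : ℝ) / B * (1 / m) + 1 := by
  have hvr : (0 : ℝ) < v := by exact_mod_cast hv
  have hmr : (0 : ℝ) < m := by exact_mod_cast (show 0 < m by omega)
  have hBr : (0 : ℝ) < B := by exact_mod_cast (show 0 < B by omega)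
  have hle : X / m ≤ X / v := Nat.div_le_div_left hvm (by omega)
  rw [Nat.card_Ioc, Nat.cast_sub hle]
  have h1 : ((X / v : ℕ) : ℝ) ≤ (X : ℝ) / v := Nat.cast_div_le
  have h2 : (X : ℝ) / m ≤ ((X / m : ℕ) : ℝ) + 1 := by
    rw [div_le_iff₀ hmr]
    have e1 := Nat.div_add_mod X m
    have e2 := Nat.mod_lt X (show 0 < m by omega)
    have e3 : X ≤ (X / m + 1) * m := by
      have : (X / m + 1) * m = m * (X / m) + m := by ring
      omega
    exact_mod_cast e3
  have h3 : (m : ℝ) - v ≤ (v : ℝ) / B := by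
    have e1 : ((v / B : ℕ) : ℝ) ≤ (v : ℝ) / B := Nat.cast_div_le
    have e2 : (m : ℝ) ≤ v + ((v / B : ℕ) : ℝ) := by exact_mod_cast hm
    linarith
  have h4 : (X : ℝ) / v - X / m ≤ (X : ℝ) / B * (1 / m) := by
    have e1 : (X : ℝ) / v - X / m = X * (m - v) / (v * m) := by
      field_simp
    have e2 : (X : ℝ) / B * (1 / m) = X * (v / B) / (v * m) := by
      field_simp
    rw [e1, e2]
    apply div_le_div_of_nonneg_right _ (by positivity)
    exact mul_le_mul_of_nonneg_left h3 (Nat.cast_nonneg _)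
  linarith

lemma GG_abs_le {U k Y : ℕ} (hk : k ≤ Y) (hY : 1 ≤ Y) : |GG U k| ≤ Real.log Y := by
  rw [abs_of_nonneg (large_mul_zeta_nonneg U k)]
  refine (large_mul_zeta_le U k).trans ?_
  rcases Nat.eq_zero_or_pos k with h | h
  · rw [h]
    simp only [Nat.cast_zero, Real.log_zero]
    exact Real.log_nonneg (by exact_mod_cast hY)
  · exact Real.log_le_log (by exact_mod_cast h) (by exact_mod_cast hk)

/-- The boundary terms of one short range. -/
lemma boundary_le (P : Finset ℕ) (hP : ∀ a ∈ P, a.Prime) {A₀ : ℝ} (hA₀ : 1 < A₀)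
    (h0 : ∀ a ∈ P, A₀ ≤ a) {c : ℤ} {X Y U v B m : ℕ} (hXY : X ≤ Y) (hcX : |c| ≤ X)
    (hX1 : 1 ≤ X) (hB : 1 ≤ B) (hv : 1 ≤ v) (hvm : v ≤ m) (hm : m ≤ v + v / B)
    {T : ℕ} (hT1 : X ≤ T) (hT2 : T ≤ Y) :
    ∑ a ∈ P, ∑ k ∈ Ioc (T / m) (T / v), |GG U k * wt a c (m * k)| ≤
      Real.log Y * (2 * Real.log (3 * Y) + P.card / (A₀ - 1)) * ((T : ℝ) / B * (1 / m) + 1) := by
  classical
  have hY1 : 1 ≤ Y := by omega
  have hmpos : 0 < m := by omega
  have hlogY : 0 ≤ Real.log Y := Real.log_nonneg (by exact_mod_cast hY1)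
  have hΩ : 0 ≤ 2 * Real.log (3 * Y) + P.card / (A₀ - 1) := by
    have h1 : (1 : ℝ) ≤ Y := by exact_mod_cast hY1
    have h2 : 0 ≤ Real.log (3 * (Y : ℝ)) := Real.log_nonneg (by linarith)
    have h3 : 0 < A₀ - 1 := by linarith
    positivity
  rw [Finset.sum_comm]
  have hterm : ∀ k ∈ Ioc (T / m) (T / v), ∑ a ∈ P, |GG U k * wt a c (m * k)| ≤
      Real.log Y * (2 * Real.log (3 * Y) + P.card / (A₀ - 1)) := by
    intro k hk
    rw [mem_Ioc] at hk
    have hk1 : T < m * k := by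
      have := (Nat.div_lt_iff_lt_mul hmpos).1 hk.1
      rwa [mul_comm] at this
    have hk2 : v * k ≤ T := by
      have := (Nat.le_div_iff_mul_le (by omega)).1 hk.2
      rwa [mul_comm] at this
    have hk3 : m * k ≤ 2 * T := by
      have h1 : m ≤ 2 * v := by
        have := Nat.div_le_self v B
        omega
      calc m * k ≤ 2 * v * k := Nat.mul_le_mul_right k h1
        _ = 2 * (v * k) := by ring
        _ ≤ 2 * T := by omega
    have hkY : k ≤ Y := by
      have : k ≤ v * k := Nat.le_mul_of_pos_left k (by omega)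
      omega
    have hne : ((m * k : ℕ) : ℤ) ≠ c := by
      intro h
      have h1 : c ≤ X := (le_abs_self c).trans hcX
      have h2 : (T : ℤ) < ((m * k : ℕ) : ℤ) := by exact_mod_cast hk1
      have h3 : (X : ℤ) ≤ T := by exact_mod_cast hT1
      omega
    have hZ : |(((m * k : ℕ) : ℤ) - c : ℝ)| ≤ 3 * Y := by
      have h1 : |(c : ℝ)| ≤ X := by exact_mod_cast hcX
      have h2 : ((m * k : ℕ) : ℝ) ≤ 2 * Y := by exact_mod_cast hk3.trans (by omega)
      have h3 : (0 : ℝ) ≤ ((m * k : ℕ) : ℝ) := Nat.cast_nonneg _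
      have h4 : (X : ℝ) ≤ Y := by exact_mod_cast hXY
      rw [Int.cast_natCast]
      rw [abs_le] at h1 ⊢
      constructor <;> linarith
    have h5 := sum_abs_wt_le P hP hA₀ h0 hne hZ
    have h6 := GG_abs_le (U := U) hkY hY1
    calc ∑ a ∈ P, |GG U k * wt a c (m * k)| = |GG U k| * ∑ a ∈ P, |wt a c (m * k)| := by
          rw [Finset.mul_sum]
          apply Finset.sum_congr rfl
          intro a _
          rw [abs_mul]
      _ ≤ Real.log Y * (2 * Real.log (3 * Y) + P.card / (A₀ - 1)) :=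
          mul_le_mul h6 h5 (Finset.sum_nonneg fun _ _ => abs_nonneg _) hlogY
  refine (Finset.sum_le_sum hterm).trans ?_
  rw [Finset.sum_const, nsmul_eq_mul, mul_comm]
  apply mul_le_mul_of_nonneg_left (card_div_sub_le hB hv hvm hm)
  positivity

lemma sum_one_div_le_log (W : ℕ) :
    ∑ m ∈ Icc 1 W, (1 : ℝ) / m ≤ 1 + Real.log W := by
  have h := harmonic_le_one_add_log W
  have h2 : ((harmonic W : ℚ) : ℝ) = ∑ u ∈ Icc (1 : ℕ) W, (1 : ℝ) / u := by
    rw [harmonic_eq_sum_Icc]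
    push_cast
    simp
  rw [h2] at h
  exact h

/-- The main terms of one block. -/
lemma block_main (P : Finset ℕ) (hP : ∀ a ∈ P, a.Prime) {A₀ A₁ : ℝ} (hA₀ : 1 < A₀)
    (h0 : ∀ a ∈ P, A₀ ≤ a) (h1 : ∀ a ∈ P, (a : ℝ) ≤ A₁) {c : ℤ}
    (hc : ∀ a ∈ P, ((c : ℤ) : ZMod a) ≠ 0) {X Y U v B : ℕ} (hXY : X ≤ Y)
    (hY1 : 1 ≤ Y) (hB : 1 ≤ B) (hU1 : 1 ≤ U) (hU : A₀ * (1 + A₁ * P.card) ≤ U)
    (hA₁ : 0 ≤ A₁) (hv1 : 1 ≤ v) (hv : B * A₀ ≤ v) (hvW : v ≤ Y / U) :
    ∑ a ∈ P, |bil a c (al (Y / U)) (GG U) v (v / B) (X / v + 1) (Y / v - X / v)| ≤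
      2 * Real.sqrt P.card * Y * Real.log Y / (B * A₀) := by
  classical
  have hYr : (1 : ℝ) ≤ Y := by exact_mod_cast hY1
  have hlogY : 0 ≤ Real.log Y := Real.log_nonneg hYr
  have hBr : (0 : ℝ) < B := by exact_mod_cast (show 0 < B by omega)
  have hvr : (0 : ℝ) < v := by exact_mod_cast hv1
  have hA₀' : (0 : ℝ) < A₀ := by linarith
  have hPr : (0 : ℝ) ≤ P.card := Nat.cast_nonneg _
  have hmain := sum_abs_bil_le P hP hA₀' h0 h1 hc (al (Y / U)) (GG U) v (v / B) (X / v + 1)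
    (Y / v - X / v)
  set LJ : ℕ := v / B with hLJ
  set L : ℕ := Y / v - X / v with hL
  -- the four factors
  have f1 : ∑ m ∈ Ico v (v + LJ), (al (Y / U) m) ^ 2 ≤ (v : ℝ) / B := by
    have e1 : ∑ m ∈ Ico v (v + LJ), (al (Y / U) m) ^ 2 ≤ ∑ m ∈ Ico v (v + LJ), (1 : ℝ) := by
      apply Finset.sum_le_sum
      intro m _
      have := abs_al_le (Y / U) m
      rw [← sq_abs]
      have h3 := abs_nonneg (al (Y / U) m)
      nlinarith
    have e2 : ∑ m ∈ Ico v (v + LJ), (1 : ℝ) = LJ := by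
      rw [Finset.sum_const, Nat.card_Ico, nsmul_eq_mul, mul_one, Nat.add_sub_cancel_left]
    rw [e2] at e1
    exact e1.trans Nat.cast_div_le
  have f2 : (LJ : ℝ) / A₀ + 1 ≤ 2 * v / (B * A₀) := by
    have e1 : (LJ : ℝ) ≤ v / B := Nat.cast_div_le
    have e2 : (LJ : ℝ) / A₀ ≤ v / B / A₀ := div_le_div_of_nonneg_right e1 hA₀'.le
    have e3 : (v : ℝ) / B / A₀ = v / (B * A₀) := by rw [div_div]
    have e4 : (1 : ℝ) ≤ v / (B * A₀) := by
      rw [le_div_iff₀ (by positivity), one_mul]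
      exact hv
    have e5 : (2 : ℝ) * v / (B * A₀) = v / (B * A₀) + v / (B * A₀) := by ring
    linarith
  have hLr : (L : ℝ) ≤ Y / v := by
    have e1 : (L : ℝ) ≤ ((Y / v : ℕ) : ℝ) := by exact_mod_cast Nat.sub_le _ _
    exact e1.trans Nat.cast_div_le
  have f3 : (L : ℝ) / A₀ + 1 + A₁ * P.card ≤ 2 * Y / (v * A₀) := by
    have e1 : (L : ℝ) / A₀ ≤ Y / v / A₀ := div_le_div_of_nonneg_right hLr hA₀'.le
    have e3 : (Y : ℝ) / v / A₀ = Y / (v * A₀) := by rw [div_div]
    have e4 : 1 + A₁ * P.card ≤ Y / (v * A₀) := by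
      rw [le_div_iff₀ (by positivity)]
      have e5 : (v : ℝ) * U ≤ Y := by
        have : v * U ≤ Y := (Nat.le_div_iff_mul_le (by omega)).1 hvW
        exact_mod_cast this
      calc (1 + A₁ * P.card) * (v * A₀) = v * (A₀ * (1 + A₁ * P.card)) := by ring
        _ ≤ v * U := mul_le_mul_of_nonneg_left hU hvr.le
        _ ≤ Y := e5
    have e5 : (2 : ℝ) * Y / (v * A₀) = Y / (v * A₀) + Y / (v * A₀) := by ring
    linarith
  have f4 : ∑ k ∈ Ico (X / v + 1) (X / v + 1 + L), (GG U k) ^ 2 ≤ Y / v * (Real.log Y) ^ 2 := by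
    have e1 : ∑ k ∈ Ico (X / v + 1) (X / v + 1 + L), (GG U k) ^ 2 ≤
        ∑ k ∈ Ico (X / v + 1) (X / v + 1 + L), (Real.log Y) ^ 2 := by
      apply Finset.sum_le_sum
      intro k hk
      rw [mem_Ico] at hk
      have hle : X / v ≤ Y / v := Nat.div_le_div_right hXY
      have hkY : k ≤ Y / v := by omega
      have := GG_abs_le (U := U) (hkY.trans (Nat.div_le_self _ _)) hY1
      rw [← sq_abs]
      exact pow_le_pow_left₀ (abs_nonneg _) this 2
    have e2 : ∑ k ∈ Ico (X / v + 1) (X / v + 1 + L), (Real.log Y) ^ 2 = L * (Real.log Y) ^ 2 := by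
      rw [Finset.sum_const, Nat.card_Ico, nsmul_eq_mul, Nat.add_sub_cancel_left]
    rw [e2] at e1
    exact e1.trans (mul_le_mul_of_nonneg_right hLr (sq_nonneg _))
  have g1 : 0 ≤ ∑ m ∈ Ico v (v + LJ), (al (Y / U) m) ^ 2 :=
    Finset.sum_nonneg fun _ _ => sq_nonneg _
  have g4 : 0 ≤ ∑ k ∈ Ico (X / v + 1) (X / v + 1 + L), (GG U k) ^ 2 :=
    Finset.sum_nonneg fun _ _ => sq_nonneg _
  have hsq : (∑ a ∈ P, |bil a c (al (Y / U)) (GG U) v LJ (X / v + 1) L|) ^ 2 ≤
      (2 * Real.sqrt P.card * Y * Real.log Y / (B * A₀)) ^ 2 := by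
    refine hmain.trans ?_
    have e1 : (∑ m ∈ Ico v (v + LJ), (al (Y / U) m) ^ 2) * ((LJ : ℝ) / A₀ + 1) ≤
        (v / B) * (2 * v / (B * A₀)) := mul_le_mul f1 f2 (by positivity) (by positivity)
    have e2 : ((L : ℝ) / A₀ + 1 + A₁ * P.card) *
        ∑ k ∈ Ico (X / v + 1) (X / v + 1 + L), (GG U k) ^ 2 ≤
        (2 * Y / (v * A₀)) * (Y / v * (Real.log Y) ^ 2) :=
      mul_le_mul f3 f4 g4 (by positivity)
    have e3 : (P.card : ℝ) * (((v / B) * (2 * v / (B * A₀))) *
        ((2 * Y / (v * A₀)) * (Y / v * (Real.log Y) ^ 2))) =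
        (2 * Real.sqrt P.card * Y * Real.log Y / (B * A₀)) ^ 2 := by
      have hs : Real.sqrt P.card ^ 2 = P.card := Real.sq_sqrt hPr
      rw [div_pow, mul_pow, mul_pow, mul_pow, hs]
      field_simp
    rw [← e3]
    apply mul_le_mul_of_nonneg_left _ hPr
    exact mul_le_mul e1 e2 (mul_nonneg (by positivity) g4) (by positivity)
  have hnn : 0 ≤ 2 * Real.sqrt P.card * Y * Real.log Y / (B * A₀) := by positivity
  exact abs_le_of_sq_le_sq' hsq hnn |>.2

/-- The Type II part of the discrepancy, on average over prime moduli. -/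
theorem typeII_total (P : Finset ℕ) (hP : ∀ a ∈ P, a.Prime) {A₀ A₁ : ℝ} (hA₀ : 1 < A₀)
    (h0 : ∀ a ∈ P, A₀ ≤ a) (h1 : ∀ a ∈ P, (a : ℝ) ≤ A₁) (hA₁ : 0 ≤ A₁) {c : ℤ}
    (hc : ∀ a ∈ P, ((c : ℤ) : ZMod a) ≠ 0) {X Y U V B I : ℕ} (hXY : X ≤ Y)
    (hcX : |c| ≤ X) (hX1 : 1 ≤ X) (hB : 1 ≤ B) (hU1 : 1 ≤ U)
    (hU : A₀ * (1 + A₁ * P.card) ≤ U) (hV : B * A₀ ≤ V) (hI : Y / U + 1 ≤ 2 ^ I) :
    ∑ a ∈ P, |disc a c X Y (large muR V * GG U)| ≤
      (2 * B * I : ℕ) * (2 * Real.sqrt P.card * Y * Real.log Y / (B * A₀)) +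
      Real.log Y * (2 * Real.log (3 * Y) + P.card / (A₀ - 1)) *
        (((X : ℝ) + Y) / B * (1 + Real.log (Y / U : ℕ)) + 2 * (Y / U : ℕ)) := by
  classical
  have hY1 : 1 ≤ Y := by omega
  have hYr : (1 : ℝ) ≤ Y := by exact_mod_cast hY1
  have hlogY : 0 ≤ Real.log Y := Real.log_nonneg hYr
  have hBr : (0 : ℝ) < B := by exact_mod_cast (show 0 < B by omega)
  have hVB : B ≤ V := by
    have e1 : (B : ℝ) ≤ V := by nlinarith
    exact_mod_cast e1
  set W := Y / U with hW
  set N := 2 * B * I with hN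
  have hNblk : W + 1 ≤ blk V B N := hI.trans (blk_pow hB hVB I)
  set Ω : ℝ := 2 * Real.log (3 * Y) + P.card / (A₀ - 1) with hΩdef
  have hΩ : 0 ≤ Ω := by
    have h2 : 0 ≤ Real.log (3 * (Y : ℝ)) := Real.log_nonneg (by linarith)
    have h3 : 0 < A₀ - 1 := by linarith
    positivity
  set K : ℝ := 2 * Real.sqrt P.card * Y * Real.log Y / (B * A₀) with hK
  have hK0 : 0 ≤ K := by positivity
  set v := blk V B with hv
  have hv1 : ∀ j, V + 1 ≤ v j := blk_ge V B
  -- pointwise in `a`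
  have hpt : ∀ a ∈ P, |disc a c X Y (large muR V * GG U)| ≤
      ∑ j ∈ range N, (|bil a c (al W) (GG U) (v j) (v j / B) (X / v j + 1) (Y / v j - X / v j)| +
        ∑ m ∈ Ico (v j) (v j + v j / B), |al W m| *
          (∑ k ∈ Ioc (X / m) (X / v j), |GG U k * wt a c (m * k)| +
            ∑ k ∈ Ioc (Y / m) (Y / v j), |GG U k * wt a c (m * k)|)) := by
    intro a ha
    rw [typeII_split a c hU1 hNblk]
    refine (Finset.abs_sum_le_sum_abs _ _).trans (Finset.sum_le_sum fun j _ => ?_)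
    have hvj : 0 < v j := by have := hv1 j; omega
    have hXYv : X / v j ≤ Y / v j := Nat.div_le_div_right hXY
    have e1 : ∑ m ∈ Ico (v j) (v j + v j / B),
        al W m * ∑ k ∈ Ioc (X / m) (Y / m), GG U k * wt a c (m * k) =
        bil a c (al W) (GG U) (v j) (v j / B) (X / v j + 1) (Y / v j - X / v j) +
        ∑ m ∈ Ico (v j) (v j + v j / B), al W m *
          (∑ k ∈ Ioc (X / m) (Y / m), GG U k * wt a c (m * k) -
            ∑ k ∈ Ioc (X / v j) (Y / v j), GG U k * wt a c (m * k)) := by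
      rw [bil, ← Finset.sum_add_distrib]
      apply Finset.sum_congr rfl
      intro m _
      have e2 : Ico (X / v j + 1) (X / v j + 1 + (Y / v j - X / v j)) =
          Ioc (X / v j) (Y / v j) := by
        rw [Ioc_eq_Ico_succ]
        congr 1
        omega
      rw [inner_eq_wt, e2]
      ring
    rw [e1]
    refine (abs_add_le _ _).trans (add_le_add le_rfl ?_)
    refine (Finset.abs_sum_le_sum_abs _ _).trans (Finset.sum_le_sum fun m hm => ?_)
    rw [abs_mul]
    apply mul_le_mul_of_nonneg_left _ (abs_nonneg _)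
    rw [mem_Ico] at hm
    exact abs_sum_Ioc_sub_le (fun k => GG U k * wt a c (m * k))
      (Nat.div_le_div_left hm.1 hvj) (Nat.div_le_div_left hm.1 hvj)
      (Nat.div_le_div_right hXY) hXYv
  -- the main terms
  have hmain : ∀ j ∈ range N, ∑ a ∈ P,
      |bil a c (al W) (GG U) (v j) (v j / B) (X / v j + 1) (Y / v j - X / v j)| ≤ K := by
    intro j _
    by_cases hvW : v j ≤ W
    · apply block_main P hP hA₀ h0 h1 hc hXY hY1 hB hU1 hU hA₁ (by have := hv1 j; omega) _ hvW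
      have e1 : (V : ℝ) ≤ v j := by exact_mod_cast (Nat.le_succ V).trans (hv1 j)
      linarith
    · have e1 : ∀ a ∈ P,
          |bil a c (al W) (GG U) (v j) (v j / B) (X / v j + 1) (Y / v j - X / v j)| = 0 := by
        intro a _
        rw [abs_eq_zero, bil]
        apply Finset.sum_eq_zero
        intro m hm
        rw [mem_Ico] at hm
        rw [al, if_neg (by omega), zero_mul]
      rw [Finset.sum_congr rfl e1, Finset.sum_const_zero]
      exact hK0
  -- the boundary terms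
  have hbd : ∀ j ∈ range N, ∀ m ∈ Ico (v j) (v j + v j / B),
      ∑ a ∈ P, |al W m| * (∑ k ∈ Ioc (X / m) (X / v j), |GG U k * wt a c (m * k)| +
            ∑ k ∈ Ioc (Y / m) (Y / v j), |GG U k * wt a c (m * k)|) ≤
        if m ≤ W then Real.log Y * Ω * (((X : ℝ) + Y) / B * (1 / m) + 2) else 0 := by
    intro j _ m hm
    rw [mem_Ico] at hm
    have hvj := hv1 j
    split_ifs with hmW
    · rw [← Finset.mul_sum, Finset.sum_add_distrib]
      have e1 := boundary_le (U := U) P hP hA₀ h0 hXY hcX hX1 hB (by omega : 1 ≤ v j) hm.1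
        hm.2.le le_rfl hXY
      have e2 := boundary_le (U := U) P hP hA₀ h0 hXY hcX hX1 hB (by omega : 1 ≤ v j) hm.1
        hm.2.le hXY le_rfl
      have e3 : |al W m| ≤ 1 := abs_al_le W m
      have e4 : ∑ a ∈ P, ∑ k ∈ Ioc (X / m) (X / v j), |GG U k * wt a c (m * k)| +
          ∑ a ∈ P, ∑ k ∈ Ioc (Y / m) (Y / v j), |GG U k * wt a c (m * k)| ≤
          Real.log Y * Ω * (((X : ℝ) + Y) / B * (1 / m) + 2) := by
        have e5 : Real.log Y * Ω * (((X : ℝ) + Y) / B * (1 / m) + 2) =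
            Real.log Y * Ω * ((X : ℝ) / B * (1 / m) + 1) +
            Real.log Y * Ω * ((Y : ℝ) / B * (1 / m) + 1) := by ring
        rw [e5]
        exact add_le_add e1 e2
      have e6 : 0 ≤ ∑ a ∈ P, ∑ k ∈ Ioc (X / m) (X / v j), |GG U k * wt a c (m * k)| +
          ∑ a ∈ P, ∑ k ∈ Ioc (Y / m) (Y / v j), |GG U k * wt a c (m * k)| := by positivity
      calc _ ≤ 1 * (∑ a ∈ P, ∑ k ∈ Ioc (X / m) (X / v j), |GG U k * wt a c (m * k)| +
          ∑ a ∈ P, ∑ k ∈ Ioc (Y / m) (Y / v j), |GG U k * wt a c (m * k)|) :=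
            mul_le_mul_of_nonneg_right e3 e6
        _ ≤ _ := by rw [one_mul]; exact e4
    · rw [al, if_neg hmW]
      simp
  -- assembling
  calc ∑ a ∈ P, |disc a c X Y (large muR V * GG U)|
      ≤ ∑ a ∈ P, ∑ j ∈ range N,
        (|bil a c (al W) (GG U) (v j) (v j / B) (X / v j + 1) (Y / v j - X / v j)| +
        ∑ m ∈ Ico (v j) (v j + v j / B), |al W m| *
          (∑ k ∈ Ioc (X / m) (X / v j), |GG U k * wt a c (m * k)| +
            ∑ k ∈ Ioc (Y / m) (Y / v j), |GG U k * wt a c (m * k)|)) :=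
        Finset.sum_le_sum hpt
    _ = ∑ j ∈ range N, (∑ a ∈ P,
        |bil a c (al W) (GG U) (v j) (v j / B) (X / v j + 1) (Y / v j - X / v j)| +
        ∑ m ∈ Ico (v j) (v j + v j / B), ∑ a ∈ P, |al W m| *
          (∑ k ∈ Ioc (X / m) (X / v j), |GG U k * wt a c (m * k)| +
            ∑ k ∈ Ioc (Y / m) (Y / v j), |GG U k * wt a c (m * k)|)) := by
        rw [Finset.sum_comm]
        apply Finset.sum_congr rfl
        intro j _
        rw [Finset.sum_add_distrib]
        congr 1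
        rw [Finset.sum_comm]
    _ ≤ ∑ j ∈ range N, (K + ∑ m ∈ Ico (v j) (v j + v j / B),
          if m ≤ W then Real.log Y * Ω * (((X : ℝ) + Y) / B * (1 / m) + 2) else 0) := by
        apply Finset.sum_le_sum
        intro j hj
        exact add_le_add (hmain j hj) (Finset.sum_le_sum fun m hm => hbd j hj m hm)
    _ = N * K + ∑ m ∈ Ico (V + 1) (blk V B N),
          (if m ≤ W then Real.log Y * Ω * (((X : ℝ) + Y) / B * (1 / m) + 2) else 0) := by
        rw [Finset.sum_add_distrib, Finset.sum_const, card_range, nsmul_eq_mul,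
          sum_blocks V B N]
    _ ≤ N * K + Real.log Y * Ω * (((X : ℝ) + Y) / B * (1 + Real.log (W : ℕ)) + 2 * (W : ℕ)) := by
        apply add_le_add le_rfl
        rw [← Finset.sum_filter]
        have hsub : (Ico (V + 1) (blk V B N)).filter (fun m => m ≤ W) ⊆ Icc 1 W := by
          intro m hm
          rw [mem_filter, mem_Ico] at hm
          rw [mem_Icc]
          omega
        have e1 : ∑ m ∈ (Ico (V + 1) (blk V B N)).filter (fun m => m ≤ W),
            Real.log Y * Ω * (((X : ℝ) + Y) / B * (1 / m) + 2) ≤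
            ∑ m ∈ Icc 1 W, Real.log Y * Ω * (((X : ℝ) + Y) / B * (1 / m) + 2) := by
          apply Finset.sum_le_sum_of_subset_of_nonneg hsub
          intro m _ _
          positivity
        refine e1.trans ?_
        rw [← Finset.mul_sum]
        apply mul_le_mul_of_nonneg_left _ (mul_nonneg hlogY hΩ)
        rw [Finset.sum_add_distrib, ← Finset.mul_sum, Finset.sum_const, Nat.card_Icc,
          nsmul_eq_mul, Nat.add_sub_cancel]
        have e2 := sum_one_div_le_log W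
        have e3 : 0 ≤ ((X : ℝ) + Y) / B := by positivity
        have e4 := mul_le_mul_of_nonneg_left e2 e3
        linarith

end

end Pool.Agent.Lib_helper72.AP
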