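import Mathlib
import Pool.Agent.Lib_helper72.AP.TypeIITotal

set_option autoImplicit false

/-!
The discrepancy of the von Mangoldt function on average over prime moduli: final form.
-/

namespace Pool.Agent.Lib_helper72.AP

open Finset ArithmeticFunction
open scoped ArithmeticFunction.zeta ArithmeticFunction.Moebius

noncomputable section

lemma exists_cube_root (X : ℕ) : ∃ U : ℕ, U ^ 3 ≤ X ∧ X < (U + 1) ^ 3 := by
  have hex : ∃ u : ℕ, X < (u + 1) ^ 3 := by
    refine ⟨X, ?_⟩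
    calc X < X + 1 := Nat.lt_succ_self X
      _ ≤ (X + 1) ^ 3 := Nat.le_self_pow (by norm_num) _
  classical
  refine ⟨Nat.find hex, ?_, Nat.find_spec hex⟩
  rcases Nat.eq_zero_or_pos (Nat.find hex) with h | h
  · rw [h]; simp
  · have h2 := Nat.find_min hex (show Nat.find hex - 1 < Nat.find hex by omega)
    have h3 : Nat.find hex - 1 + 1 = Nat.find hex := by omega
    rw [h3] at h2
    omega

theorem err_bound {A X : ℕ} (hA : 2 ≤ A) (hX : (20 * A ^ 3) ^ 3 ≤ X)
    {t : ℝ} (ht1 : 1 ≤ t) (htA : t ^ 10 = A) (hy : Real.log ((4 * X : ℕ) : ℝ) ≤ t ^ 2)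
    {P : Finset ℕ} (hP : ∀ a ∈ P, a.Prime) (hPA : ∀ a ∈ P, A < a ∧ a ≤ 4 * A) {c : ℤ}
    (hcX : |c| ≤ X) (hc : ∀ a ∈ P, ((c : ℤ) : ZMod a) ≠ 0) :
    ∑ a ∈ P, |disc a c X (4 * X) Λ| ≤ 200 * X / t := by
  classical
  obtain ⟨U, hU1, hU2⟩ := exists_cube_root X
  have hUA : 20 * A ^ 3 ≤ U := by
    have h1 : (20 * A ^ 3) ^ 3 < (U + 1) ^ 3 := lt_of_le_of_lt hX hU2
    have h2 : 20 * A ^ 3 < U + 1 := lt_of_pow_lt_pow_left₀ 3 (Nat.zero_le _) h1
    omega
  have hA3 : 8 ≤ A ^ 3 := by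
    calc 8 = 2 ^ 3 := by norm_num
      _ ≤ A ^ 3 := Nat.pow_le_pow_left hA 3
  have hAA3 : A ≤ A ^ 3 := Nat.le_self_pow (by norm_num) A
  have hA2A3 : A * A ≤ A ^ 3 := by
    calc A * A = A ^ 2 := by ring
      _ ≤ A ^ 3 := Nat.pow_le_pow_right (by omega) (by norm_num)
  have hXbig : 160 ^ 3 ≤ X := by
    calc 160 ^ 3 ≤ (20 * A ^ 3) ^ 3 := Nat.pow_le_pow_left (by omega) 3
      _ ≤ X := hX
  have hX1 : 1 ≤ X := by omega
  have hUpos : 1 ≤ U := by omega
  -- cardinality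
  have hcard : P.card ≤ 3 * A := by
    have hsub : P ⊆ Ioc A (4 * A) := by
      intro a ha
      rw [mem_Ioc]
      exact hPA a ha
    have := Finset.card_le_card hsub
    rw [Nat.card_Ioc] at this
    omega
  have hcardr : (P.card : ℝ) ≤ 3 * A := by exact_mod_cast hcard
  have hcard0 : (0 : ℝ) ≤ P.card := Nat.cast_nonneg _
  -- real parameters
  have ht0 : (0 : ℝ) < t := by linarith
  have hAr : (A : ℝ) = t ^ 10 := htA.symm
  have hA2r : (2 : ℝ) ≤ A := by exact_mod_cast hA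
  have hXr : (1 : ℝ) ≤ X := by exact_mod_cast hX1
  set Y : ℕ := 4 * X with hY
  have hYr : (Y : ℝ) = 4 * X := by rw [hY]; push_cast; ring
  set y : ℝ := Real.log (Y : ℝ) with hydef
  have hy16 : 15 ≤ y := by
    have h1 : (4 * 160 ^ 3 : ℝ) ≤ Y := by
      rw [hYr]
      have : ((160 ^ 3 : ℕ) : ℝ) ≤ X := by exact_mod_cast hXbig
      push_cast at this
      linarith
    have h2 : Real.log (2 ^ 22 : ℝ) ≤ Real.log (Y : ℝ) := by
      apply Real.log_le_log (by norm_num)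
      refine le_trans ?_ h1
      norm_num
    rw [Real.log_pow] at h2
    have h3 := Real.log_two_gt_d9
    push_cast at h2
    linarith
  have hy0 : 0 < y := by linarith
  -- the number of scales
  set I : ℕ := Nat.clog 2 (Y / U + 1) with hI
  have hI1 : Y / U + 1 ≤ 2 ^ I := Nat.le_pow_clog (by norm_num) _
  have hYU1 : 1 ≤ Y / U := by
    rw [Nat.one_le_div_iff (by omega)]
    have h1 : U ≤ U ^ 3 := Nat.le_self_pow (by norm_num) U
    omega
  have hIr : (I : ℝ) ≤ 3 * y := by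
    have h1 : 2 ^ (I - 1) < Y / U + 1 := Nat.pow_pred_clog_lt_self (by norm_num) (by omega)
    have h2 : 2 ^ (I - 1) ≤ Y := by
      have : Y / U ≤ Y := Nat.div_le_self _ _
      omega
    have h3 : ((2 : ℝ)) ^ (I - 1) ≤ Y := by exact_mod_cast h2
    have h4 := Real.log_le_log (by positivity) h3
    rw [Real.log_pow] at h4
    have h5 := Real.log_two_gt_d9
    have h6 : (I : ℝ) ≤ ((I - 1 : ℕ) : ℝ) + 1 := by
      have : I ≤ (I - 1) + 1 := by omega
      exact_mod_cast this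
    have h7 : (0 : ℝ) ≤ ((I - 1 : ℕ) : ℝ) := Nat.cast_nonneg _
    nlinarith
  -- Type II
  have hII := typeII_total P hP (A₀ := (A : ℝ)) (A₁ := 4 * A) (by linarith)
    (fun a ha => by exact_mod_cast (hPA a ha).1.le)
    (fun a ha => by exact_mod_cast (hPA a ha).2) (by positivity) (c := c) hc
    (X := X) (Y := Y) (U := U) (V := U) (B := A) (I := I) (by omega) hcX hX1 (by omega) hUpos
    (by
      have h1 : (A : ℝ) * (1 + 4 * A * P.card) ≤ A * (1 + 4 * A * (3 * A)) := by gcongr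
      have h2 : (A : ℝ) * (1 + 4 * A * (3 * A)) ≤ 13 * A ^ 3 := by
        have : (A : ℝ) ≤ A ^ 3 := by exact_mod_cast hAA3
        nlinarith
      have h3 : (20 * A ^ 3 : ℝ) ≤ U := by exact_mod_cast hUA
      have h4 : (0 : ℝ) ≤ A ^ 3 := by positivity
      linarith)
    (by
      have : A * A ≤ U := by omega
      exact_mod_cast this) hI1
  -- Type I
  have hI0 : ∀ a ∈ P, |disc a c X Y Λ| ≤ |disc a c X Y (large muR U * GG U)| +
      (U * Real.log (Y + 1) + (U * U : ℕ) * Real.log (Y + 1)) := by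
    intro a ha
    have h1 := disc_vonMangoldt_sub_le (hP a ha) (hc a ha) X Y U U
      (by
        have : U ≤ U ^ 3 := Nat.le_self_pow (by norm_num) U
        omega)
      (by
        have : U * U ≤ U ^ 3 := by
          calc U * U = U ^ 2 := by ring
            _ ≤ U ^ 3 := Nat.pow_le_pow_right (by omega) (by norm_num)
        omega)
    have h2 := abs_sub_abs_le_abs_sub (disc a c X Y Λ) (disc a c X Y (large muR U * GG U))
    linarith
  have hsum := Finset.sum_le_sum hI0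
  rw [Finset.sum_add_distrib, Finset.sum_const, nsmul_eq_mul] at hsum
  -- bounds for the parts
  have hUr : (20 : ℝ) * A ^ 3 ≤ U := by exact_mod_cast hUA
  have hUr1 : (1 : ℝ) ≤ U := by exact_mod_cast hUpos
  have hU3r : (U : ℝ) ^ 3 ≤ X := by exact_mod_cast hU1
  have hlog1 : Real.log ((Y : ℝ) + 1) ≤ 2 * y := by
    have h1 : (Y : ℝ) + 1 ≤ Y ^ 2 := by
      rw [hYr]
      nlinarith
    have h2 := Real.log_le_log (by positivity) h1
    rw [Real.log_pow] at h2
    push_cast at h2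
    exact h2
  have hlog1' : 0 ≤ Real.log ((Y : ℝ) + 1) := Real.log_nonneg (by rw [hYr]; linarith)
  have hpartI : (P.card : ℝ) * (U * Real.log (Y + 1) + (U * U : ℕ) * Real.log (Y + 1)) ≤
      X / t := by
    have h1 : (U : ℝ) * Real.log (Y + 1) + (U * U : ℕ) * Real.log (Y + 1) ≤
        2 * U ^ 2 * (2 * y) := by
      push_cast
      have e1 : (U : ℝ) ≤ U ^ 2 := by nlinarith
      have e2 : (U : ℝ) * Real.log (Y + 1) ≤ U ^ 2 * (2 * y) :=
        mul_le_mul e1 hlog1 hlog1' (by positivity)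
      have e3 : (U : ℝ) * U * Real.log (Y + 1) ≤ U ^ 2 * (2 * y) := by
        have : (U : ℝ) * U = U ^ 2 := by ring
        rw [this]
        exact mul_le_mul_of_nonneg_left hlog1 (by positivity)
      linarith
    have h2 : (P.card : ℝ) * (2 * U ^ 2 * (2 * y)) ≤ 3 * A * (2 * U ^ 2 * (2 * y)) := by gcongr
    have h3 : (20 * A ^ 3 : ℝ) * U ^ 2 ≤ X := by
      calc (20 * A ^ 3 : ℝ) * (U : ℝ) ^ 2 ≤ (U : ℝ) * (U : ℝ) ^ 2 := by gcongr
        _ = (U : ℝ) ^ 3 := by ring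
        _ ≤ X := hU3r
    have h4 : (3 * A * (2 * U ^ 2 * (2 * y)) : ℝ) * t ≤ X := by
      have e1 : y * t ≤ A ^ 2 := by
        rw [hAr]
        calc y * t ≤ t ^ 2 * t := by gcongr
          _ = t ^ 3 := by ring
          _ ≤ t ^ 20 := pow_le_pow_right₀ ht1 (by norm_num)
          _ = (t ^ 10) ^ 2 := by ring
      calc (3 * A * (2 * U ^ 2 * (2 * y)) : ℝ) * t = 12 * A * U ^ 2 * (y * t) := by ring
        _ ≤ 12 * A * U ^ 2 * A ^ 2 := by gcongr
        _ = (12 / 20) * ((20 * A ^ 3 : ℝ) * U ^ 2) := by ring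
        _ ≤ (12 / 20) * X := by gcongr
        _ ≤ X := by linarith
    have h5 : (3 * A * (2 * U ^ 2 * (2 * y)) : ℝ) ≤ X / t := by
      rw [le_div_iff₀ ht0]
      exact h4
    calc (P.card : ℝ) * (U * Real.log (Y + 1) + (U * U : ℕ) * Real.log (Y + 1))
        ≤ (P.card : ℝ) * (2 * U ^ 2 * (2 * y)) := mul_le_mul_of_nonneg_left h1 hcard0
      _ ≤ _ := h2
      _ ≤ _ := h5
  have hsqrt : Real.sqrt P.card ≤ 2 * t ^ 5 := by
    apply Real.sqrt_le_iff.2
    refine ⟨by positivity, ?_⟩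
    calc (P.card : ℝ) ≤ 3 * A := hcardr
      _ = 3 * t ^ 10 := by rw [hAr]
      _ ≤ (2 * t ^ 5) ^ 2 := by
        have : (0 : ℝ) ≤ t ^ 10 := by positivity
        nlinarith
  have hy2 : y ^ 2 ≤ t ^ 4 := by
    calc y ^ 2 ≤ (t ^ 2) ^ 2 := by gcongr
      _ = t ^ 4 := by ring
  have hpartII : (2 * A * I : ℕ) * (2 * Real.sqrt P.card * Y * y / (A * (A : ℝ))) ≤
      96 * X / t := by
    push_cast
    have hA0 : (0 : ℝ) < A := by linarith
    have e1 : (2 * (A : ℝ) * I) * (2 * Real.sqrt P.card * Y * y / (A * (A : ℝ))) =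
        4 * I * Real.sqrt P.card * Y * y / A := by
      rw [mul_div_assoc', div_eq_div_iff (by positivity) (by positivity)]
      ring
    rw [e1, hAr, div_le_div_iff₀ (by positivity) ht0]
    have e2 : 4 * (I : ℝ) * Real.sqrt P.card * Y * y * t ≤
        4 * (3 * y) * (2 * t ^ 5) * Y * y * t := by
      gcongr
    have e3 : 4 * (3 * y) * (2 * t ^ 5) * (Y : ℝ) * y * t = 24 * y ^ 2 * t ^ 6 * Y := by ring
    have e4 : 24 * y ^ 2 * t ^ 6 * (Y : ℝ) ≤ 24 * t ^ 4 * t ^ 6 * Y := by gcongr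
    rw [e3] at e2
    refine e2.trans (e4.trans (le_of_eq ?_))
    rw [hYr]
    ring
  have hΩ : 2 * Real.log (3 * Y) + P.card / ((A : ℝ) - 1) ≤ 3 * y := by
    have h1 : Real.log (3 * (Y : ℝ)) = Real.log 3 + y := by
      rw [Real.log_mul (by norm_num) (by rw [hYr]; positivity)]
    have h2 : Real.log 3 ≤ 1.5 := by
      have h3 : Real.log 3 ≤ Real.log 4 := Real.log_le_log (by norm_num) (by norm_num)
      have h4 : Real.log 4 = 2 * Real.log 2 := by
        rw [show (4 : ℝ) = 2 ^ 2 by norm_num, Real.log_pow]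
        norm_num
      have h5 := Real.log_two_lt_d9
      linarith
    have h3 : (P.card : ℝ) / ((A : ℝ) - 1) ≤ 6 := by
      rw [div_le_iff₀ (by linarith)]
      linarith
    rw [h1]
    linarith
  have hΩ0 : 0 ≤ 2 * Real.log (3 * Y) + P.card / ((A : ℝ) - 1) := by
    have h2 : 0 ≤ Real.log (3 * (Y : ℝ)) := Real.log_nonneg (by rw [hYr]; linarith)
    have h3 : 0 < (A : ℝ) - 1 := by linarith
    positivity
  have hYUr : ((Y / U : ℕ) : ℝ) ≤ Y / (20 * A ^ 3) := by
    have h1 : ((Y / U : ℕ) : ℝ) ≤ (Y : ℝ) / U := Nat.cast_div_le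
    refine h1.trans ?_
    apply div_le_div_of_nonneg_left (Nat.cast_nonneg _) (by positivity) hUr
  have hYUr1 : (1 : ℝ) ≤ ((Y / U : ℕ) : ℝ) := by exact_mod_cast hYU1
  have hlogYU : Real.log ((Y / U : ℕ) : ℝ) ≤ y := by
    apply Real.log_le_log (by linarith)
    exact_mod_cast Nat.div_le_self _ _
  have hlogYU0 : 0 ≤ Real.log ((Y / U : ℕ) : ℝ) := Real.log_nonneg hYUr1
  have hpartB : y * (2 * Real.log (3 * Y) + P.card / ((A : ℝ) - 1)) *
        (((X : ℝ) + Y) / A * (1 + Real.log ((Y / U : ℕ) : ℝ)) + 2 * ((Y / U : ℕ) : ℝ)) ≤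
      36 * X / t := by
    have h1 : ((X : ℝ) + Y) / A * (1 + Real.log ((Y / U : ℕ) : ℝ)) + 2 * ((Y / U : ℕ) : ℝ) ≤
        12 * y * X / A := by
      have e1 : ((X : ℝ) + Y) / A * (1 + Real.log ((Y / U : ℕ) : ℝ)) ≤ 5 * X / A * (1 + y) := by
        have : (X : ℝ) + Y = 5 * X := by rw [hYr]; ring
        rw [this]
        have h0 : (0 : ℝ) ≤ 5 * X / A := by positivity
        exact mul_le_mul_of_nonneg_left (by linarith) h0
      have e2 : 2 * ((Y / U : ℕ) : ℝ) ≤ X / A := by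
        have e3 : (Y : ℝ) / (20 * A ^ 3) ≤ X / A / 2 := by
          rw [hYr, div_div, div_le_div_iff₀ (by positivity) (by positivity)]
          have : (A : ℝ) ≤ A ^ 3 := by exact_mod_cast hAA3
          nlinarith
        linarith
      have e4 : 12 * y * X / A = 12 * y * (X / A) := by ring
      have e5 : 5 * X / A * (1 + y) = (5 + 5 * y) * ((X : ℝ) / A) := by ring
      have e6 : (0 : ℝ) ≤ X / A := by positivity
      rw [e4]
      rw [e5] at e1
      nlinarith
    have h2 : y * (2 * Real.log (3 * Y) + P.card / ((A : ℝ) - 1)) ≤ y * (3 * y) :=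
      mul_le_mul_of_nonneg_left hΩ hy0.le
    have h3 : 0 ≤ ((X : ℝ) + Y) / A * (1 + Real.log ((Y / U : ℕ) : ℝ)) +
        2 * ((Y / U : ℕ) : ℝ) := by positivity
    refine (mul_le_mul h2 h1 h3 (by positivity)).trans ?_
    have e1 : y * (3 * y) * (12 * y * X / A) = 36 * y ^ 3 * X / A := by ring
    rw [e1, hAr, div_le_div_iff₀ (by positivity) ht0]
    have e2 : y ^ 3 ≤ t ^ 6 := by
      calc y ^ 3 ≤ (t ^ 2) ^ 3 := by gcongr
        _ = t ^ 6 := by ring
    calc 36 * y ^ 3 * X * t ≤ 36 * t ^ 6 * X * t := by gcongr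
      _ = 36 * X * t ^ 7 := by ring
      _ ≤ 36 * X * t ^ 10 := by
        have : t ^ 7 ≤ t ^ 10 := pow_le_pow_right₀ ht1 (by norm_num)
        gcongr
  have hfinal : ∑ a ∈ P, |disc a c X Y Λ| ≤ 96 * X / t + 36 * X / t + X / t := by
    linarith
  refine hfinal.trans ?_
  have e1 : 96 * (X : ℝ) / t + 36 * X / t + X / t = 133 * X / t := by ring
  rw [e1]
  apply div_le_div_of_nonneg_right _ ht0.le
  linarith

end

end Pool.Agent.Lib_helper72.AP
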