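import Mathlib
import Pool.Agent.Lib_helper72.AP.ErrBound

set_option autoImplicit false

/-!
Lower bound for the number of primes in a fixed residue class, on average over prime moduli.
-/

namespace Pool.Agent.Lib_helper72.AP

open Finset ArithmeticFunction

noncomputable section

/-- Primes in `(X, 4X]` in the residue class of `c` modulo `a`. -/
def prC (X : ℕ) (c : ℤ) (a : ℕ) : Finset ℕ :=
  (Ioc X (4 * X)).filter (fun p => p.Prime ∧ ((p : ZMod a)) = (c : ZMod a))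

lemma theta_sub (X : ℕ) :
    ∑ p ∈ (Ioc X (4 * X)).filter Nat.Prime, Real.log p =
      Chebyshev.theta ((4 * X : ℕ) : ℝ) - Chebyshev.theta (X : ℝ) := by
  have h1 : Chebyshev.theta ((4 * X : ℕ) : ℝ) =
      ∑ p ∈ (Ioc 0 (4 * X)).filter Nat.Prime, Real.log p := by
    rw [Chebyshev.theta, Nat.floor_natCast]
  have h2 : Chebyshev.theta (X : ℝ) = ∑ p ∈ (Ioc 0 X).filter Nat.Prime, Real.log p := by
    rw [Chebyshev.theta, Nat.floor_natCast]
  rw [h1, h2]
  have h3 : (Ioc 0 (4 * X)).filter Nat.Prime =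
      (Ioc 0 X).filter Nat.Prime ∪ (Ioc X (4 * X)).filter Nat.Prime := by
    rw [← Finset.filter_union, Finset.Ioc_union_Ioc_eq_Ioc (Nat.zero_le _) (by omega)]
  rw [h3, Finset.sum_union]
  · ring
  · apply Finset.disjoint_filter_filter
    exact Finset.Ioc_disjoint_Ioc_of_le le_rfl

lemma disc_lower {a : ℕ} (ha : a.Prime) {c : ℤ} {X : ℕ} (haX : a ≤ X) :
    (Chebyshev.theta ((4 * X : ℕ) : ℝ) - Chebyshev.theta (X : ℝ)) / ((a : ℝ) - 1)
      - |disc a c X (4 * X) Λ| ≤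
      ∑ p ∈ prC X c a, Real.log p +
        ∑ n ∈ (Ioc X (4 * X)).filter (fun n => ¬ n.Prime),
          (if ((a : ℕ) : ℤ) ∣ (n : ℤ) - c then Λ n else 0) := by
  classical
  have ha1 : (0 : ℝ) < (a : ℝ) - 1 := by
    have : (1 : ℝ) < a := by exact_mod_cast ha.one_lt
    linarith
  -- expansion of the discrepancy
  have h1 : disc a c X (4 * X) Λ =
      ∑ n ∈ Ioc X (4 * X), (if (n : ZMod a) = (c : ZMod a) then Λ n else 0) -
        (∑ n ∈ Ioc X (4 * X), (if a ∣ n then 0 else Λ n)) / ((a : ℝ) - 1) := by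
    rw [disc, Finset.sum_div, ← Finset.sum_sub_distrib]
    apply Finset.sum_congr rfl
    intro n _
    rw [wt]
    by_cases h1 : (n : ZMod a) = (c : ZMod a) <;> by_cases h2 : a ∣ n <;>
      simp only [h1, h2, if_true, if_false] <;> ring
  -- the mean
  have h2 : Chebyshev.theta ((4 * X : ℕ) : ℝ) - Chebyshev.theta (X : ℝ) ≤
      ∑ n ∈ Ioc X (4 * X), (if a ∣ n then 0 else Λ n) := by
    rw [← theta_sub, Finset.sum_filter]
    apply Finset.sum_le_sum
    intro n hn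
    rw [mem_Ioc] at hn
    split_ifs with h3 h4
    · exfalso
      rcases (Nat.dvd_prime h3).1 h4 with h5 | h5
      · exact ha.one_lt.ne' h5
      · omega
    · rw [vonMangoldt_apply_prime h3]
    · exact le_rfl
    · exact vonMangoldt_nonneg
  -- the class
  have h3 : ∑ n ∈ Ioc X (4 * X), (if (n : ZMod a) = (c : ZMod a) then Λ n else 0) ≤
      ∑ p ∈ prC X c a, Real.log p +
        ∑ n ∈ (Ioc X (4 * X)).filter (fun n => ¬ n.Prime),
          (if ((a : ℕ) : ℤ) ∣ (n : ℤ) - c then Λ n else 0) := by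
    rw [prC, Finset.sum_filter, Finset.sum_filter, ← Finset.sum_add_distrib]
    apply Finset.sum_le_sum
    intro n _
    by_cases h4 : (n : ZMod a) = (c : ZMod a)
    · have h5 : ((a : ℕ) : ℤ) ∣ (n : ℤ) - c := by
        rw [← ZMod.intCast_zmod_eq_zero_iff_dvd]
        push_cast
        rw [h4, sub_self]
      by_cases h6 : n.Prime
      · simp [h4, h6, vonMangoldt_apply_prime h6]
      · simp [h4, h5, h6]
    · rw [if_neg h4]
      have e1 : (0 : ℝ) ≤ if n.Prime ∧ (n : ZMod a) = (c : ZMod a) then Real.log n else 0 := by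
        split_ifs
        · exact Real.log_natCast_nonneg n
        · exact le_rfl
      have e2 : (0 : ℝ) ≤ if ¬ n.Prime then
          (if ((a : ℕ) : ℤ) ∣ (n : ℤ) - c then Λ n else 0) else 0 := by
        split_ifs <;> first | exact vonMangoldt_nonneg | exact le_rfl
      linarith
  have h4 := neg_abs_le (disc a c X (4 * X) Λ)
  have h5 : (Chebyshev.theta ((4 * X : ℕ) : ℝ) - Chebyshev.theta (X : ℝ)) / ((a : ℝ) - 1) ≤
      (∑ n ∈ Ioc X (4 * X), (if a ∣ n then 0 else Λ n)) / ((a : ℝ) - 1) :=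
    div_le_div_of_nonneg_right h2 ha1.le
  linarith

/-- The contribution of proper prime powers. -/
lemma powers_le {X : ℕ} (hX1 : 1 ≤ X) {P : Finset ℕ} (hP : ∀ a ∈ P, a.Prime) {c : ℤ}
    (hcX : |c| ≤ X) :
    ∑ a ∈ P, ∑ n ∈ (Ioc X (4 * X)).filter (fun n => ¬ n.Prime),
          (if ((a : ℕ) : ℤ) ∣ (n : ℤ) - c then Λ n else 0) ≤
      2 * Real.log (5 * X) * (4 * Real.sqrt X * Real.log ((4 * X : ℕ) : ℝ)) := by
  classical
  have hXr : (1 : ℝ) ≤ X := by exact_mod_cast hX1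
  rw [Finset.sum_comm]
  have h1 : ∀ n ∈ (Ioc X (4 * X)).filter (fun n => ¬ n.Prime),
      ∑ a ∈ P, (if ((a : ℕ) : ℤ) ∣ (n : ℤ) - c then Λ n else 0) ≤
        2 * Real.log (5 * X) * Λ n := by
    intro n hn
    rw [mem_filter, mem_Ioc] at hn
    have hz : (n : ℤ) - c ≠ 0 := by
      have : c ≤ X := (le_abs_self c).trans hcX
      have h2 : (X : ℤ) < n := by exact_mod_cast hn.1.1
      omega
    have h2 := card_prime_dvd_le P hP hz
    have h3 : Real.log |((((n : ℤ) - c : ℤ)) : ℝ)| ≤ Real.log (5 * X) := by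
      apply Real.log_le_log
      · rw [abs_pos]
        exact_mod_cast hz
      · push_cast
        have e1 : |(c : ℝ)| ≤ X := by exact_mod_cast hcX
        have e2 : (n : ℝ) ≤ 4 * X := by exact_mod_cast hn.1.2
        have e3 : (0 : ℝ) ≤ n := Nat.cast_nonneg _
        rw [abs_le] at e1 ⊢
        constructor <;> linarith
    have h5 : (1 : ℝ) / 2 ≤ Real.log 2 := by
      have := Real.log_two_gt_d9
      linarith
    have h6 : (0 : ℝ) ≤ ((P.filter (fun a => ((a : ℕ) : ℤ) ∣ (n : ℤ) - c)).card : ℝ) :=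
      Nat.cast_nonneg _
    have h7 : ((P.filter (fun a => ((a : ℕ) : ℤ) ∣ (n : ℤ) - c)).card : ℝ) ≤
        2 * Real.log (5 * X) := by nlinarith
    rw [← Finset.sum_filter, Finset.sum_const, nsmul_eq_mul]
    exact mul_le_mul_of_nonneg_right h7 vonMangoldt_nonneg
  refine (Finset.sum_le_sum h1).trans ?_
  rw [← Finset.mul_sum]
  have hlog0 : 0 ≤ Real.log (5 * (X : ℝ)) := Real.log_nonneg (by linarith)
  apply mul_le_mul_of_nonneg_left _ (by positivity)
  have h2 := Chebyshev.psi_sub_theta_le (x := ((4 * X : ℕ) : ℝ)) (by push_cast; linarith)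
  have h3 := Chebyshev.psi_sub_theta_eq_sum_not_prime (x := ((4 * X : ℕ) : ℝ))
  rw [Nat.floor_natCast] at h3
  have h4 : ∑ n ∈ (Ioc X (4 * X)).filter (fun n => ¬ n.Prime), Λ n ≤
      ∑ n ∈ (Ioc 0 (4 * X)).filter (fun n => ¬ n.Prime), Λ n := by
    apply Finset.sum_le_sum_of_subset_of_nonneg
    · apply Finset.filter_subset_filter
      exact Finset.Ioc_subset_Ioc_left (Nat.zero_le _)
    · intro n _ _
      exact vonMangoldt_nonneg
  rw [← h3] at h4
  refine h4.trans (h2.trans (le_of_eq ?_))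
  have h5 : Real.sqrt ((4 * X : ℕ) : ℝ) = 2 * Real.sqrt X := by
    push_cast
    rw [Real.sqrt_mul (by norm_num), show (4 : ℝ) = 2 ^ 2 by norm_num,
      Real.sqrt_sq (by norm_num)]
  rw [h5]
  ring

/-- Chebyshev in the interval `(X, 4X]`. -/
lemma theta_diff_ge {X : ℕ} (hX1 : 1 ≤ X) {t : ℝ} (ht1 : 1 ≤ t)
    (hy : Real.log ((4 * X : ℕ) : ℝ) ≤ t ^ 2) (hsq : 80 * t ^ 2 ≤ Real.sqrt X) :
    (X : ℝ) ≤ Chebyshev.theta ((4 * X : ℕ) : ℝ) - Chebyshev.theta (X : ℝ) := by
  have hXr : (1 : ℝ) ≤ X := by exact_mod_cast hX1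
  have h1 := Chebyshev.theta_ge (4 * X)
  have h2 := Chebyshev.theta_le_log4_mul_x (x := (X : ℝ)) (by linarith)
  have h3 : Real.sqrt ((4 * X : ℕ) : ℝ) = 2 * Real.sqrt X := by
    push_cast
    rw [Real.sqrt_mul (by norm_num), show (4 : ℝ) = 2 ^ 2 by norm_num,
      Real.sqrt_sq (by norm_num)]
  have h4 : Real.log 4 = 2 * Real.log 2 := by
    rw [show (4 : ℝ) = 2 ^ 2 by norm_num, Real.log_pow]
    norm_num
  set y : ℝ := Real.log ((4 * X : ℕ) : ℝ) with hydef
  have hy0 : 0 ≤ y := Real.log_nonneg (by push_cast; linarith)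
  have h5 : Real.log (((4 * X : ℕ) : ℝ) + 1) ≤ 2 * y := by
    have e1 : ((4 * X : ℕ) : ℝ) + 1 ≤ ((4 * X : ℕ) : ℝ) ^ 2 := by
      push_cast
      nlinarith
    have e2 := Real.log_le_log (by positivity) e1
    rw [Real.log_pow] at e2
    push_cast at e2 ⊢
    rw [hydef]
    push_cast
    exact e2
  rw [h3] at h1
  rw [h4] at h2
  have h6 := Real.log_two_gt_d9
  have hs0 : 0 ≤ Real.sqrt X := Real.sqrt_nonneg _
  have hs1 : 1 ≤ Real.sqrt X := by
    nlinarith [pow_le_pow_right₀ ht1 (show 0 ≤ 2 by norm_num)]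
  have hss : Real.sqrt X * Real.sqrt X = X := Real.mul_self_sqrt (by linarith)
  have h7 : 80 * y ≤ Real.sqrt X := by linarith
  have h8 : 80 * (Real.sqrt X * y) ≤ X := by
    calc 80 * (Real.sqrt X * y) = Real.sqrt X * (80 * y) := by ring
      _ ≤ Real.sqrt X * Real.sqrt X := mul_le_mul_of_nonneg_left h7 hs0
      _ = X := hss
  have h9 : 80 * y ≤ X := by nlinarith
  have h10 : ((4 * X : ℕ) : ℝ) * Real.log 2 = 4 * (X * Real.log 2) := by push_cast; ring
  rw [h10] at h1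
  have h11 : (0.69 : ℝ) * X ≤ X * Real.log 2 := by nlinarith
  linarith

/-- The first moment, weighted with logarithms. -/
theorem first_moment_log {A X : ℕ} (hA : 2 ≤ A) (hX : (20 * A ^ 3) ^ 3 ≤ X)
    {t : ℝ} (ht1 : 1 ≤ t) (htA : t ^ 10 = A) (hy : Real.log ((4 * X : ℕ) : ℝ) ≤ t ^ 2)
    {P : Finset ℕ} (hP : ∀ a ∈ P, a.Prime) (hPA : ∀ a ∈ P, A < a ∧ a ≤ 4 * A) {c : ℤ}
    (hcX : |c| ≤ X) (hc : ∀ a ∈ P, ((c : ℤ) : ZMod a) ≠ 0) :
    P.card * (X / (4 * A : ℝ)) - 201 * X / t ≤ ∑ a ∈ P, ∑ p ∈ prC X c a, Real.log p := by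
  classical
  have ht0 : (0 : ℝ) < t := by linarith
  have hAr : (A : ℝ) = t ^ 10 := htA.symm
  have hA2r : (2 : ℝ) ≤ A := by exact_mod_cast hA
  have hAA3 : A ≤ A ^ 3 := Nat.le_self_pow (by norm_num) A
  have h4A : 4 * A ≤ X := by
    have h1 : 20 * A ^ 3 ≤ (20 * A ^ 3) ^ 3 := Nat.le_self_pow (by norm_num) _
    omega
  have hX1 : 1 ≤ X := by omega
  have hXr : (1 : ℝ) ≤ X := by exact_mod_cast hX1
  have hXbig : (8000 : ℝ) * t ^ 90 ≤ X := by
    have h1 : ((20 * A ^ 3) ^ 3 : ℝ) ≤ X := by exact_mod_cast hX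
    rw [hAr] at h1
    calc (8000 : ℝ) * t ^ 90 = (20 * (t ^ 10) ^ 3) ^ 3 := by ring
      _ ≤ (X : ℝ) := h1
  have hsq : 80 * t ^ 45 ≤ Real.sqrt X := by
    apply Real.le_sqrt_of_sq_le
    calc (80 * t ^ 45) ^ 2 = 6400 * t ^ 90 := by ring
      _ ≤ 8000 * t ^ 90 := by
        have : (0 : ℝ) ≤ t ^ 90 := by positivity
        linarith
      _ ≤ X := hXbig
  have hθ := theta_diff_ge hX1 ht1 hy (le_trans (by
    have : t ^ 2 ≤ t ^ 45 := pow_le_pow_right₀ ht1 (by norm_num)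
    linarith) hsq)
  have hsum := Finset.sum_le_sum (fun a (ha : a ∈ P) =>
    disc_lower (hP a ha) (c := c) (X := X) ((hPA a ha).2.trans h4A))
  rw [Finset.sum_sub_distrib, Finset.sum_add_distrib] at hsum
  have herr := err_bound hA hX ht1 htA hy hP hPA hcX hc
  have hpow := powers_le hX1 hP hcX
  -- the main term
  have hmain : P.card * (X / (4 * A : ℝ)) ≤
      ∑ a ∈ P, (Chebyshev.theta ((4 * X : ℕ) : ℝ) - Chebyshev.theta (X : ℝ)) / ((a : ℝ) - 1) := by
    rw [← nsmul_eq_mul, ← Finset.sum_const]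
    apply Finset.sum_le_sum
    intro a ha
    have h1 : (a : ℝ) ≤ 4 * A := by exact_mod_cast (hPA a ha).2
    have h2 : (1 : ℝ) < a := by exact_mod_cast (hP a ha).one_lt
    calc X / (4 * A : ℝ) ≤ X / ((a : ℝ) - 1) := by
          apply div_le_div_of_nonneg_left (by linarith) (by linarith) (by linarith)
      _ ≤ _ := div_le_div_of_nonneg_right hθ (by linarith)
  -- the powers
  have hpow2 : 2 * Real.log (5 * X) * (4 * Real.sqrt X * Real.log ((4 * X : ℕ) : ℝ)) ≤ X / t := by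
    set y : ℝ := Real.log ((4 * X : ℕ) : ℝ) with hydef
    have hy0 : 0 ≤ y := Real.log_nonneg (by push_cast; linarith)
    have h5 : Real.log (5 * (X : ℝ)) ≤ 2 * y := by
      have e1 : 5 * (X : ℝ) ≤ ((4 * X : ℕ) : ℝ) ^ 2 := by
        push_cast
        nlinarith
      have e2 := Real.log_le_log (by positivity) e1
      rw [Real.log_pow] at e2
      push_cast at e2 ⊢
      rw [hydef]
      push_cast
      exact e2
    have hs0 : 0 ≤ Real.sqrt X := Real.sqrt_nonneg _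
    have hss : Real.sqrt X * Real.sqrt X = X := Real.mul_self_sqrt (by linarith)
    have e1 : 2 * Real.log (5 * X) * (4 * Real.sqrt X * y) ≤ 16 * (y * y) * Real.sqrt X := by
      have : 2 * Real.log (5 * X) * (4 * Real.sqrt X * y) ≤
          2 * (2 * y) * (4 * Real.sqrt X * y) := by gcongr
      refine this.trans (le_of_eq ?_)
      ring
    have e2 : 16 * (y * y) * Real.sqrt X ≤ 16 * (t ^ 2 * t ^ 2) * Real.sqrt X := by gcongr
    refine e1.trans (e2.trans ?_)
    rw [le_div_iff₀ ht0]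
    calc 16 * (t ^ 2 * t ^ 2) * Real.sqrt X * t = 16 * t ^ 5 * Real.sqrt X := by ring
      _ ≤ 80 * t ^ 45 * Real.sqrt X := by
        have h1 : t ^ 5 ≤ t ^ 45 := pow_le_pow_right₀ ht1 (by norm_num)
        have h2 : (0 : ℝ) ≤ t ^ 45 := by positivity
        apply mul_le_mul_of_nonneg_right _ hs0
        linarith
      _ ≤ Real.sqrt X * Real.sqrt X := mul_le_mul_of_nonneg_right hsq hs0
      _ = X := hss
  have e3 : 201 * (X : ℝ) / t = 200 * X / t + X / t := by ring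
  rw [e3]
  linarith

end

end Pool.Agent.Lib_helper72.AP
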