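import Mathlib
import Pool.Agent.Lib_helper72.AP.SumLower

set_option autoImplicit false

/-!
Further properties of the singular factor `cfac h = 2 ∑_{e ∣ h} 1/e`: submultiplicativity and
higher moments.
-/

namespace Pool.Agent.Lib_helper72.AP

open Finset

noncomputable section

lemma cfac_ge_two {h : ℕ} (hh : h ≠ 0) : 2 ≤ cfac h := by
  have h1 : (1 : ℝ) ≤ ∑ e ∈ h.divisors, (1 : ℝ) / e := by
    have := Finset.single_le_sum (f := fun e : ℕ => (1 : ℝ) / e) (s := h.divisors)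
      (fun i _ => by positivity) (Nat.one_mem_divisors.2 hh)
    simpa using this
  rw [cfac]
  linarith

lemma cfac_nonneg (h : ℕ) : 0 ≤ cfac h := by
  rw [cfac]
  have : (0 : ℝ) ≤ ∑ e ∈ h.divisors, (1 : ℝ) / e := Finset.sum_nonneg (fun i _ => by positivity)
  linarith

lemma cfac_mul_le (m n : ℕ) : cfac (m * n) ≤ cfac m * cfac n / 2 := by
  classical
  have key : ∑ e ∈ (m * n).divisors, (1 : ℝ) / e ≤
      (∑ e ∈ m.divisors, (1 : ℝ) / e) * ∑ e ∈ n.divisors, (1 : ℝ) / e := by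
    rw [Finset.sum_mul_sum, ← Finset.sum_product', Nat.divisors_mul, Finset.mul_def]
    have h1 : ∑ p ∈ m.divisors ×ˢ n.divisors, (1 : ℝ) / (p.1 : ℝ) * (1 / (p.2 : ℝ)) =
        ∑ e ∈ (m.divisors ×ˢ n.divisors).image (fun p => p.1 * p.2),
          ∑ p ∈ (m.divisors ×ˢ n.divisors).filter (fun p => p.1 * p.2 = e),
            (1 : ℝ) / (p.1 : ℝ) * (1 / (p.2 : ℝ)) := by
      rw [Finset.sum_fiberwise_of_maps_to]
      intro p hp
      exact Finset.mem_image_of_mem (fun p : ℕ × ℕ => p.1 * p.2) hp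
    rw [h1]
    apply Finset.sum_le_sum
    intro e he
    rw [mem_image] at he
    obtain ⟨p, hp, hpe⟩ := he
    have h2 := Finset.single_le_sum (f := fun p : ℕ × ℕ => (1 : ℝ) / (p.1 : ℝ) * (1 / (p.2 : ℝ)))
      (s := (m.divisors ×ˢ n.divisors).filter (fun p => p.1 * p.2 = e))
      (fun i _ => by positivity) (mem_filter.2 ⟨hp, hpe⟩)
    refine le_trans (le_of_eq ?_) h2
    rw [← hpe]
    push_cast
    rw [one_div_mul_one_div]
  rw [cfac, cfac, cfac]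
  nlinarith

lemma cfac_prime_le {p : ℕ} (hp : p.Prime) : cfac p ≤ 3 := by
  rw [cfac, Nat.Prime.sum_divisors hp]
  have h2 : (2 : ℝ) ≤ p := by exact_mod_cast hp.two_le
  have h1 : (1 : ℝ) / p ≤ 1 / 2 := by
    apply one_div_le_one_div_of_le <;> linarith
  have h3 : (1 : ℝ) / ((1 : ℕ) : ℝ) = 1 := by norm_num
  rw [h3]
  linarith

/-- A convergent series. -/
def ZZ : ℝ := ∑' n : ℕ, 1 / (n : ℝ) ^ (5 / 4 : ℝ)

lemma sum_le_ZZ (s : Finset ℕ) : ∑ e ∈ s, 1 / (e : ℝ) ^ (5 / 4 : ℝ) ≤ ZZ := by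
  have hs : Summable (fun n : ℕ => 1 / (n : ℝ) ^ (5 / 4 : ℝ)) :=
    Real.summable_one_div_nat_rpow.2 (by norm_num)
  exact hs.sum_le_tsum s (fun i _ => by positivity)

lemma ZZ_ge_one : 1 ≤ ZZ := by
  have := sum_le_ZZ {1}
  simpa using this

lemma cs_aux (s : Finset ℕ) (hs : ∀ e ∈ s, e ≠ 0) (a : ℝ) :
    (∑ e ∈ s, (e : ℝ) ^ (-a)) ^ 2 ≤ ZZ * ∑ e ∈ s, (e : ℝ) ^ (-(2 * a - 5 / 4)) := by
  have h1 : ∑ e ∈ s, (e : ℝ) ^ (-a) =
      ∑ e ∈ s, (e : ℝ) ^ (-(5 / 8 : ℝ)) * (e : ℝ) ^ (-(a - 5 / 8)) := by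
    apply Finset.sum_congr rfl
    intro e he
    have he0 : (0 : ℝ) < e := by exact_mod_cast Nat.pos_of_ne_zero (hs e he)
    rw [← Real.rpow_add he0]
    congr 1
    ring
  rw [h1]
  refine (Finset.sum_mul_sq_le_sq_mul_sq _ _ _).trans ?_
  have h2 : ∑ e ∈ s, ((e : ℝ) ^ (-(5 / 8 : ℝ))) ^ 2 ≤ ZZ := by
    refine le_trans (le_of_eq ?_) (sum_le_ZZ s)
    apply Finset.sum_congr rfl
    intro e he
    have he0 : (0 : ℝ) < e := by exact_mod_cast Nat.pos_of_ne_zero (hs e he)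
    rw [← Real.rpow_natCast, ← Real.rpow_mul he0.le, one_div, ← Real.rpow_neg he0.le]
    congr 1
    norm_num
  have h3 : ∑ e ∈ s, ((e : ℝ) ^ (-(a - 5 / 8))) ^ 2 = ∑ e ∈ s, (e : ℝ) ^ (-(2 * a - 5 / 4)) := by
    apply Finset.sum_congr rfl
    intro e he
    have he0 : (0 : ℝ) < e := by exact_mod_cast Nat.pos_of_ne_zero (hs e he)
    rw [← Real.rpow_natCast, ← Real.rpow_mul he0.le]
    congr 1
    push_cast
    ring
  rw [h3]
  apply mul_le_mul_of_nonneg_right h2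
  exact Finset.sum_nonneg (fun i _ => by positivity)

lemma cfac_eq_rpow (h : ℕ) : cfac h = 2 * ∑ e ∈ h.divisors, (e : ℝ) ^ (-(1 : ℝ)) := by
  rw [cfac]
  congr 1
  apply Finset.sum_congr rfl
  intro e _
  rw [Real.rpow_neg_one, one_div]

lemma cfac_sq_le (h : ℕ) :
    cfac h ^ 2 ≤ 4 * ZZ * ∑ e ∈ h.divisors, (e : ℝ) ^ (-(3 / 4 : ℝ)) := by
  have h1 := cs_aux h.divisors (fun e he => (Nat.pos_of_mem_divisors he).ne') 1
  rw [show (2 * (1 : ℝ) - 5 / 4) = 3 / 4 by norm_num] at h1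
  rw [cfac_eq_rpow]
  nlinarith

lemma cfac_fourth_le (h : ℕ) :
    cfac h ^ 4 ≤ 16 * ZZ ^ 3 * ∑ e ∈ h.divisors, (e : ℝ) ^ (-(1 / 4 : ℝ)) := by
  have h1 := cs_aux h.divisors (fun e he => (Nat.pos_of_mem_divisors he).ne') (3 / 4)
  rw [show (2 * (3 / 4 : ℝ) - 5 / 4) = 1 / 4 by norm_num] at h1
  have h2 := cfac_sq_le h
  have h3 : cfac h ^ 4 = (cfac h ^ 2) ^ 2 := by ring
  rw [h3]
  have h4 : (0 : ℝ) ≤ ZZ := by linarith [ZZ_ge_one]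
  calc (cfac h ^ 2) ^ 2 ≤ (4 * ZZ * ∑ e ∈ h.divisors, (e : ℝ) ^ (-(3 / 4 : ℝ))) ^ 2 :=
        pow_le_pow_left₀ (by positivity) h2 2
    _ = 16 * ZZ ^ 2 * (∑ e ∈ h.divisors, (e : ℝ) ^ (-(3 / 4 : ℝ))) ^ 2 := by ring
    _ ≤ 16 * ZZ ^ 2 * (ZZ * ∑ e ∈ h.divisors, (e : ℝ) ^ (-(1 / 4 : ℝ))) :=
        mul_le_mul_of_nonneg_left h1 (by positivity)
    _ = _ := by ring

/-- Divisor sums on average. -/
lemma sum_divisors_rpow_le (K : ℕ) :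
    ∑ h ∈ Icc 1 K, ∑ e ∈ h.divisors, (e : ℝ) ^ (-(1 / 4 : ℝ)) ≤ ZZ * K := by
  classical
  have h1 : ∀ h ∈ Icc 1 K, ∑ e ∈ h.divisors, (e : ℝ) ^ (-(1 / 4 : ℝ))
      = ∑ e ∈ Icc 1 K, if e ∣ h then (e : ℝ) ^ (-(1 / 4 : ℝ)) else 0 := by
    intro h hh
    rw [mem_Icc] at hh
    rw [← Finset.sum_filter]
    apply Finset.sum_congr _ (fun _ _ => rfl)
    ext e
    simp only [Nat.mem_divisors, mem_filter, mem_Icc]
    constructor
    · rintro ⟨h2, h3⟩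
      exact ⟨⟨Nat.pos_of_dvd_of_pos h2 (by omega), (Nat.le_of_dvd (by omega) h2).trans hh.2⟩, h2⟩
    · rintro ⟨h2, h3⟩
      exact ⟨h3, by omega⟩
  rw [Finset.sum_congr rfl h1, Finset.sum_comm]
  have h2 : ∀ e ∈ Icc 1 K, ∑ h ∈ Icc 1 K, (if e ∣ h then (e : ℝ) ^ (-(1 / 4 : ℝ)) else 0) ≤
      K * (1 / (e : ℝ) ^ (5 / 4 : ℝ)) := by
    intro e he
    rw [mem_Icc] at he
    have he0 : (0 : ℝ) < e := by exact_mod_cast he.1
    rw [← Finset.sum_filter, Finset.sum_const, nsmul_eq_mul]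
    have h3 : ((Icc 1 K).filter (fun h => e ∣ h)).card = K / e := by
      have := Nat.card_multiples K e
      rw [← Nat.Ioc_filter_dvd_card_eq_div]
      rfl
    rw [h3]
    have h4 : ((K / e : ℕ) : ℝ) ≤ K / e := Nat.cast_div_le
    calc ((K / e : ℕ) : ℝ) * (e : ℝ) ^ (-(1 / 4 : ℝ)) ≤ (K / e : ℝ) * (e : ℝ) ^ (-(1 / 4 : ℝ)) :=
          mul_le_mul_of_nonneg_right h4 (by positivity)
      _ = K * (1 / (e : ℝ) ^ (5 / 4 : ℝ)) := by
        have h5 : (e : ℝ) ^ (-(1 / 4 : ℝ)) / e = 1 / (e : ℝ) ^ (5 / 4 : ℝ) := by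
          rw [div_eq_div_iff he0.ne' (by positivity), one_mul, ← Real.rpow_add he0]
          norm_num
        rw [← h5]
        ring
  refine (Finset.sum_le_sum h2).trans ?_
  rw [← Finset.mul_sum, mul_comm]
  exact mul_le_mul_of_nonneg_right (sum_le_ZZ _) (Nat.cast_nonneg _)

/-- The fourth moment of `cfac`. -/
theorem sum_cfac_fourth_le (K : ℕ) :
    ∑ h ∈ Icc 1 K, cfac h ^ 4 ≤ 16 * ZZ ^ 4 * K := by
  have h0 : (0 : ℝ) ≤ ZZ := by linarith [ZZ_ge_one]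
  calc ∑ h ∈ Icc 1 K, cfac h ^ 4 ≤
        ∑ h ∈ Icc 1 K, 16 * ZZ ^ 3 * ∑ e ∈ h.divisors, (e : ℝ) ^ (-(1 / 4 : ℝ)) :=
        Finset.sum_le_sum (fun h _ => cfac_fourth_le h)
    _ = 16 * ZZ ^ 3 * ∑ h ∈ Icc 1 K, ∑ e ∈ h.divisors, (e : ℝ) ^ (-(1 / 4 : ℝ)) := by
        rw [Finset.mul_sum]
    _ ≤ 16 * ZZ ^ 3 * (ZZ * K) :=
        mul_le_mul_of_nonneg_left (sum_divisors_rpow_le K) (by positivity)
    _ = _ := by ring

end

end Pool.Agent.Lib_helper72.AP
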