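import Mathlib

set_option autoImplicit false

/-!
A Selberg upper bound with crude control of the error term, for a `BoundingSieve`.
-/

namespace Pool.Agent.Lib_helper72.AP

open Finset ArithmeticFunction BoundingSieve
open scoped ArithmeticFunction.Moebius

noncomputable section

variable (s : BoundingSieve) (z : ℕ)

/-- Divisors of the sifting product up to `z`. -/
def selD : Finset ℕ := s.prodPrimes.divisors.filter (fun l => l ≤ z)

/-- The sum of the Selberg terms up to `z`. -/
def selS : ℝ := ∑ l ∈ selD s z, s.selbergTerms l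

/-- Selberg weights. -/
def selW (d : ℕ) : ℝ :=
  (μ d : ℝ) / (s.nu d * selS s z) * ∑ n ∈ (selD s z).filter (fun n => d ∣ n), s.selbergTerms n

variable {s z}

lemma mem_selD {l : ℕ} : l ∈ selD s z ↔ l ∣ s.prodPrimes ∧ l ≤ z := by
  simp [selD, prodPrimes_ne_zero]

lemma selbergTerms_nonneg_of_mem {l : ℕ} (hl : l ∈ selD s z) : 0 ≤ s.selbergTerms l :=
  (selbergTerms_pos (mem_selD.1 hl).1).le

lemma selS_pos (hz : 1 ≤ z) : 0 < selS s z := by
  have h1 : (1 : ℕ) ∈ selD s z := mem_selD.2 ⟨one_dvd _, hz⟩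
  calc (0 : ℝ) < s.selbergTerms 1 := selbergTerms_pos (one_dvd _)
    _ ≤ selS s z := Finset.single_le_sum (f := fun l => s.selbergTerms l)
        (fun l hl => selbergTerms_nonneg_of_mem hl) h1

lemma selW_one (hz : 1 ≤ z) : selW s z 1 = 1 := by
  have h := (selS_pos (s := s) hz).ne'
  have h1 : s.nu 1 = 1 := s.nu_mult.1
  simp only [selW, h1, one_mul, moebius_apply_one, Int.cast_one, isUnit_one, IsUnit.dvd,
    filter_true]
  rw [show ∑ x ∈ selD s z, s.selbergTerms x = selS s z from rfl]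
  field_simp

lemma selW_eq_zero {d : ℕ} (hd : ¬ d ≤ z) : selW s z d = 0 := by
  have : (selD s z).filter (fun n => d ∣ n) = ∅ := by
    apply Finset.filter_eq_empty_iff.2
    intro n hn hdn
    have hn' := mem_selD.1 hn
    have hn0 : n ≠ 0 := fun h => prodPrimes_ne_zero (s := s) (by
      have := hn'.1
      rw [h] at this
      exact zero_dvd_iff.1 this)
    exact hd ((Nat.le_of_dvd (Nat.pos_of_ne_zero hn0) hdn).trans hn'.2)
  rw [selW, this]
  simp

lemma abs_selW_le (hz : 1 ≤ z) {d : ℕ} (hd : d ∣ s.prodPrimes) :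
    |selW s z d| ≤ (s.nu d)⁻¹ := by
  have hS := selS_pos (s := s) hz
  have hnu := nu_pos_of_dvd_prodPrimes hd
  have hsum : ∑ n ∈ (selD s z).filter (fun n => d ∣ n), s.selbergTerms n ≤ selS s z := by
    apply Finset.sum_le_sum_of_subset_of_nonneg (Finset.filter_subset _ _)
    intro i hi _
    exact selbergTerms_nonneg_of_mem hi
  have hsum0 : 0 ≤ ∑ n ∈ (selD s z).filter (fun n => d ∣ n), s.selbergTerms n :=
    Finset.sum_nonneg fun i hi => selbergTerms_nonneg_of_mem (Finset.mem_filter.1 hi).1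
  have hmu : |(μ d : ℝ)| ≤ 1 := by
    have := ArithmeticFunction.abs_moebius_le_one (n := d)
    exact_mod_cast this
  rw [selW, abs_mul, abs_div, abs_of_nonneg hsum0, abs_of_pos (mul_pos hnu hS)]
  calc |(μ d : ℝ)| / (s.nu d * selS s z) * ∑ n ∈ (selD s z).filter (fun n => d ∣ n),
        s.selbergTerms n ≤ 1 / (s.nu d * selS s z) * selS s z := by
        apply mul_le_mul _ hsum hsum0 (by positivity)
        exact div_le_div_of_nonneg_right hmu (by positivity)
    _ = (s.nu d)⁻¹ := by
        field_simp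

/-- Moebius sum over an interval of the divisor lattice. -/
lemma sum_moebius_interval {l n : ℕ} (hn : Squarefree n) (hl : l ∣ n) :
    ∑ d ∈ n.divisors.filter (fun d => l ∣ d), (μ d : ℝ) = if l = n then (μ l : ℝ) else 0 := by
  have hn0 : n ≠ 0 := hn.ne_zero
  obtain ⟨m, rfl⟩ := hl
  have hl0 : l ≠ 0 := left_ne_zero_of_mul hn0
  have hm0 : m ≠ 0 := right_ne_zero_of_mul hn0
  have hcop : Nat.Coprime l m := Nat.coprime_of_squarefree_mul hn
  have e : (l * m).divisors.filter (fun d => l ∣ d) = m.divisors.image (fun e => l * e) := by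
    ext d
    simp only [mem_filter, Nat.mem_divisors, mem_image]
    constructor
    · rintro ⟨⟨h1, _⟩, e, rfl⟩
      exact ⟨e, ⟨Nat.dvd_of_mul_dvd_mul_left (Nat.pos_of_ne_zero hl0) h1, hm0⟩, rfl⟩
    · rintro ⟨e, ⟨h1, _⟩, rfl⟩
      exact ⟨⟨Nat.mul_dvd_mul_left l h1, hn0⟩, dvd_mul_right _ _⟩
  rw [e, Finset.sum_image (fun x _ y _ h => Nat.eq_of_mul_eq_mul_left (Nat.pos_of_ne_zero hl0) h)]
  have h2 : ∑ e ∈ m.divisors, (μ (l * e) : ℝ) = ∑ e ∈ m.divisors, (μ l : ℝ) * (μ e : ℝ) := by
    apply Finset.sum_congr rfl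
    intro e he
    have hem := (Nat.mem_divisors.1 he).1
    have : Nat.Coprime l e := Nat.Coprime.coprime_dvd_right hem hcop
    rw [ArithmeticFunction.isMultiplicative_moebius.map_mul_of_coprime this]
    push_cast
    ring
  rw [h2, ← Finset.mul_sum]
  have h3 : ∑ e ∈ m.divisors, (μ e : ℝ) = if m = 1 then 1 else 0 := by
    have h := congrArg (fun f : ArithmeticFunction ℝ => f m) (coe_zeta_mul_coe_moebius (R := ℝ))
    simp only [coe_zeta_mul_apply, ArithmeticFunction.one_apply] at h
    simpa using h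
  rw [h3]
  by_cases hm : m = 1
  · simp [hm]
  · have : l ≠ l * m := by
      intro h
      apply hm
      have : l * 1 = l * m := by rw [mul_one]; exact h
      exact (Nat.eq_of_mul_eq_mul_left (Nat.pos_of_ne_zero hl0) this).symm
    simp [hm, this]

/-- The diagonal variables of the Selberg weights. -/
lemma sum_nu_selW (hz : 1 ≤ z) {l : ℕ} (hl : l ∣ s.prodPrimes) :
    (∑ d ∈ s.prodPrimes.divisors, if l ∣ d then s.nu d * selW s z d else 0)
      = if l ≤ z then (μ l : ℝ) * s.selbergTerms l / selS s z else 0 := by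
  have hS := (selS_pos (s := s) hz).ne'
  have hP := prodPrimes_ne_zero (s := s)
  have step1 : ∀ d ∈ s.prodPrimes.divisors, (if l ∣ d then s.nu d * selW s z d else 0)
      = ∑ n ∈ selD s z, if l ∣ d ∧ d ∣ n then (μ d : ℝ) * (s.selbergTerms n / selS s z) else 0 := by
    intro d hd
    have hd' := (Nat.mem_divisors.1 hd).1
    have hnu := (nu_pos_of_dvd_prodPrimes hd').ne'
    by_cases hld : l ∣ d
    · simp only [hld, if_true, true_and]
      rw [← Finset.sum_filter, selW, ← Finset.mul_sum, ← Finset.sum_div]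
      field_simp
    · simp [hld]
  rw [Finset.sum_congr rfl step1, Finset.sum_comm]
  have step2 : ∀ n ∈ selD s z, (∑ d ∈ s.prodPrimes.divisors,
      if l ∣ d ∧ d ∣ n then (μ d : ℝ) * (s.selbergTerms n / selS s z) else 0)
      = if l = n then (μ l : ℝ) * (s.selbergTerms n / selS s z) else 0 := by
    intro n hn
    have hn' := (mem_selD.1 hn).1
    rw [← Finset.sum_filter, ← Finset.sum_mul]
    have e : s.prodPrimes.divisors.filter (fun d => l ∣ d ∧ d ∣ n)
        = n.divisors.filter (fun d => l ∣ d) := by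
      ext d
      simp only [mem_filter, Nat.mem_divisors]
      constructor
      · rintro ⟨_, h1, h2⟩
        exact ⟨⟨h2, ne_zero_of_dvd_ne_zero hP hn'⟩, h1⟩
      · rintro ⟨⟨h2, _⟩, h1⟩
        exact ⟨⟨h2.trans hn', hP⟩, h1, h2⟩
    rw [e]
    by_cases hln : l ∣ n
    · rw [sum_moebius_interval (squarefree_of_dvd_prodPrimes hn') hln]
      split_ifs <;> simp
    · have h1 : n.divisors.filter (fun d => l ∣ d) = ∅ := by
        apply Finset.filter_eq_empty_iff.2
        intro d hd h
        exact hln (h.trans (Nat.mem_divisors.1 hd).1)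
      have h2 : l ≠ n := fun h => hln (h ▸ dvd_rfl)
      rw [h1, if_neg h2]
      simp
  rw [Finset.sum_congr rfl step2, Finset.sum_ite_eq]
  by_cases hlz : l ≤ z
  · rw [if_pos (mem_selD.2 ⟨hl, hlz⟩), if_pos hlz, mul_div_assoc]
  · rw [if_neg (fun h => hlz (mem_selD.1 h).2), if_neg hlz]

/-- The main sum of the Selberg weights. -/
lemma mainSum_selW (hz : 1 ≤ z) : s.mainSum (lambdaSquared (selW s z)) = (selS s z)⁻¹ := by
  have hS := (selS_pos (s := s) hz).ne'
  rw [mainSum_lambdaSquared_eq_sum_mul_sum_sq]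
  have step : ∀ l ∈ s.prodPrimes.divisors, (s.selbergTerms l)⁻¹ *
      (∑ d ∈ s.prodPrimes.divisors, if l ∣ d then s.nu d * selW s z d else 0) ^ 2
      = if l ≤ z then s.selbergTerms l / (selS s z) ^ 2 else 0 := by
    intro l hl
    have hl' := (Nat.mem_divisors.1 hl).1
    rw [sum_nu_selW hz hl']
    split_ifs with h
    · have hg := (selbergTerms_pos hl').ne'
      have hmu : (μ l : ℝ) ^ 2 = 1 := by
        have := moebius_sq_eq_one_of_squarefree (squarefree_of_dvd_prodPrimes hl')
        exact_mod_cast this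
      rw [div_pow, mul_pow, hmu]
      field_simp
    · simp
  rw [Finset.sum_congr rfl step, ← Finset.sum_filter, ← Finset.sum_div]
  rw [show ∑ i ∈ s.prodPrimes.divisors with i ≤ z, s.selbergTerms i = selS s z from rfl]
  field_simp

/-- The error sum is controlled by a sum over pairs. -/
lemma errSum_selW_le (B : ℕ → ℝ) (hB : ∀ d, d ∣ s.prodPrimes → |s.rem d| ≤ B d) :
    s.errSum (lambdaSquared (selW s z)) ≤
      ∑ d1 ∈ selD s z, ∑ d2 ∈ selD s z,
        |selW s z d1| * |selW s z d2| * B (d1.lcm d2) := by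
  have hP := prodPrimes_ne_zero (s := s)
  rw [errSum]
  have h0 : ∀ d ∈ s.prodPrimes.divisors, |lambdaSquared (selW s z) d| * |s.rem d| ≤
      ∑ d1 ∈ selD s z, ∑ d2 ∈ selD s z,
        if d = d1.lcm d2 then |selW s z d1| * |selW s z d2| * B d else 0 := by
    intro d hd
    have hd' := (Nat.mem_divisors.1 hd).1
    have hd0 : d ≠ 0 := ne_zero_of_dvd_ne_zero hP hd'
    have hBd : 0 ≤ B d := (abs_nonneg _).trans (hB d hd')
    have h1 : |lambdaSquared (selW s z) d| ≤ ∑ d1 ∈ d.divisors, ∑ d2 ∈ d.divisors,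
        if d = d1.lcm d2 then |selW s z d1| * |selW s z d2| else 0 := by
      rw [lambdaSquared]
      refine (Finset.abs_sum_le_sum_abs _ _).trans (Finset.sum_le_sum fun d1 _ => ?_)
      refine (Finset.abs_sum_le_sum_abs _ _).trans (Finset.sum_le_sum fun d2 _ => ?_)
      split_ifs
      · rw [abs_mul]
      · simp
    have h2 : ∑ d1 ∈ d.divisors, ∑ d2 ∈ d.divisors,
        (if d = d1.lcm d2 then |selW s z d1| * |selW s z d2| else 0)
        ≤ ∑ d1 ∈ selD s z, ∑ d2 ∈ selD s z,
          if d = d1.lcm d2 then |selW s z d1| * |selW s z d2| else 0 := by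
      have key : ∀ (f : ℕ → ℝ), (∀ x, 0 ≤ f x) → (∀ x, ¬ x ≤ z → f x = 0) →
          ∑ x ∈ d.divisors, f x ≤ ∑ x ∈ selD s z, f x := by
        intro f hf hf0
        have : ∑ x ∈ d.divisors, f x = ∑ x ∈ d.divisors.filter (fun x => x ≤ z), f x := by
          rw [Finset.sum_filter]
          apply Finset.sum_congr rfl
          intro x _
          split_ifs with h
          · rfl
          · exact hf0 x h
        rw [this]
        apply Finset.sum_le_sum_of_subset_of_nonneg
        · intro x hx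
          rw [mem_filter, Nat.mem_divisors] at hx
          exact mem_selD.2 ⟨hx.1.1.trans hd', hx.2⟩
        · intro x _ _
          exact hf x
      refine (Finset.sum_le_sum fun d1 _ => key _ ?_ ?_).trans (key _ ?_ ?_)
      · intro x
        split_ifs
        · positivity
        · exact le_rfl
      · intro x hx
        rw [selW_eq_zero hx]
        simp
      · intro x
        apply Finset.sum_nonneg
        intro y _
        split_ifs
        · positivity
        · exact le_rfl
      · intro x hx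
        apply Finset.sum_eq_zero
        intro y _
        rw [selW_eq_zero hx]
        simp
    calc |lambdaSquared (selW s z) d| * |s.rem d|
        ≤ (∑ d1 ∈ selD s z, ∑ d2 ∈ selD s z,
          if d = d1.lcm d2 then |selW s z d1| * |selW s z d2| else 0) * B d :=
          mul_le_mul (h1.trans h2) (hB d hd') (abs_nonneg _)
            ((abs_nonneg _).trans (h1.trans h2))
      _ = _ := by
          rw [Finset.sum_mul]
          apply Finset.sum_congr rfl
          intro d1 _
          rw [Finset.sum_mul]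
          apply Finset.sum_congr rfl
          intro d2 _
          split_ifs <;> simp
  refine (Finset.sum_le_sum h0).trans (le_of_eq ?_)
  rw [Finset.sum_comm]
  apply Finset.sum_congr rfl
  intro d1 hd1
  rw [Finset.sum_comm]
  apply Finset.sum_congr rfl
  intro d2 hd2
  rw [Finset.sum_ite_eq']
  rw [if_pos]
  exact Nat.mem_divisors.2 ⟨Nat.lcm_dvd (mem_selD.1 hd1).1 (mem_selD.1 hd2).1, hP⟩

/-- Selberg upper bound with crude error term. -/
theorem siftedSum_le_selberg (hz : 1 ≤ z)
    (hnu : ∀ d, d ∣ s.prodPrimes → (s.nu d)⁻¹ ≤ d)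
    (hrem : ∀ d, d ∣ s.prodPrimes → |s.rem d| ≤ d) :
    s.siftedSum ≤ s.totalMass / selS s z + (z : ℝ) ^ 6 := by
  have h1 := siftedSum_le_mainSum_errSum_of_upperMoebius (s := s) _
    (upperMoebius_lambdaSquared (selW s z) (selW_one hz))
  rw [mainSum_selW hz] at h1
  have h2 := errSum_selW_le (s := s) (z := z) (fun d => (d : ℝ)) hrem
  have h3 : ∑ d1 ∈ selD s z, ∑ d2 ∈ selD s z,
        |selW s z d1| * |selW s z d2| * ((d1.lcm d2 : ℕ) : ℝ) ≤ (z : ℝ) ^ 6 := by
    have hterm : ∀ d1 ∈ selD s z, ∀ d2 ∈ selD s z,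
        |selW s z d1| * |selW s z d2| * ((d1.lcm d2 : ℕ) : ℝ) ≤ (z : ℝ) ^ 2 * (z : ℝ) ^ 2 := by
      intro d1 hd1 d2 hd2
      obtain ⟨a1, b1⟩ := mem_selD.1 hd1
      obtain ⟨a2, b2⟩ := mem_selD.1 hd2
      have c1 : |selW s z d1| ≤ z :=
        (abs_selW_le hz a1).trans ((hnu d1 a1).trans (by exact_mod_cast b1))
      have c2 : |selW s z d2| ≤ z :=
        (abs_selW_le hz a2).trans ((hnu d2 a2).trans (by exact_mod_cast b2))
      have d1pos : 0 < d1 := Nat.pos_of_ne_zero (ne_zero_of_dvd_ne_zero prodPrimes_ne_zero a1)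
      have d2pos : 0 < d2 := Nat.pos_of_ne_zero (ne_zero_of_dvd_ne_zero prodPrimes_ne_zero a2)
      have c3 : ((d1.lcm d2 : ℕ) : ℝ) ≤ (z : ℝ) * z := by
        have : d1.lcm d2 ≤ z * z :=
          (Nat.le_of_dvd (Nat.mul_pos d1pos d2pos) (Nat.lcm_dvd_mul d1 d2)).trans
            (Nat.mul_le_mul b1 b2)
        exact_mod_cast this
      calc |selW s z d1| * |selW s z d2| * ((d1.lcm d2 : ℕ) : ℝ)
          ≤ (z : ℝ) * z * ((z : ℝ) * z) := by gcongr
        _ = (z : ℝ) ^ 2 * (z : ℝ) ^ 2 := by ring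
    have hcard : ((selD s z).card : ℝ) ≤ z := by
      have : selD s z ⊆ Finset.Icc 1 z := by
        intro d hd
        obtain ⟨a, b⟩ := mem_selD.1 hd
        exact Finset.mem_Icc.2
          ⟨Nat.pos_of_ne_zero (ne_zero_of_dvd_ne_zero prodPrimes_ne_zero a), b⟩
      have := Finset.card_le_card this
      rw [Nat.card_Icc, Nat.add_sub_cancel] at this
      exact_mod_cast this
    calc ∑ d1 ∈ selD s z, ∑ d2 ∈ selD s z,
        |selW s z d1| * |selW s z d2| * ((d1.lcm d2 : ℕ) : ℝ)
        ≤ ∑ _d1 ∈ selD s z, ∑ _d2 ∈ selD s z, (z : ℝ) ^ 2 * (z : ℝ) ^ 2 :=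
          Finset.sum_le_sum fun d1 hd1 => Finset.sum_le_sum fun d2 hd2 => hterm d1 hd1 d2 hd2
      _ = ((selD s z).card : ℝ) * ((selD s z).card * ((z : ℝ) ^ 2 * (z : ℝ) ^ 2)) := by
          simp only [Finset.sum_const, nsmul_eq_mul]
      _ ≤ (z : ℝ) * ((z : ℝ) * ((z : ℝ) ^ 2 * (z : ℝ) ^ 2)) := by gcongr
      _ = (z : ℝ) ^ 6 := by ring
  calc s.siftedSum ≤ s.totalMass * (selS s z)⁻¹ + s.errSum (lambdaSquared (selW s z)) := h1
    _ ≤ s.totalMass / selS s z + (z : ℝ) ^ 6 := by
        rw [div_eq_mul_inv]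
        linarith [h2.trans h3]

end

end Pool.Agent.Lib_helper72.AP
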