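import Mathlib
import Pool.Agent.Lib_helper72.AP.SelbergBound
import Pool.Agent.Lib_helper72.AP.SumLower

set_option autoImplicit false

/-!
The Selberg sieve for integer valued functions that respect congruences.
-/

namespace Pool.Agent.Lib_helper72.AP

open Finset ArithmeticFunction BoundingSieve

noncomputable section

/-- `f` respects congruences. -/
def Cong (f : ℕ → ℤ) : Prop := ∀ d a b : ℕ, a ≡ b [MOD d] → ((d : ℤ) ∣ f a ↔ (d : ℤ) ∣ f b)

/-- Number of residues `n` modulo `d` with `d ∣ f n`. -/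
def rhoF (f : ℕ → ℤ) (d : ℕ) : ℕ := ((range d).filter (fun n => (d : ℤ) ∣ f n)).card

lemma rhoF_zero (f : ℕ → ℤ) : rhoF f 0 = 0 := by simp [rhoF]

lemma rhoF_one (f : ℕ → ℤ) : rhoF f 1 = 1 := by simp [rhoF]

lemma rhoF_le (f : ℕ → ℤ) (d : ℕ) : rhoF f d ≤ d := by
  have := Finset.card_filter_le (range d) (fun n => (d : ℤ) ∣ f n)
  rwa [card_range] at this

lemma rhoF_mul {f : ℕ → ℤ} (hf : Cong f) {a b : ℕ} (hab : Nat.Coprime a b) :
    rhoF f (a * b) = rhoF f a * rhoF f b := by
  rcases Nat.eq_zero_or_pos a with rfl | ha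
  · simp [rhoF_zero]
  rcases Nat.eq_zero_or_pos b with rfl | hb
  · simp [rhoF_zero]
  rw [rhoF, rhoF, rhoF, ← Finset.card_product]
  apply Finset.card_bij (fun x _ => (x % a, x % b))
  · intro x hx
    rw [mem_filter, mem_range] at hx
    rw [mem_product, mem_filter, mem_filter, mem_range, mem_range]
    have h2 := hx.2
    rw [Nat.cast_mul] at h2
    refine ⟨⟨Nat.mod_lt _ ha, ?_⟩, Nat.mod_lt _ hb, ?_⟩
    · exact (hf a _ _ (Nat.mod_modEq x a)).2 ((dvd_mul_right (a : ℤ) b).trans h2)
    · exact (hf b _ _ (Nat.mod_modEq x b)).2 ((dvd_mul_left (b : ℤ) a).trans h2)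
  · intro x hx y hy hxy
    rw [mem_filter, mem_range] at hx hy
    rw [Prod.mk.injEq] at hxy
    have h1 : x ≡ y [MOD a * b] :=
      (Nat.modEq_and_modEq_iff_modEq_mul hab).1 ⟨hxy.1, hxy.2⟩
    exact Nat.ModEq.eq_of_lt_of_lt h1 hx.1 hy.1
  · rintro ⟨u, v⟩ huv
    rw [mem_product, mem_filter, mem_filter, mem_range, mem_range] at huv
    obtain ⟨⟨hu1, hu2⟩, hv1, hv2⟩ := huv
    obtain ⟨x, hx1, hx2⟩ := Nat.chineseRemainder hab u v
    refine ⟨x % (a * b), ?_, ?_⟩
    · rw [mem_filter, mem_range]
      refine ⟨Nat.mod_lt _ (Nat.mul_pos ha hb), ?_⟩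
      rw [hf (a * b) _ _ (Nat.mod_modEq x (a * b)), Nat.cast_mul]
      have hab' : IsCoprime (a : ℤ) (b : ℤ) := Nat.isCoprime_iff_coprime.2 hab
      exact hab'.mul_dvd ((hf a _ _ hx1).2 hu2) ((hf b _ _ hx2).2 hv2)
    · have e1 : x % (a * b) % a = u := by
        rw [Nat.mod_mul_right_mod]
        have h1 : x % a = u % a := hx1
        rw [h1]
        exact Nat.mod_eq_of_lt hu1
      have e2 : x % (a * b) % b = v := by
        rw [Nat.mod_mul_left_mod]
        have h1 : x % b = v % b := hx2
        rw [h1]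
        exact Nat.mod_eq_of_lt hv1
      rw [e1, e2]

/-- The density `rhoF f d / d` as an arithmetic function. -/
def nuG (f : ℕ → ℤ) : ArithmeticFunction ℝ := ⟨fun d => (rhoF f d : ℝ) / d, by simp⟩

lemma nuG_apply (f : ℕ → ℤ) (d : ℕ) : nuG f d = (rhoF f d : ℝ) / d := rfl

lemma nuG_mult {f : ℕ → ℤ} (hf : Cong f) : (nuG f).IsMultiplicative := by
  constructor
  · simp [nuG_apply, rhoF_one]
  · intro m n hmn
    rw [nuG_apply, nuG_apply, nuG_apply, rhoF_mul hf hmn]
    push_cast
    rw [mul_div_mul_comm]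

/-- Counting in an interval. -/
lemma countF_bounds {f : ℕ → ℤ} (hf : Cong f) (d M q r : ℕ) (hr : r ≤ d) :
    q * rhoF f d ≤ ((Ico M (M + (d * q + r))).filter (fun n => (d : ℤ) ∣ f n)).card ∧
    ((Ico M (M + (d * q + r))).filter (fun n => (d : ℤ) ∣ f n)).card ≤ (q + 1) * rhoF f d := by
  classical
  have hper : Function.Periodic (fun n => (d : ℤ) ∣ f n) d := by
    intro n
    apply propext
    exact hf d _ _ (by simp [Nat.ModEq])
  have hfull : ∀ N, ((Ico N (N + d)).filter (fun n => (d : ℤ) ∣ f n)).card = rhoF f d := by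
    intro N
    rw [Nat.filter_Ico_card_eq_of_periodic N d _ hper, Nat.count_eq_card_filter_range, rhoF]
  have hq : ∀ q : ℕ, ((Ico M (M + d * q)).filter (fun n => (d : ℤ) ∣ f n)).card
      = q * rhoF f d := by
    intro q
    induction q with
    | zero => simp
    | succ q ih =>
      have e : Ico M (M + d * (q + 1)) = Ico M (M + d * q) ∪ Ico (M + d * q) (M + d * q + d) := by
        rw [Finset.Ico_union_Ico_eq_Ico (by omega) (by omega)]
        congr 1
        ring
      rw [e, filter_union, card_union_of_disjoint, ih, hfull]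
      · ring
      · apply Finset.disjoint_filter_filter
        exact Finset.Ico_disjoint_Ico_consecutive _ _ _
  constructor
  · rw [← hq q]
    apply Finset.card_le_card
    apply Finset.filter_subset_filter
    apply Finset.Ico_subset_Ico le_rfl
    omega
  · rw [← hq (q + 1)]
    apply Finset.card_le_card
    apply Finset.filter_subset_filter
    apply Finset.Ico_subset_Ico le_rfl
    rw [Nat.mul_succ]
    omega

lemma abs_countF_sub_le {f : ℕ → ℤ} (hf : Cong f) (d M H : ℕ) (hd : 0 < d) :
    |(((Ico M (M + H)).filter (fun n => (d : ℤ) ∣ f n)).card : ℝ) - nuG f d * H| ≤ rhoF f d := by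
  obtain ⟨h1, h2⟩ := countF_bounds hf d M (H / d) (H % d) (Nat.mod_lt _ hd).le
  rw [Nat.div_add_mod] at h1 h2
  have hd' : (0 : ℝ) < d := by exact_mod_cast hd
  have e1 : ((H / d : ℕ) : ℝ) * d ≤ H := by exact_mod_cast Nat.div_mul_le_self H d
  have e2 : (H : ℝ) ≤ ((H / d : ℕ) + 1 : ℝ) * d := by
    have : H ≤ (H / d + 1) * d := by
      have := Nat.lt_div_mul_add (a := H) hd
      rw [Nat.add_mul, one_mul]
      exact this.le
    exact_mod_cast this
  have h1' : ((H / d : ℕ) : ℝ) * rhoF f d ≤
      ((Ico M (M + H)).filter (fun n => (d : ℤ) ∣ f n)).card := by exact_mod_cast h1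
  have h2' : (((Ico M (M + H)).filter (fun n => (d : ℤ) ∣ f n)).card : ℝ) ≤
      ((H / d : ℕ) + 1 : ℝ) * rhoF f d := by exact_mod_cast h2
  have hr : (0 : ℝ) ≤ rhoF f d := Nat.cast_nonneg _
  have e3 : nuG f d * H = (rhoF f d : ℝ) * (H / d) := by rw [nuG_apply]; ring
  have e4 : ((H / d : ℕ) : ℝ) ≤ (H : ℝ) / d := by rw [le_div_iff₀ hd']; exact e1
  have e5 : (H : ℝ) / d ≤ (H / d : ℕ) + 1 := by rw [div_le_iff₀ hd']; exact e2
  rw [e3, abs_le]
  constructor
  · nlinarith
  · nlinarith

/-- The sieve problem `f n`, `n ∈ [M, M + H)`. -/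
def formSieve (f : ℕ → ℤ) (hf : Cong f) (M H z : ℕ) (h1 : ∀ p, p.Prime → 1 ≤ rhoF f p)
    (h2 : ∀ p, p.Prime → rhoF f p < p) : BoundingSieve where
  support := (Ico M (M + H)).image (fun n => (f n).natAbs)
  prodPrimes := primorial z
  prodPrimes_squarefree := squarefree_primorial z
  weights := fun v => (((Ico M (M + H)).filter (fun n => (f n).natAbs = v)).card : ℝ)
  weights_nonneg := fun _ => Nat.cast_nonneg _
  totalMass := H
  nu := nuG f
  nu_mult := nuG_mult hf
  nu_pos_of_prime := by
    intro p hp _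
    rw [nuG_apply]
    have h3 : 0 < rhoF f p := h1 p hp
    have h4 := hp.pos
    positivity
  nu_lt_one_of_prime := by
    intro p hp _
    rw [nuG_apply, div_lt_one (by exact_mod_cast hp.pos)]
    exact_mod_cast h2 p hp

section

variable (f : ℕ → ℤ) (hf : Cong f) (M H z : ℕ) (h1 : ∀ p, p.Prime → 1 ≤ rhoF f p)
    (h2 : ∀ p, p.Prime → rhoF f p < p)

lemma formSieve_sum_eq (q : ℕ → Prop) [DecidablePred q] :
    ∑ v ∈ (Ico M (M + H)).image (fun n => (f n).natAbs),
      (if q v then (((Ico M (M + H)).filter (fun n => (f n).natAbs = v)).card : ℝ) else 0) =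
      (((Ico M (M + H)).filter (fun n => q (f n).natAbs)).card : ℝ) := by
  classical
  have e : (((Ico M (M + H)).filter (fun n => q (f n).natAbs)).card : ℝ) =
      ∑ n ∈ Ico M (M + H), if q (f n).natAbs then (1 : ℝ) else 0 := by
    rw [← Finset.sum_filter]
    simp
  rw [e]
  have hmaps : ∀ n ∈ Ico M (M + H),
      (f n).natAbs ∈ (Ico M (M + H)).image (fun n => (f n).natAbs) :=
    fun n hn => mem_image_of_mem _ hn
  rw [← Finset.sum_fiberwise_of_maps_to hmaps]
  apply Finset.sum_congr rfl
  intro v _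
  have e2 : ∀ n ∈ (Ico M (M + H)).filter (fun n => (f n).natAbs = v),
      (if q (f n).natAbs then (1 : ℝ) else 0) = if q v then 1 else 0 := by
    intro n hn
    rw [(mem_filter.1 hn).2]
  rw [Finset.sum_congr rfl e2, Finset.sum_const, nsmul_eq_mul]
  split_ifs <;> simp

lemma formSieve_multSum (d : ℕ) : (formSieve f hf M H z h1 h2).multSum d =
    ((Ico M (M + H)).filter (fun n => (d : ℤ) ∣ f n)).card := by
  have e := formSieve_sum_eq f M H (fun v => d ∣ v)
  have e2 : (formSieve f hf M H z h1 h2).multSum d =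
      ∑ v ∈ (Ico M (M + H)).image (fun n => (f n).natAbs),
      (if d ∣ v then (((Ico M (M + H)).filter (fun n => (f n).natAbs = v)).card : ℝ) else 0) := rfl
  rw [e2, e]
  congr 2
  ext n
  rw [mem_filter, mem_filter, Int.natCast_dvd]

lemma formSieve_rem (d : ℕ) (hd : 0 < d) : |(formSieve f hf M H z h1 h2).rem d| ≤ d := by
  have e1 : (formSieve f hf M H z h1 h2).rem d =
      (((Ico M (M + H)).filter (fun n => (d : ℤ) ∣ f n)).card : ℝ) - nuG f d * H := by
    rw [BoundingSieve.rem, formSieve_multSum]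
    rfl
  rw [e1]
  exact (abs_countF_sub_le hf d M H hd).trans (by exact_mod_cast rhoF_le f d)

lemma formSieve_sifted : (formSieve f hf M H z h1 h2).siftedSum =
    (((Ico M (M + H)).filter (fun n => Nat.Coprime (primorial z) (f n).natAbs)).card : ℝ) :=
  formSieve_sum_eq f M H (fun v => Nat.Coprime (primorial z) v)

end

lemma one_le_rhoF_of_prime_dvd (f : ℕ → ℤ) {d : ℕ} (hd : Squarefree d)
    (h1 : ∀ p, p.Prime → 1 ≤ rhoF f p) (hf : Cong f) : 1 ≤ rhoF f d := by
  induction d using Nat.recOnPosPrimePosCoprime with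
  | prime_pow p n hp hn =>
    have hn1 : n = 1 := by
      by_contra hne
      have h3 : 2 ≤ n := by omega
      have h4 : p * p ∣ p ^ n := by
        calc p * p = p ^ 2 := by ring
          _ ∣ p ^ n := pow_dvd_pow p h3
      have h5 := hd p h4
      exact hp.one_lt.ne' (Nat.isUnit_iff.1 h5)
    rw [hn1, pow_one]
    exact h1 p hp
  | zero => exact absurd hd not_squarefree_zero
  | one => rw [rhoF_one]
  | coprime a b _ _ hab iha ihb =>
    rw [rhoF_mul hf hab]
    have h3 := iha (Squarefree.squarefree_of_dvd (dvd_mul_right a b) hd)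
    have h4 := ihb (Squarefree.squarefree_of_dvd (dvd_mul_left b a) hd)
    exact Nat.mul_pos h3 h4

/-- The sieve for a form of dimension two, in terms of `cfac`. -/
theorem form_count_le (f : ℕ → ℤ) (hf : Cong f) (M H : ℕ) (h1 : ∀ p, p.Prime → 1 ≤ rhoF f p)
    (h2 : ∀ p, p.Prime → rhoF f p < p) {B : ℕ} (hB : B ≠ 0) (h2B : 2 ∣ B)
    (hgood : ∀ p, p.Prime → ¬ p ∣ B → 2 ≤ rhoF f p) (y : ℕ) (hy : 1 ≤ y) :
    (((Ico M (M + H)).filter
      (fun n => Nat.Coprime (primorial (y * y)) (f n).natAbs)).card : ℝ) ≤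
      H * cfac B / (∑ u ∈ Icc 1 y, (1 : ℝ) / u) ^ 2 + (y : ℝ) ^ 12 := by
  set z := y * y with hz
  have hz1 : 1 ≤ z := Nat.mul_pos hy hy
  set S := formSieve f hf M H z h1 h2 with hS
  set A : ℝ := ∑ u ∈ Icc 1 y, (1 : ℝ) / u with hA
  have hA1 : 1 ≤ A := by
    have h1 := Finset.single_le_sum (f := fun e : ℕ => (1 : ℝ) / e) (s := Icc 1 y)
      (fun i _ => by positivity) (mem_Icc.2 ⟨le_rfl, hy⟩)
    calc (1 : ℝ) = 1 / ((1 : ℕ) : ℝ) := by norm_num
      _ ≤ A := h1
  have hc : 0 < cfac B := cfac_pos hB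
  have hset : selD S z = (Icc 1 z).filter Squarefree := by
    ext l
    rw [mem_selD, mem_filter, mem_Icc]
    show l ∣ primorial z ∧ l ≤ z ↔ _
    constructor
    · rintro ⟨h1, h2⟩
      exact ⟨⟨Nat.pos_of_ne_zero (ne_zero_of_dvd_ne_zero (primorial_ne_zero z) h1), h2⟩,
        Squarefree.squarefree_of_dvd h1 (squarefree_primorial z)⟩
    · rintro ⟨⟨_, h2⟩, h3⟩
      exact ⟨h3.dvd_primorial.trans (primorial_dvd_primorial h2), h2⟩
  have hg : ∀ l ∈ selD S z, S.selbergTerms l =
        ∏ p ∈ l.primeFactors, (nuG f p / (1 - nuG f p)) := by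
    intro l hl
    rw [selbergTerms_apply, ← prod_primeFactors_nu (mem_selD.1 hl).1, ← Finset.prod_mul_distrib]
    rfl
  have hge : ∑ m ∈ Icc 1 z, zchi B m / m ≤ selS S z := by
    rw [selS, Finset.sum_congr rfl hg, hset]
    calc ∑ m ∈ Icc 1 z, zchi B m / m
        = ∑ m ∈ Icc 1 z, ∏ p ∈ m.primeFactors,
          (zchi B (p ^ m.factorization p) / (p : ℝ) ^ m.factorization p) := by
          apply Finset.sum_congr rfl
          intro m hm
          rw [mem_Icc] at hm
          exact zchi_div_eq_prod (by omega)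
      _ ≤ _ := by
          apply sum_fiber_radical z (fun p a => zchi B (p ^ a) / (p : ℝ) ^ a)
          · intro p a
            have := zchi_nonneg B (p ^ a)
            positivity
          · intro p hp _
            have hp1 : (1 : ℝ) < p := by exact_mod_cast hp.one_lt
            have hlt : (rhoF f p : ℝ) < p := by exact_mod_cast h2 p hp
            have hge : (1 : ℝ) ≤ rhoF f p := by exact_mod_cast h1 p hp
            have e : nuG f p / (1 - nuG f p) = rhoF f p / (p - rhoF f p) := by
              rw [nuG_apply]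
              have h1 : (p : ℝ) ≠ 0 := by positivity
              have h2 : (p : ℝ) - rhoF f p ≠ 0 := by linarith
              have h3 : 1 - (rhoF f p : ℝ) / p ≠ 0 := by
                rw [one_sub_div h1]
                exact div_ne_zero h2 h1
              field_simp
            rw [e]
            by_cases hph : p ∣ B
            · refine (local_dvd hp hph).trans ?_
              rw [div_le_div_iff₀ (by linarith) (by linarith)]
              nlinarith
            · have hp3 : 3 ≤ p := by
                have h2 := hp.two_le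
                rcases Nat.lt_or_ge 2 p with h3 | h3
                · exact h3
                · have : p = 2 := by omega
                  rw [this] at hph
                  exact absurd h2B hph
              have h2 : (2 : ℝ) ≤ rhoF f p := by exact_mod_cast hgood p hp hph
              refine (local_not_dvd hp hp3 hph).trans ?_
              have hp3' : (3 : ℝ) ≤ p := by exact_mod_cast hp3
              rw [div_le_div_iff₀ (by linarith) (by linarith)]
              nlinarith
  have hS1 : A ^ 2 / cfac B ≤ selS S z := by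
    refine le_trans ?_ hge
    refine le_trans ?_ (prod_le_sum_zchi B y z le_rfl)
    have h1 := harmonic_le_cfac B y hB
    rw [← hA] at h1 ⊢
    rw [div_le_iff₀ hc]
    nlinarith
  have hSpos : 0 < selS S z := selS_pos hz1
  have hsel := siftedSum_le_selberg (s := S) (z := z) hz1
    (by
      intro d hd
      have hd0 : 0 < d := Nat.pos_of_ne_zero (ne_zero_of_dvd_ne_zero prodPrimes_ne_zero hd)
      show (nuG f d)⁻¹ ≤ d
      rw [nuG_apply, inv_div]
      have h3 : (1 : ℝ) ≤ rhoF f d := by
        exact_mod_cast one_le_rhoF_of_prime_dvd f (squarefree_of_dvd_prodPrimes hd) h1 hf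
      exact div_le_self (Nat.cast_nonneg _) h3)
    (by
      intro d hd
      exact formSieve_rem f hf M H z h1 h2 d
        (Nat.pos_of_ne_zero (ne_zero_of_dvd_ne_zero prodPrimes_ne_zero hd)))
  rw [hS, formSieve_sifted, ← hS] at hsel
  have htm : S.totalMass = H := rfl
  rw [htm] at hsel
  have hmain : (H : ℝ) / selS S z ≤ H * cfac B / A ^ 2 := by
    have h2 : (H : ℝ) / selS S z ≤ H / (A ^ 2 / cfac B) := by
      apply div_le_div_of_nonneg_left (Nat.cast_nonneg _) (by positivity) hS1
    refine h2.trans (le_of_eq ?_)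
    field_simp
  have hz6 : (z : ℝ) ^ 6 = (y : ℝ) ^ 12 := by
    have hzr : (z : ℝ) = (y : ℝ) ^ 2 := by rw [hz]; push_cast; ring
    rw [hzr]; ring
  rw [hz6] at hsel
  linarith

end

end Pool.Agent.Lib_helper72.AP
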