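import Mathlib
import Pool.Agent.Lib_helper72.AP.FormSieve

set_option autoImplicit false

/-!
The sieve for a pair of linear forms with distinct odd prime leading coefficients.
-/

namespace Pool.Agent.Lib_helper72.AP

open Finset

noncomputable section

/-- The product of two linear forms. -/
def twoF (a a' : ℕ) (b b' : ℤ) (n : ℕ) : ℤ := (a * n + b) * (a' * n + b')

lemma twoF_cong (a a' : ℕ) (b b' : ℤ) : Cong (twoF a a' b b') := by
  intro d x y hxy
  have h1 : (x : ℤ) ≡ y [ZMOD d] := by exact_mod_cast hxy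
  have h2 : twoF a a' b b' x ≡ twoF a a' b b' y [ZMOD d] := by
    unfold twoF
    exact Int.ModEq.mul ((h1.mul_left _).add_right _) ((h1.mul_left _).add_right _)
  exact h2.dvd_iff

lemma rhoF_eq_card {p : ℕ} (hp : p.Prime) (f : ℕ → ℤ) (F : ZMod p → ZMod p)
    (hF : ∀ n : ℕ, ((f n : ℤ) : ZMod p) = F n) [DecidableEq (ZMod p)] [Fintype (ZMod p)] :
    rhoF f p = ((univ : Finset (ZMod p)).filter (fun x => F x = 0)).card := by
  have : NeZero p := ⟨hp.ne_zero⟩
  rw [rhoF]
  apply Finset.card_bij (fun (n : ℕ) _ => ((n : ℕ) : ZMod p))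
  · intro n hn
    rw [mem_filter, mem_range] at hn
    rw [mem_filter]
    refine ⟨mem_univ _, ?_⟩
    rw [← hF, ZMod.intCast_zmod_eq_zero_iff_dvd]
    exact hn.2
  · intro x hx y hy hxy
    rw [mem_filter, mem_range] at hx hy
    rw [ZMod.natCast_eq_natCast_iff] at hxy
    exact Nat.ModEq.eq_of_lt_of_lt hxy hx.1 hy.1
  · intro x hx
    rw [mem_filter] at hx
    refine ⟨x.val, ?_, ZMod.natCast_zmod_val x⟩
    rw [mem_filter, mem_range]
    refine ⟨ZMod.val_lt x, ?_⟩
    rw [← ZMod.intCast_zmod_eq_zero_iff_dvd, hF, ZMod.natCast_zmod_val]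
    exact hx.2

section

variable {a a' : ℕ} {b b' : ℤ}

lemma twoF_cast {p : ℕ} (n : ℕ) : ((twoF a a' b b' n : ℤ) : ZMod p) =
    ((a : ZMod p) * n + (b : ZMod p)) * ((a' : ZMod p) * n + (b' : ZMod p)) := by
  unfold twoF
  push_cast
  ring

lemma prime_cast_ne_zero {p q : ℕ} (hp : p.Prime) (hq : q.Prime) (h : p ≠ q) :
    (q : ZMod p) ≠ 0 := by
  intro h0
  have h1 := (ZMod.natCast_eq_zero_iff q p).1 h0
  exact h ((Nat.prime_dvd_prime_iff_eq hp hq).1 h1)

lemma twoF_one_le (ha : a.Prime) (ha' : a'.Prime) (hne : a ≠ a') (p : ℕ) (hp : p.Prime) :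
    1 ≤ rhoF (twoF a a' b b') p := by
  classical
  have : Fact p.Prime := ⟨hp⟩
  have : NeZero p := ⟨hp.ne_zero⟩
  rw [rhoF_eq_card hp (twoF a a' b b')
    (fun x => ((a : ZMod p) * x + (b : ZMod p)) * ((a' : ZMod p) * x + (b' : ZMod p)))
    (fun n => twoF_cast n)]
  apply Finset.card_pos.2
  by_cases h : p = a
  · have h2 : (a' : ZMod p) ≠ 0 := prime_cast_ne_zero hp ha' (by rw [h]; exact hne)
    refine ⟨-(b' : ZMod p) / a', ?_⟩
    rw [mem_filter]
    refine ⟨mem_univ _, ?_⟩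
    have : (a' : ZMod p) * (-(b' : ZMod p) / a') + b' = 0 := by
      field_simp
      ring
    rw [this, mul_zero]
  · have h2 : (a : ZMod p) ≠ 0 := prime_cast_ne_zero hp ha h
    refine ⟨-(b : ZMod p) / a, ?_⟩
    rw [mem_filter]
    refine ⟨mem_univ _, ?_⟩
    have : (a : ZMod p) * (-(b : ZMod p) / a) + b = 0 := by
      field_simp
      ring
    rw [this, zero_mul]

lemma card_root_le {p : ℕ} [Fact p.Prime] [DecidableEq (ZMod p)] {u w : ZMod p}
    (h : u ≠ 0 ∨ w ≠ 0) :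
    ((univ : Finset (ZMod p)).filter (fun x => u * x + w = 0)).card ≤ 1 := by
  apply Finset.card_le_one.2
  intro x hx y hy
  rw [mem_filter] at hx hy
  have h1 : u * x = u * y := by
    have := hx.2.trans hy.2.symm
    exact add_right_cancel this
  by_cases hu : u = 0
  · have hw : w ≠ 0 := h.resolve_left (fun h => h hu)
    exfalso
    apply hw
    have := hx.2
    rwa [hu, zero_mul, zero_add] at this
  · exact mul_left_cancel₀ hu h1

lemma zmod2_eq_one : ∀ x : ZMod 2, x ≠ 0 → x = 1 := by decide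

lemma cast_or {p q : ℕ} {w : ℤ} (hp : p.Prime) (hq : q.Prime) (hw : ((w : ℤ) : ZMod q) ≠ 0) :
    (q : ZMod p) ≠ 0 ∨ ((w : ℤ) : ZMod p) ≠ 0 := by
  by_cases h : p = q
  · subst h
    exact Or.inr hw
  · exact Or.inl (prime_cast_ne_zero hp hq h)

lemma twoF_lt (ha : a.Prime) (ha' : a'.Prime) (ha2 : a ≠ 2) (ha2' : a' ≠ 2)
    (hb : ((b : ℤ) : ZMod a) ≠ 0) (hb' : ((b' : ℤ) : ZMod a') ≠ 0) (hR : (2 : ℤ) ∣ b - b')
    (p : ℕ) (hp : p.Prime) : rhoF (twoF a a' b b') p < p := by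
  classical
  have : Fact p.Prime := ⟨hp⟩
  have : NeZero p := ⟨hp.ne_zero⟩
  rw [rhoF_eq_card hp (twoF a a' b b')
    (fun x => ((a : ZMod p) * x + (b : ZMod p)) * ((a' : ZMod p) * x + (b' : ZMod p)))
    (fun n => twoF_cast n)]
  have hu : (a : ZMod p) ≠ 0 ∨ ((b : ℤ) : ZMod p) ≠ 0 := cast_or hp ha hb
  have hu' : (a' : ZMod p) ≠ 0 ∨ ((b' : ℤ) : ZMod p) ≠ 0 := cast_or hp ha' hb'
  have hsub : (univ : Finset (ZMod p)).filter (fun x => ((a : ZMod p) * x + (b : ZMod p)) *
      ((a' : ZMod p) * x + (b' : ZMod p)) = 0) ⊆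
      (univ : Finset (ZMod p)).filter (fun x => (a : ZMod p) * x + (b : ZMod p) = 0) ∪
      (univ : Finset (ZMod p)).filter (fun x => (a' : ZMod p) * x + (b' : ZMod p) = 0) := by
    intro x hx
    rw [mem_filter] at hx
    rw [mem_union, mem_filter, mem_filter]
    rcases mul_eq_zero.1 hx.2 with h | h
    · exact Or.inl ⟨mem_univ _, h⟩
    · exact Or.inr ⟨mem_univ _, h⟩
  by_cases hp2 : p = 2
  · subst hp2
    have e1 : (a : ZMod 2) = 1 := by
      exact zmod2_eq_one _ (prime_cast_ne_zero hp ha (Ne.symm ha2))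
    have e2 : (a' : ZMod 2) = 1 := by
      exact zmod2_eq_one _ (prime_cast_ne_zero hp ha' (Ne.symm ha2'))
    have e3 : ((b : ℤ) : ZMod 2) = ((b' : ℤ) : ZMod 2) := by
      have h1 : (((b - b' : ℤ)) : ZMod 2) = 0 := by
        rw [ZMod.intCast_zmod_eq_zero_iff_dvd]
        exact_mod_cast hR
      push_cast at h1
      exact sub_eq_zero.1 h1
    rw [e1, e2, e3] at hsub
    rw [Finset.union_self] at hsub
    rw [e1, e2, e3]
    have h1 := Finset.card_le_card hsub
    have h2 := card_root_le (p := 2) (u := 1) (w := ((b' : ℤ) : ZMod 2)) (Or.inl one_ne_zero)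
    omega
  · have hp3 : 3 ≤ p := by
      have := hp.two_le
      omega
    have h1 := Finset.card_le_card hsub
    have h2 := Finset.card_union_le
      ((univ : Finset (ZMod p)).filter (fun x => (a : ZMod p) * x + (b : ZMod p) = 0))
      ((univ : Finset (ZMod p)).filter (fun x => (a' : ZMod p) * x + (b' : ZMod p) = 0))
    have h3 := card_root_le hu
    have h4 := card_root_le hu'
    omega

lemma twoF_two_le (p : ℕ) (hp : p.Prime) (h : ¬ (p : ℤ) ∣ a * a' * (a * b' - a' * b)) :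
    2 ≤ rhoF (twoF a a' b b') p := by
  classical
  have : Fact p.Prime := ⟨hp⟩
  have : NeZero p := ⟨hp.ne_zero⟩
  rw [rhoF_eq_card hp (twoF a a' b b')
    (fun x => ((a : ZMod p) * x + (b : ZMod p)) * ((a' : ZMod p) * x + (b' : ZMod p)))
    (fun n => twoF_cast n)]
  have h1 : ((a : ZMod p) * a' * (a * b' - a' * b)) ≠ 0 := by
    intro h0
    apply h
    rw [← ZMod.intCast_zmod_eq_zero_iff_dvd]
    push_cast
    exact h0
  have ha0 : (a : ZMod p) ≠ 0 := by
    intro h0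
    apply h1
    rw [h0]
    ring
  have ha0' : (a' : ZMod p) ≠ 0 := by
    intro h0
    apply h1
    rw [h0]
    ring
  have hR0 : ((a : ZMod p) * b' - a' * b) ≠ 0 := right_ne_zero_of_mul h1
  have hne : -(b : ZMod p) / a ≠ -(b' : ZMod p) / a' := by
    intro h0
    apply hR0
    rw [div_eq_div_iff ha0 ha0'] at h0
    linear_combination h0
  have hsub : ({-(b : ZMod p) / a, -(b' : ZMod p) / a'} : Finset (ZMod p)) ⊆
      (univ : Finset (ZMod p)).filter (fun x => ((a : ZMod p) * x + (b : ZMod p)) *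
      ((a' : ZMod p) * x + (b' : ZMod p)) = 0) := by
    intro x hx
    rw [mem_insert, mem_singleton] at hx
    rw [mem_filter]
    refine ⟨mem_univ _, ?_⟩
    rcases hx with rfl | rfl
    · have : (a : ZMod p) * (-(b : ZMod p) / a) + b = 0 := by
        field_simp
        ring
      rw [this, zero_mul]
    · have : (a' : ZMod p) * (-(b' : ZMod p) / a') + b' = 0 := by
        field_simp
        ring
      rw [this, mul_zero]
  have h2 := Finset.card_le_card hsub
  rw [Finset.card_pair hne] at h2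
  exact h2

end

/-- The number of `n` for which both forms have no small prime factor. -/
theorem two_forms_count_le {a a' : ℕ} {b b' : ℤ} (ha : a.Prime) (ha' : a'.Prime)
    (ha2 : a ≠ 2) (ha2' : a' ≠ 2) (hne : a ≠ a') (hb : ((b : ℤ) : ZMod a) ≠ 0)
    (hb' : ((b' : ℤ) : ZMod a') ≠ 0) (hbb : (2 : ℤ) ∣ b - b')
    (hR : (a : ℤ) * b' - a' * b ≠ 0) (M H y : ℕ) (hy : 1 ≤ y) :
    (((Ico M (M + H)).filter
      (fun n => Nat.Coprime (primorial (y * y)) (twoF a a' b b' n).natAbs)).card : ℝ) ≤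
      H * cfac (a * a' * ((a : ℤ) * b' - a' * b).natAbs) /
        (∑ u ∈ Icc 1 y, (1 : ℝ) / u) ^ 2 + (y : ℝ) ^ 12 := by
  set B : ℕ := a * a' * ((a : ℤ) * b' - a' * b).natAbs with hB
  have hBdvd : ∀ p : ℕ, p ∣ B ↔ (p : ℤ) ∣ a * a' * (a * b' - a' * b) := by
    intro p
    rw [Int.natCast_dvd, Int.natAbs_mul, Int.natAbs_mul, Int.natAbs_natCast, Int.natAbs_natCast]
  apply form_count_le (twoF a a' b b') (twoF_cong a a' b b') M H (twoF_one_le ha ha' hne)
    (twoF_lt ha ha' ha2 ha2' hb hb' hbb) (B := B)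
  · rw [hB]
    exact Nat.mul_ne_zero (Nat.mul_ne_zero ha.ne_zero ha'.ne_zero) (Int.natAbs_ne_zero.2 hR)
  · rw [hBdvd]
    apply Dvd.dvd.mul_left
    have e1 : Odd (a : ℤ) := by exact_mod_cast ha.odd_of_ne_two ha2
    have e2 : Odd (a' : ℤ) := by exact_mod_cast ha'.odd_of_ne_two ha2'
    obtain ⟨u, hu⟩ := e1
    obtain ⟨v, hv⟩ := e2
    obtain ⟨w, hw⟩ := hbb
    refine ⟨u * b' - v * b - w, ?_⟩
    have : b = b' + 2 * w := by linarith
    rw [hu, hv, this]
    ring
  · intro p hp hpB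
    apply twoF_two_le p hp
    rwa [← hBdvd]
  · exact hy

end

end Pool.Agent.Lib_helper72.AP
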