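import Mathlib
import Pool.Agent.Lib_helper72.AP.TwoForms
import Pool.Agent.Lib_helper72.AP.CfacMore

set_option autoImplicit false

/-!
The average of `cfac |k - k'| ^ 2` over pairs of primes `k, k'` in `(A, 4A]`.
-/

namespace Pool.Agent.Lib_helper72.AP

open Finset Filter

noncomputable section

/-- `n (n + h)`. -/
def pairF (h : ℕ) (n : ℕ) : ℤ := (n : ℤ) * (n + h)

lemma pairF_cong (h : ℕ) : Cong (pairF h) := by
  intro d x y hxy
  have h1 : (x : ℤ) ≡ y [ZMOD d] := by exact_mod_cast hxy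
  have h2 : pairF h x ≡ pairF h y [ZMOD d] := by
    unfold pairF
    exact Int.ModEq.mul h1 (h1.add_right _)
  exact h2.dvd_iff

lemma pairF_cast {h p : ℕ} (n : ℕ) : ((pairF h n : ℤ) : ZMod p) =
    ((1 : ZMod p) * n + 0) * ((1 : ZMod p) * n + (h : ZMod p)) := by
  unfold pairF
  push_cast
  ring

lemma pairF_one_le (h p : ℕ) (hp : p.Prime) : 1 ≤ rhoF (pairF h) p := by
  rw [rhoF]
  apply Finset.card_pos.2
  refine ⟨0, ?_⟩
  rw [mem_filter, mem_range]
  refine ⟨hp.pos, ?_⟩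
  simp [pairF]

lemma pairF_lt {h : ℕ} (hh : 2 ∣ h) (p : ℕ) (hp : p.Prime) : rhoF (pairF h) p < p := by
  classical
  have : Fact p.Prime := ⟨hp⟩
  have : NeZero p := ⟨hp.ne_zero⟩
  rw [rhoF_eq_card hp (pairF h)
    (fun x => ((1 : ZMod p) * x + 0) * ((1 : ZMod p) * x + (h : ZMod p)))
    (fun n => pairF_cast n)]
  have hsub : (univ : Finset (ZMod p)).filter (fun x => ((1 : ZMod p) * x + 0) *
      ((1 : ZMod p) * x + (h : ZMod p)) = 0) ⊆
      (univ : Finset (ZMod p)).filter (fun x => (1 : ZMod p) * x + 0 = 0) ∪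
      (univ : Finset (ZMod p)).filter (fun x => (1 : ZMod p) * x + (h : ZMod p) = 0) := by
    intro x hx
    rw [mem_filter] at hx
    rw [mem_union, mem_filter, mem_filter]
    rcases mul_eq_zero.1 hx.2 with h | h
    · exact Or.inl ⟨mem_univ _, h⟩
    · exact Or.inr ⟨mem_univ _, h⟩
  have h1 := Finset.card_le_card hsub
  have h3 := card_root_le (p := p) (u := 1) (w := 0) (Or.inl one_ne_zero)
  have h4 := card_root_le (p := p) (u := 1) (w := (h : ZMod p)) (Or.inl one_ne_zero)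
  by_cases hp2 : p = 2
  · subst hp2
    have e3 : (h : ZMod 2) = 0 := (ZMod.natCast_eq_zero_iff h 2).2 hh
    rw [e3, Finset.union_self] at hsub
    rw [e3]
    have h1 := Finset.card_le_card hsub
    omega
  · have hp3 : 3 ≤ p := by
      have := hp.two_le
      omega
    have h2 := Finset.card_union_le
      ((univ : Finset (ZMod p)).filter (fun x => (1 : ZMod p) * x + 0 = 0))
      ((univ : Finset (ZMod p)).filter (fun x => (1 : ZMod p) * x + (h : ZMod p) = 0))
    omega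

lemma pairF_two_le {h p : ℕ} (hp : p.Prime) (hph : ¬ p ∣ h) : 2 ≤ rhoF (pairF h) p := by
  classical
  have : Fact p.Prime := ⟨hp⟩
  have : NeZero p := ⟨hp.ne_zero⟩
  rw [rhoF_eq_card hp (pairF h)
    (fun x => ((1 : ZMod p) * x + 0) * ((1 : ZMod p) * x + (h : ZMod p)))
    (fun n => pairF_cast n)]
  have h0 : (h : ZMod p) ≠ 0 := fun h0 => hph ((ZMod.natCast_eq_zero_iff h p).1 h0)
  have hne : (0 : ZMod p) ≠ -(h : ZMod p) := fun h1 => h0 (neg_eq_zero.1 h1.symm)
  have hsub : ({0, -(h : ZMod p)} : Finset (ZMod p)) ⊆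
      (univ : Finset (ZMod p)).filter (fun x => ((1 : ZMod p) * x + 0) *
      ((1 : ZMod p) * x + (h : ZMod p)) = 0) := by
    intro x hx
    rw [mem_insert, mem_singleton] at hx
    rw [mem_filter]
    refine ⟨mem_univ _, ?_⟩
    rcases hx with rfl | rfl <;> ring
  have h2 := Finset.card_le_card hsub
  rw [Finset.card_pair hne] at h2
  exact h2

theorem pair_form_count_le {h : ℕ} (hh0 : h ≠ 0) (hh : 2 ∣ h) (M H y : ℕ) (hy : 1 ≤ y) :
    (((Ico M (M + H)).filter
      (fun n => Nat.Coprime (primorial (y * y)) (pairF h n).natAbs)).card : ℝ) ≤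
      H * cfac h / (∑ u ∈ Icc 1 y, (1 : ℝ) / u) ^ 2 + (y : ℝ) ^ 12 :=
  form_count_le (pairF h) (pairF_cong h) M H (pairF_one_le h) (pairF_lt hh) hh0 hh
    (fun _ hp hph => pairF_two_le hp hph) y hy

/-- A convenient sieve level. -/
lemma exists_level (N : ℕ) (hN : 1 ≤ N) : ∃ y : ℕ, 1 ≤ y ∧ y * y ≤ N ∧
    (y : ℝ) ^ 12 ≤ (N : ℝ) ^ (12 / 13 : ℝ) ∧
    Real.log N / 13 ≤ ∑ u ∈ Icc 1 y, (1 : ℝ) / u := by
  have hNr : (1 : ℝ) ≤ N := by exact_mod_cast hN
  have hN0 : (0 : ℝ) ≤ N := by linarith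
  set x : ℝ := (N : ℝ) ^ (1 / 13 : ℝ) with hx
  have hx1 : 1 ≤ x := Real.one_le_rpow hNr (by norm_num)
  refine ⟨⌊x⌋₊, ?_, ?_, ?_, ?_⟩
  · exact Nat.le_floor (by exact_mod_cast hx1)
  · have h1 : (⌊x⌋₊ : ℝ) ≤ x := Nat.floor_le (by linarith)
    have h2 : (⌊x⌋₊ : ℝ) * ⌊x⌋₊ ≤ N := by
      calc (⌊x⌋₊ : ℝ) * ⌊x⌋₊ ≤ x * x := by gcongr
        _ = (N : ℝ) ^ (2 / 13 : ℝ) := by
          rw [hx, ← Real.rpow_add (by linarith)]
          norm_num
        _ ≤ (N : ℝ) ^ (1 : ℝ) := Real.rpow_le_rpow_of_exponent_le hNr (by norm_num)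
        _ = N := Real.rpow_one _
    exact_mod_cast h2
  · have h1 : (⌊x⌋₊ : ℝ) ≤ x := Nat.floor_le (by linarith)
    calc (⌊x⌋₊ : ℝ) ^ 12 ≤ x ^ 12 := by gcongr
      _ = (N : ℝ) ^ (12 / 13 : ℝ) := by
        rw [hx, ← Real.rpow_natCast, ← Real.rpow_mul hN0]
        norm_num
  · have h1 : x ≤ (⌊x⌋₊ : ℝ) + 1 := (Nat.lt_floor_add_one x).le
    have h2 := log_add_one_le_harmonic ⌊x⌋₊
    have h3 : ((harmonic ⌊x⌋₊ : ℚ) : ℝ) = ∑ u ∈ Icc 1 ⌊x⌋₊, (1 : ℝ) / u := by
      rw [harmonic_eq_sum_Icc]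
      push_cast
      simp only [one_div]
    rw [← h3]
    have h4 : Real.log N / 13 = Real.log x := by
      rw [hx, Real.log_rpow (by linarith)]
      ring
    rw [h4]
    refine le_trans (Real.log_le_log (by linarith) ?_) h2
    push_cast
    exact h1

/-- The primes in `(A, 4A]`. -/
def QQ (A : ℕ) : Finset ℕ := (Ioc A (4 * A)).filter Nat.Prime

lemma coprime_primorial_of_prime {p z : ℕ} (hp : p.Prime) (hz : z < p) :
    Nat.Coprime (primorial z) p := by
  rw [Nat.coprime_comm, Nat.Prime.coprime_iff_not_dvd hp]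
  intro h
  rw [primorial, Prime.dvd_finsetProd_iff hp.prime] at h
  obtain ⟨q, hq, hpq⟩ := h
  rw [mem_filter, mem_range] at hq
  have := (Nat.prime_dvd_prime_iff_eq hp hq.2).1 hpq
  omega

lemma pair_count_QQ {A h : ℕ} (hA : 2 ≤ A) (hh : h ≠ 0) :
    (((QQ A).filter (fun k => k + h ∈ QQ A)).card : ℝ) ≤
      507 * A * cfac h / (Real.log A) ^ 2 + (A : ℝ) ^ (12 / 13 : ℝ) := by
  classical
  have hAr : (2 : ℝ) ≤ A := by exact_mod_cast hA
  by_cases h2 : 2 ∣ h
  · obtain ⟨y, hy1, hy2, hy3, hy4⟩ := exists_level A (by omega)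
    have hlog : 0 < Real.log A := Real.log_pos (by linarith)
    have h1 := pair_form_count_le hh h2 (A + 1) (3 * A) y hy1
    have hsub : (QQ A).filter (fun k => k + h ∈ QQ A) ⊆
        (Ico (A + 1) (A + 1 + 3 * A)).filter
          (fun n => Nat.Coprime (primorial (y * y)) (pairF h n).natAbs) := by
      intro k hk
      rw [mem_filter, QQ, mem_filter, mem_Ioc] at hk
      obtain ⟨⟨hk1, hk2⟩, hk3⟩ := hk
      rw [mem_filter, mem_Ioc] at hk3
      rw [mem_filter, mem_Ico]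
      refine ⟨⟨by omega, by omega⟩, ?_⟩
      have e : (pairF h k).natAbs = k * (k + h) := by
        unfold pairF
        rw [Int.natAbs_mul, Int.natAbs_natCast]
        norm_cast
      rw [e]
      exact Nat.Coprime.mul_right (coprime_primorial_of_prime hk2 (by omega))
        (coprime_primorial_of_prime hk3.2 (by omega))
    have h3 : (((QQ A).filter (fun k => k + h ∈ QQ A)).card : ℝ) ≤
        (((Ico (A + 1) (A + 1 + 3 * A)).filter
          (fun n => Nat.Coprime (primorial (y * y)) (pairF h n).natAbs)).card : ℝ) := by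
      exact_mod_cast Finset.card_le_card hsub
    refine h3.trans (h1.trans ?_)
    have h4 : 0 < Real.log A / 13 := by positivity
    have h5 : ((3 * A : ℕ) : ℝ) * cfac h / (∑ u ∈ Icc 1 y, (1 : ℝ) / u) ^ 2 ≤
        507 * A * cfac h / (Real.log A) ^ 2 := by
      have e1 : 507 * A * cfac h / (Real.log A) ^ 2 =
          ((3 * A : ℕ) : ℝ) * cfac h / (Real.log A / 13) ^ 2 := by
        push_cast
        field_simp
        ring
      rw [e1]
      have e2 : (0 : ℝ) ≤ ((3 * A : ℕ) : ℝ) * cfac h :=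
        mul_nonneg (Nat.cast_nonneg _) (cfac_nonneg h)
      gcongr
    linarith
  · have h1 : (QQ A).filter (fun k => k + h ∈ QQ A) = ∅ := by
      rw [Finset.filter_eq_empty_iff]
      intro k hk hk2
      rw [QQ, mem_filter, mem_Ioc] at hk hk2
      have h3 := hk.2.eq_two_or_odd
      have h4 := hk2.2.eq_two_or_odd
      omega
    rw [h1, Finset.card_empty, Nat.cast_zero]
    have := cfac_nonneg h
    positivity

/-- Powers against logarithms. -/
lemma eventually_rpow_le_div_log (k : ℕ) :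
    ∀ᶠ N : ℕ in atTop, (N : ℝ) ^ (12 / 13 : ℝ) ≤ N / (Real.log N) ^ k := by
  have h1 : Tendsto (fun x : ℝ => (Real.log x) ^ (k : ℝ) / x ^ (1 / 13 : ℝ)) atTop (nhds 0) :=
    (isLittleO_log_rpow_rpow_atTop (k : ℝ) (by norm_num : (0 : ℝ) < 1 / 13)).tendsto_div_nhds_zero
  have h2 := h1.comp tendsto_natCast_atTop_atTop (α := ℕ)
  have h3 : ∀ᶠ N : ℕ in atTop, (Real.log N) ^ (k : ℝ) / (N : ℝ) ^ (1 / 13 : ℝ) < 1 :=
    h2.eventually (gt_mem_nhds one_pos)
  filter_upwards [h3, eventually_ge_atTop 3] with N hN hN3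
  have hNr : (3 : ℝ) ≤ N := by exact_mod_cast hN3
  have hN0 : (0 : ℝ) < N := by linarith
  have hlog : 0 < Real.log N := Real.log_pos (by linarith)
  rw [Real.rpow_natCast, div_lt_one (by positivity)] at hN
  rw [le_div_iff₀ (by positivity)]
  calc (N : ℝ) ^ (12 / 13 : ℝ) * Real.log N ^ k ≤
        (N : ℝ) ^ (12 / 13 : ℝ) * (N : ℝ) ^ (1 / 13 : ℝ) := by gcongr
    _ = N := by
      rw [← Real.rpow_add hN0]
      norm_num

theorem pair_avg : ∃ C : ℝ, 0 < C ∧ ∃ A₀ : ℕ, ∀ A : ℕ, A₀ ≤ A →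
    ∑ q ∈ (QQ A).offDiag, cfac ((q.1 : ℤ) - (q.2 : ℤ)).natAbs ^ 2 ≤
      C * (A : ℝ) ^ 2 / (Real.log A) ^ 2 := by
  classical
  obtain ⟨A₁, hA₁⟩ := eventually_atTop.1 (eventually_rpow_le_div_log 2)
  have hZ := ZZ_ge_one
  refine ⟨2 * 508 * (16 * ZZ ^ 4 * 3), by positivity, max A₁ 3, ?_⟩
  intro A hA
  have hA3 : 3 ≤ A := (le_max_right _ _).trans hA
  have hAr : (3 : ℝ) ≤ A := by exact_mod_cast hA3
  have hlog : 0 < Real.log A := Real.log_pos (by linarith)
  have hpow := hA₁ A ((le_max_left _ _).trans hA)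
  -- group by difference
  have h1 : ∑ q ∈ (QQ A).offDiag, cfac ((q.1 : ℤ) - (q.2 : ℤ)).natAbs ^ 2 =
      ∑ h ∈ Icc 1 (3 * A), ∑ q ∈ (QQ A).offDiag.filter
        (fun q => ((q.1 : ℤ) - (q.2 : ℤ)).natAbs = h),
        cfac ((q.1 : ℤ) - (q.2 : ℤ)).natAbs ^ 2 := by
    rw [Finset.sum_fiberwise_of_maps_to]
    intro q hq
    rw [mem_offDiag, QQ, mem_filter, mem_filter, mem_Ioc, mem_Ioc] at hq
    rw [mem_Icc]
    omega
  rw [h1]
  have h2 : ∀ h ∈ Icc 1 (3 * A), ∑ q ∈ (QQ A).offDiag.filter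
        (fun q => ((q.1 : ℤ) - (q.2 : ℤ)).natAbs = h),
        cfac ((q.1 : ℤ) - (q.2 : ℤ)).natAbs ^ 2 ≤
      2 * 508 * A / (Real.log A) ^ 2 * cfac h ^ 4 := by
    intro h hh
    rw [mem_Icc] at hh
    have hh0 : h ≠ 0 := by omega
    have e1 : ∑ q ∈ (QQ A).offDiag.filter
        (fun q => ((q.1 : ℤ) - (q.2 : ℤ)).natAbs = h),
        cfac ((q.1 : ℤ) - (q.2 : ℤ)).natAbs ^ 2 =
        ((QQ A).offDiag.filter (fun q => ((q.1 : ℤ) - (q.2 : ℤ)).natAbs = h)).card *
          cfac h ^ 2 := by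
      rw [← nsmul_eq_mul, ← Finset.sum_const]
      apply Finset.sum_congr rfl
      intro q hq
      rw [(mem_filter.1 hq).2]
    have e2 : ((QQ A).offDiag.filter (fun q => ((q.1 : ℤ) - (q.2 : ℤ)).natAbs = h)).card ≤
        2 * ((QQ A).filter (fun k => k + h ∈ QQ A)).card := by
      have e3 : (QQ A).offDiag.filter (fun q => ((q.1 : ℤ) - (q.2 : ℤ)).natAbs = h) ⊆
          ((QQ A).filter (fun k => k + h ∈ QQ A)).image (fun k => (k, k + h)) ∪
          ((QQ A).filter (fun k => k + h ∈ QQ A)).image (fun k => (k + h, k)) := by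
        intro q hq
        rw [mem_filter, mem_offDiag] at hq
        obtain ⟨⟨hq1, hq2, hq3⟩, hq4⟩ := hq
        rw [mem_union, mem_image, mem_image]
        rcases lt_or_gt_of_ne hq3 with h5 | h5
        · left
          have h6 : q.1 + h = q.2 := by omega
          refine ⟨q.1, ?_, ?_⟩
          · rw [mem_filter, h6]
            exact ⟨hq1, hq2⟩
          · rw [h6]
        · right
          have h6 : q.2 + h = q.1 := by omega
          refine ⟨q.2, ?_, ?_⟩
          · rw [mem_filter, h6]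
            exact ⟨hq2, hq1⟩
          · rw [h6]
      have e4 := Finset.card_le_card e3
      have e5 := Finset.card_union_le
        (((QQ A).filter (fun k => k + h ∈ QQ A)).image (fun k => (k, k + h)))
        (((QQ A).filter (fun k => k + h ∈ QQ A)).image (fun k => (k + h, k)))
      have e6 := Finset.card_image_le (s := (QQ A).filter (fun k => k + h ∈ QQ A))
        (f := fun k => (k, k + h))
      have e7 := Finset.card_image_le (s := (QQ A).filter (fun k => k + h ∈ QQ A))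
        (f := fun k => (k + h, k))
      omega
    have e8 := pair_count_QQ (A := A) (h := h) (by omega) hh0
    have hc := cfac_ge_two hh0
    have e9 : (((QQ A).filter (fun k => k + h ∈ QQ A)).card : ℝ) ≤
        508 * A / (Real.log A) ^ 2 * cfac h := by
      refine e8.trans ?_
      have e10 : (A : ℝ) / (Real.log A) ^ 2 ≤ A / (Real.log A) ^ 2 * cfac h := by
        apply le_mul_of_one_le_right (by positivity)
        linarith
      calc 507 * A * cfac h / (Real.log A) ^ 2 + (A : ℝ) ^ (12 / 13 : ℝ) ≤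
            507 * A * cfac h / (Real.log A) ^ 2 + A / (Real.log A) ^ 2 * cfac h := by linarith
        _ = 508 * A / (Real.log A) ^ 2 * cfac h := by ring
    rw [e1]
    have e2r : (((QQ A).offDiag.filter
        (fun q => ((q.1 : ℤ) - (q.2 : ℤ)).natAbs = h)).card : ℝ) ≤
        2 * (((QQ A).filter (fun k => k + h ∈ QQ A)).card : ℝ) := by exact_mod_cast e2
    have hc3 : cfac h * cfac h ^ 2 ≤ cfac h ^ 4 := by
      have e11 : (0 : ℝ) ≤ cfac h ^ 3 := by positivity
      nlinarith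
    calc (((QQ A).offDiag.filter
        (fun q => ((q.1 : ℤ) - (q.2 : ℤ)).natAbs = h)).card : ℝ) * cfac h ^ 2 ≤
          (2 * (508 * A / (Real.log A) ^ 2 * cfac h)) * cfac h ^ 2 := by
          apply mul_le_mul_of_nonneg_right _ (by positivity)
          linarith
      _ = 2 * 508 * A / (Real.log A) ^ 2 * (cfac h * cfac h ^ 2) := by ring
      _ ≤ 2 * 508 * A / (Real.log A) ^ 2 * cfac h ^ 4 := by
          apply mul_le_mul_of_nonneg_left hc3 (by positivity)
  refine (Finset.sum_le_sum h2).trans ?_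
  rw [← Finset.mul_sum]
  have h3 := sum_cfac_fourth_le (3 * A)
  calc 2 * 508 * A / (Real.log A) ^ 2 * ∑ h ∈ Icc 1 (3 * A), cfac h ^ 4 ≤
        2 * 508 * A / (Real.log A) ^ 2 * (16 * ZZ ^ 4 * ((3 * A : ℕ) : ℝ)) :=
        mul_le_mul_of_nonneg_left h3 (by positivity)
    _ = 2 * 508 * (16 * ZZ ^ 4 * 3) * (A : ℝ) ^ 2 / (Real.log A) ^ 2 := by
        push_cast
        ring

end

end Pool.Agent.Lib_helper72.AP
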