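import Mathlib
import Pool.Agent.Lib_helper72.AP.PairAvg
import Pool.Agent.Lib_helper72.AP.FirstMoment

set_option autoImplicit false

/-!
Cauchy–Schwarz and the second moment for a family of linear forms `k n + b k`.
-/

namespace Pool.Agent.Lib_helper72.AP

open Finset Filter

noncomputable section

/-- `k n + b k` is a prime in `(X, 4X]`. -/
def good (X : ℕ) (b : ℕ → ℤ) (k n : ℕ) : Prop :=
  ∃ p : ℕ, p.Prime ∧ X < p ∧ p ≤ 4 * X ∧ (p : ℤ) = k * n + b k

open Classical in
/-- The number of `k ∈ P` for which `k n + b k` is a prime in `(X, 4X]`. -/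
def RR (X : ℕ) (b : ℕ → ℤ) (P : Finset ℕ) (n : ℕ) : ℕ := (P.filter (fun k => good X b k n)).card

open Classical in
/-- The first moment. -/
lemma first_le {X N : ℕ} {b : ℕ → ℤ} {c : ℤ} {P : Finset ℕ} (hP : ∀ k ∈ P, 0 < k)
    (hbc : ∀ k ∈ P, ((b k : ℤ) : ZMod k) = (c : ZMod k))
    (hlow : ∀ k ∈ P, b k ≤ X) (hup : ∀ k ∈ P, (4 * X : ℤ) - b k ≤ k * N) :
    ∑ k ∈ P, ((prC X c k).card : ℝ) ≤ ∑ n ∈ Icc 1 N, (RR X b P n : ℝ) := by
  have h1 : ∑ n ∈ Icc 1 N, (RR X b P n : ℝ) =
      ∑ k ∈ P, (((Icc 1 N).filter (fun n => good X b k n)).card : ℝ) := by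
    simp only [RR, Finset.card_filter, Nat.cast_sum]
    rw [Finset.sum_comm]
  rw [h1]
  apply Finset.sum_le_sum
  intro k hk
  have hk0 : 0 < k := hP k hk
  have hk0' : (0 : ℤ) < k := by exact_mod_cast hk0
  -- the map p ↦ (p - b k)/k
  have h2 : (prC X c k).card ≤ ((Icc 1 N).filter (fun n => good X b k n)).card := by
    apply Finset.card_le_card_of_injOn (fun (p : ℕ) => (((p : ℤ) - b k) / k).toNat)
    · intro p hp
      rw [Finset.mem_coe, prC, mem_filter, mem_Ioc] at hp
      obtain ⟨⟨hp1, hp2⟩, hp3, hp4⟩ := hp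
      have hdvd : (k : ℤ) ∣ (p : ℤ) - b k := by
        rw [← ZMod.intCast_zmod_eq_zero_iff_dvd]
        push_cast
        rw [hp4, hbc k hk, sub_self]
      obtain ⟨q, hq⟩ := hdvd
      have hq1 : ((p : ℤ) - b k) / k = q := by
        rw [hq]
        exact Int.mul_ediv_cancel_left q hk0'.ne'
      have hpX : (X : ℤ) < p := by exact_mod_cast hp1
      have hpX2 : (p : ℤ) ≤ 4 * X := by exact_mod_cast hp2
      have hl := hlow k hk
      have hu := hup k hk
      have hq0 : 0 < q := by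
        have : 0 < (k : ℤ) * q := by rw [← hq]; linarith
        exact pos_of_mul_pos_right this hk0'.le
      have hqN : q ≤ N := by
        have : (k : ℤ) * q ≤ k * N := by rw [← hq]; linarith
        exact le_of_mul_le_mul_left this hk0'
      rw [Finset.mem_coe, mem_filter, mem_Icc]
      simp only [hq1]
      refine ⟨⟨by omega, by omega⟩, p, hp3, hp1, hp2, ?_⟩
      rw [Int.toNat_of_nonneg hq0.le, ← hq]
      ring
    · intro p hp p' hp' hpp
      rw [Finset.mem_coe, prC, mem_filter, mem_Ioc] at hp hp'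
      obtain ⟨⟨hp1, hp2⟩, hp3, hp4⟩ := hp
      obtain ⟨⟨hp1', hp2'⟩, hp3', hp4'⟩ := hp'
      have hdvd : (k : ℤ) ∣ (p : ℤ) - b k := by
        rw [← ZMod.intCast_zmod_eq_zero_iff_dvd]
        push_cast
        rw [hp4, hbc k hk, sub_self]
      have hdvd' : (k : ℤ) ∣ (p' : ℤ) - b k := by
        rw [← ZMod.intCast_zmod_eq_zero_iff_dvd]
        push_cast
        rw [hp4', hbc k hk, sub_self]
      obtain ⟨q, hq⟩ := hdvd
      obtain ⟨q', hq'⟩ := hdvd'
      have hq1 : ((p : ℤ) - b k) / k = q := by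
        rw [hq]
        exact Int.mul_ediv_cancel_left q hk0'.ne'
      have hq1' : ((p' : ℤ) - b k) / k = q' := by
        rw [hq']
        exact Int.mul_ediv_cancel_left q' hk0'.ne'
      have hl := hlow k hk
      have hpX : (X : ℤ) < p := by exact_mod_cast hp1
      have hpX' : (X : ℤ) < p' := by exact_mod_cast hp1'
      have hq0 : 0 < q := by
        have : 0 < (k : ℤ) * q := by rw [← hq]; linarith
        exact pos_of_mul_pos_right this hk0'.le
      have hq0' : 0 < q' := by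
        have : 0 < (k : ℤ) * q' := by rw [← hq']; linarith
        exact pos_of_mul_pos_right this hk0'.le
      simp only [hq1, hq1'] at hpp
      have : q = q' := by omega
      rw [this, ← hq'] at hq
      omega
  exact_mod_cast h2

open Classical in
/-- The set of `n ≤ N` for which some `k n + b k` is a prime in `(X, 4X]`. -/
def goodSet (X : ℕ) (b : ℕ → ℤ) (P : Finset ℕ) (N : ℕ) : Finset ℕ :=
  (Icc 1 N).filter (fun n => ∃ k ∈ P, good X b k n)

open Classical in
lemma cauchy_step (X N : ℕ) (b : ℕ → ℤ) (P : Finset ℕ) :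
    (∑ n ∈ Icc 1 N, (RR X b P n : ℝ)) ^ 2 ≤
      (goodSet X b P N).card * ∑ n ∈ Icc 1 N, (RR X b P n : ℝ) ^ 2 := by
  have h1 : ∑ n ∈ Icc 1 N, (RR X b P n : ℝ) = ∑ n ∈ goodSet X b P N, (RR X b P n : ℝ) := by
    rw [goodSet, Finset.sum_filter]
    apply Finset.sum_congr rfl
    intro n _
    split_ifs with h
    · rfl
    · have : RR X b P n = 0 := by
        rw [RR, Finset.card_eq_zero, Finset.filter_eq_empty_iff]
        intro k hk hg
        exact h ⟨k, hk, hg⟩
      rw [this, Nat.cast_zero]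
  rw [h1]
  refine (sq_sum_le_card_mul_sum_sq (s := goodSet X b P N) (f := fun n => (RR X b P n : ℝ))).trans ?_
  apply mul_le_mul_of_nonneg_left _ (Nat.cast_nonneg _)
  apply Finset.sum_le_sum_of_subset_of_nonneg
  · exact Finset.filter_subset _ _
  · intro i _ _
    positivity

open Classical in
lemma second_expand (X N : ℕ) (b : ℕ → ℤ) (P : Finset ℕ) :
    ∑ n ∈ Icc 1 N, (RR X b P n : ℝ) ^ 2 ≤ P.card * N +
      ∑ q ∈ P.offDiag, (((Icc 1 N).filter (fun n => good X b q.1 n ∧ good X b q.2 n)).card : ℝ) := by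
  have h1 : ∀ n, (RR X b P n : ℝ) ^ 2 =
      ∑ q ∈ P ×ˢ P, if good X b q.1 n ∧ good X b q.2 n then (1 : ℝ) else 0 := by
    intro n
    rw [RR, Finset.card_filter, Nat.cast_sum, sq, Finset.sum_mul_sum, ← Finset.sum_product']
    apply Finset.sum_congr rfl
    intro q _
    by_cases h1 : good X b q.1 n <;> by_cases h2 : good X b q.2 n <;> simp [h1, h2]
  simp only [h1]
  rw [Finset.sum_comm, ← Finset.diag_union_offDiag, Finset.sum_union (Finset.disjoint_diag_offDiag _)]
  apply add_le_add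
  · rw [Finset.sum_diag]
    have : ∀ k ∈ P, ∑ n ∈ Icc 1 N, (if good X b k n ∧ good X b k n then (1 : ℝ) else 0) ≤ N := by
      intro k _
      rw [← Finset.sum_filter, Finset.sum_const, nsmul_eq_mul, mul_one]
      have h2 := Finset.card_filter_le (Icc 1 N) (fun n => good X b k n ∧ good X b k n)
      rw [Nat.card_Icc, Nat.add_sub_cancel] at h2
      exact_mod_cast h2
    refine (Finset.sum_le_sum this).trans (le_of_eq ?_)
    rw [Finset.sum_const, nsmul_eq_mul]
  · apply le_of_eq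
    apply Finset.sum_congr rfl
    intro q _
    rw [← Finset.sum_filter, Finset.sum_const, nsmul_eq_mul, mul_one]

open Classical in
/-- The correlation of two forms. -/
lemma pair_good_le {X N : ℕ} {b : ℕ → ℤ} {k k' : ℕ} (hN : 2 ≤ N) (hNX : N ≤ X) (hk : k.Prime)
    (hk' : k'.Prime) (hk2 : k ≠ 2) (hk2' : k' ≠ 2) (hne : k ≠ k')
    (hb : ((b k : ℤ) : ZMod k) ≠ 0) (hb' : ((b k' : ℤ) : ZMod k') ≠ 0)
    (hbb : (2 : ℤ) ∣ b k - b k') (hR : (k : ℤ) * b k' - k' * b k ≠ 0) :
    (((Icc 1 N).filter (fun n => good X b k n ∧ good X b k' n)).card : ℝ) ≤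
      381 * N * cfac ((k : ℤ) * b k' - k' * b k).natAbs / (Real.log N) ^ 2 +
        (N : ℝ) ^ (12 / 13 : ℝ) := by
  obtain ⟨y, hy1, hy2, hy3, hy4⟩ := exists_level N (by omega)
  have hNr : (2 : ℝ) ≤ N := by exact_mod_cast hN
  have hlog : 0 < Real.log N := Real.log_pos (by linarith)
  have h1 := two_forms_count_le hk hk' hk2 hk2' hne hb hb' hbb hR 1 N y hy1
  have hsub : (Icc 1 N).filter (fun n => good X b k n ∧ good X b k' n) ⊆
      (Ico 1 (1 + N)).filter
      (fun n => Nat.Coprime (primorial (y * y)) (twoF k k' (b k) (b k') n).natAbs) := by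
    intro n hn
    rw [mem_filter, mem_Icc] at hn
    obtain ⟨⟨hn1, hn2⟩, ⟨p, hp, hpX, _, hpn⟩, ⟨p', hp', hpX', _, hpn'⟩⟩ := hn
    rw [mem_filter, mem_Ico]
    refine ⟨⟨by omega, by omega⟩, ?_⟩
    have e : (twoF k k' (b k) (b k') n).natAbs = p * p' := by
      unfold twoF
      rw [← hpn, ← hpn', Int.natAbs_mul, Int.natAbs_natCast, Int.natAbs_natCast]
    rw [e]
    exact Nat.Coprime.mul_right (coprime_primorial_of_prime hp (by omega))
      (coprime_primorial_of_prime hp' (by omega))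
  have h3 : (((Icc 1 N).filter (fun n => good X b k n ∧ good X b k' n)).card : ℝ) ≤
      (((Ico 1 (1 + N)).filter
      (fun n => Nat.Coprime (primorial (y * y)) (twoF k k' (b k) (b k') n).natAbs)).card : ℝ) := by
    exact_mod_cast Finset.card_le_card hsub
  refine h3.trans (h1.trans ?_)
  set D : ℕ := ((k : ℤ) * b k' - k' * b k).natAbs with hD
  have hc : cfac (k * k' * D) ≤ 9 / 4 * cfac D := by
    have e1 := cfac_mul_le (k * k') D
    have e2 := cfac_mul_le k k'
    have e3 := cfac_prime_le hk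
    have e4 := cfac_prime_le hk'
    have e5 := cfac_nonneg k
    have e6 := cfac_nonneg k'
    have e7 := cfac_nonneg D
    have e8 : cfac (k * k') ≤ 9 / 2 := by nlinarith
    nlinarith
  have h5 : (N : ℝ) * cfac (k * k' * D) / (∑ u ∈ Icc 1 y, (1 : ℝ) / u) ^ 2 ≤
      381 * N * cfac D / (Real.log N) ^ 2 := by
    have h4 : 0 < Real.log N / 13 := by positivity
    have e2 : (0 : ℝ) ≤ (N : ℝ) * cfac (k * k' * D) :=
      mul_nonneg (Nat.cast_nonneg _) (cfac_nonneg _)
    have e7 := cfac_nonneg D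
    calc (N : ℝ) * cfac (k * k' * D) / (∑ u ∈ Icc 1 y, (1 : ℝ) / u) ^ 2 ≤
          N * cfac (k * k' * D) / (Real.log N / 13) ^ 2 := by gcongr
      _ ≤ N * (9 / 4 * cfac D) / (Real.log N / 13) ^ 2 := by gcongr
      _ = (169 * 9 / 4) * (N * cfac D) / (Real.log N) ^ 2 := by
        field_simp
        ring
      _ ≤ 381 * (N * cfac D) / (Real.log N) ^ 2 := by
        gcongr
        norm_num
      _ = _ := by ring
  linarith

end

end Pool.Agent.Lib_helper72.AP
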