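import Mathlib
import Pool.Agent.Lib_helper72.AP.SecondMoment

set_option autoImplicit false

/-!
Assembly of the first and second moments: a positive proportion of `n ≤ N` is such that
`k n + b k` is prime for some `k ∈ P`.
-/

namespace Pool.Agent.Lib_helper72.AP

open Finset Filter

noncomputable section

lemma QQ_card_le (A : ℕ) : ((QQ A).card : ℝ) ≤ 3 * A := by
  have h1 := Finset.card_filter_le (Ioc A (4 * A)) Nat.Prime
  rw [Nat.card_Ioc] at h1
  have h2 : (QQ A).card ≤ 3 * A := by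
    rw [QQ]
    omega
  exact_mod_cast h2

lemma QQ_card_ge {A : ℕ} (hA : 1 ≤ A) (h80 : 80 * Real.log ((4 * A : ℕ) : ℝ) ≤ Real.sqrt A) :
    (A : ℝ) ≤ (QQ A).card * Real.log ((4 * A : ℕ) : ℝ) := by
  have hAr : (1 : ℝ) ≤ A := by exact_mod_cast hA
  have hlog1 : 1 ≤ Real.log ((4 * A : ℕ) : ℝ) := by
    have h1 : Real.log 4 ≤ Real.log ((4 * A : ℕ) : ℝ) := by
      apply Real.log_le_log (by norm_num)
      push_cast
      linarith
    have h4 : Real.log 4 = 2 * Real.log 2 := by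
      rw [show (4 : ℝ) = 2 ^ 2 by norm_num, Real.log_pow]
      norm_num
    have := Real.log_two_gt_d9
    linarith
  have ht1 : 1 ≤ Real.sqrt (Real.log ((4 * A : ℕ) : ℝ)) := Real.one_le_sqrt.2 hlog1
  have hsq : Real.sqrt (Real.log ((4 * A : ℕ) : ℝ)) ^ 2 = Real.log ((4 * A : ℕ) : ℝ) :=
    Real.sq_sqrt (by linarith)
  have h1 := theta_diff_ge (X := A) hA ht1 (le_of_eq hsq.symm) (by rw [hsq]; exact h80)
  rw [← theta_sub] at h1
  refine h1.trans ?_
  rw [← nsmul_eq_mul, ← Finset.sum_const, QQ]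
  apply Finset.sum_le_sum
  intro p hp
  rw [mem_filter, mem_Ioc] at hp
  apply Real.log_le_log
  · exact_mod_cast hp.2.pos
  · exact_mod_cast hp.1.2

theorem assembly {A X N : ℕ} {b : ℕ → ℤ} {c : ℤ} {P : Finset ℕ} {t E : ℝ}
    (hA : 4 ≤ A) (hX : (20 * A ^ 3) ^ 3 ≤ X) (hN : 3 ≤ N) (hNX : N ≤ X)
    (ht1 : 1 ≤ t) (htA : t ^ 10 = A) (hy : Real.log ((4 * X : ℕ) : ℝ) ≤ t ^ 2)
    (hPQ : P ⊆ QQ A) (hcX : |c| ≤ X) (hc : ∀ a ∈ P, ((c : ℤ) : ZMod a) ≠ 0)
    (hPcard : (A : ℝ) ≤ 2 * P.card * Real.log ((4 * A : ℕ) : ℝ))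
    (ht : 3216 * Real.log ((4 * A : ℕ) : ℝ) ≤ t)
    (hbc : ∀ k ∈ P, ((b k : ℤ) : ZMod k) = (c : ZMod k))
    (hlow : ∀ k ∈ P, b k ≤ X) (hup : ∀ k ∈ P, (4 * X : ℤ) - b k ≤ k * N)
    (hpar : ∀ k ∈ P, ∀ k' ∈ P, (2 : ℤ) ∣ b k - b k')
    (hR : ∀ k ∈ P, ∀ k' ∈ P, k ≠ k' → (k : ℤ) * b k' - k' * b k ≠ 0)
    (hE1 : 1 ≤ E)
    (hE : ∑ q ∈ P.offDiag, cfac ((q.1 : ℤ) * b q.2 - q.2 * b q.1).natAbs ≤
      E * (A : ℝ) ^ 2 / (Real.log A) ^ 2)
    (h4 : 4 * (Real.log N) ^ 2 * (Real.log A) ^ 2 ≤ A)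
    (hNp : (N : ℝ) ^ (12 / 13 : ℝ) ≤ N / ((Real.log N) ^ 2 * (Real.log A) ^ 2))
    (hlX : Real.log ((4 * X : ℕ) : ℝ) ≤ 2 * Real.log N)
    (hXN : (N : ℝ) * A ≤ 6 * X) :
    (N : ℝ) ≤ 58687488 * E * (goodSet X b P N).card := by
  classical
  have hAr : (4 : ℝ) ≤ A := by exact_mod_cast hA
  have hNr : (3 : ℝ) ≤ N := by exact_mod_cast hN
  have hA0 : (0 : ℝ) < A := by linarith
  have hN0 : (0 : ℝ) < N := by linarith
  have hXr : (3 : ℝ) ≤ X := by
    have : 3 ≤ X := hN.trans hNX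
    exact_mod_cast this
  have hX0 : (0 : ℝ) < X := by linarith
  have hlogA : 0 < Real.log A := Real.log_pos (by linarith)
  have hlogN : 0 < Real.log N := Real.log_pos (by linarith)
  have hP : ∀ a ∈ P, a.Prime := fun a ha => (mem_filter.1 (hPQ ha)).2
  have hPA : ∀ a ∈ P, A < a ∧ a ≤ 4 * A := fun a ha => mem_Ioc.1 (mem_filter.1 (hPQ ha)).1
  have hl4A : Real.log ((4 * A : ℕ) : ℝ) ≤ 2 * Real.log A := by
    have e1 : ((4 * A : ℕ) : ℝ) ≤ (A : ℝ) ^ 2 := by
      push_cast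
      nlinarith
    have e2 := Real.log_le_log (by push_cast; linarith) e1
    rw [Real.log_pow] at e2
    exact_mod_cast e2
  have hl4A0 : 0 < Real.log ((4 * A : ℕ) : ℝ) := by
    apply Real.log_pos
    push_cast
    linarith
  -- first moment
  have hfm := first_moment_log (A := A) (X := X) (by omega) hX ht1 htA hy hP hPA hcX hc
  have hs1 : X / (16 * Real.log ((4 * A : ℕ) : ℝ)) ≤ ∑ a ∈ P, ∑ p ∈ prC X c a, Real.log p := by
    refine le_trans ?_ hfm
    set l := Real.log ((4 * A : ℕ) : ℝ) with hl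
    have e1 : (X : ℝ) / (8 * l) ≤ P.card * (X / (4 * A : ℝ)) := by
      rw [div_le_iff₀ (by positivity)]
      have e3 : (P.card : ℝ) * (X / (4 * A : ℝ)) * (8 * l) = (X / A) * (2 * P.card * l) := by
        field_simp
        ring
      rw [e3]
      calc (X : ℝ) = (X / A) * A := by field_simp
        _ ≤ (X / A) * (2 * P.card * l) := by gcongr
    have e2 : 201 * (X : ℝ) / t ≤ X / (16 * l) := by
      rw [div_le_div_iff₀ (by linarith) (by positivity)]
      calc 201 * (X : ℝ) * (16 * l) = X * (3216 * l) := by ring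
        _ ≤ X * t := by gcongr
    have e4 : (X : ℝ) / (16 * l) + X / (16 * l) = X / (8 * l) := by
      field_simp
      ring
    linarith
  have hs2 : ∑ a ∈ P, ∑ p ∈ prC X c a, Real.log p ≤
      Real.log ((4 * X : ℕ) : ℝ) * ∑ k ∈ P, ((prC X c k).card : ℝ) := by
    rw [Finset.mul_sum]
    apply Finset.sum_le_sum
    intro a ha
    rw [mul_comm, ← nsmul_eq_mul, ← Finset.sum_const]
    apply Finset.sum_le_sum
    intro p hp
    rw [prC, mem_filter, mem_Ioc] at hp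
    apply Real.log_le_log
    · exact_mod_cast hp.2.1.pos
    · exact_mod_cast hp.1.2
  have hs3 := first_le (X := X) (N := N) (b := b) (c := c) (P := P)
    (fun k hk => (hP k hk).pos) hbc hlow hup
  set S1 : ℝ := ∑ n ∈ Icc 1 N, (RR X b P n : ℝ) with hS1
  have hS1low : N * A / (384 * Real.log A * Real.log N) ≤ S1 := by
    have hl4X0 : 0 < Real.log ((4 * X : ℕ) : ℝ) := by
      apply Real.log_pos
      push_cast
      linarith
    have e1 : X / (16 * Real.log ((4 * A : ℕ) : ℝ)) ≤ Real.log ((4 * X : ℕ) : ℝ) * S1 :=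
      hs1.trans (hs2.trans (mul_le_mul_of_nonneg_left hs3 hl4X0.le))
    have hS10 : 0 ≤ S1 := Finset.sum_nonneg (fun i _ => Nat.cast_nonneg _)
    have e2 : X / (32 * Real.log A) ≤ 2 * Real.log N * S1 := by
      calc (X : ℝ) / (32 * Real.log A) = X / (16 * (2 * Real.log A)) := by ring
        _ ≤ X / (16 * Real.log ((4 * A : ℕ) : ℝ)) := by gcongr
        _ ≤ Real.log ((4 * X : ℕ) : ℝ) * S1 := e1
        _ ≤ 2 * Real.log N * S1 := by gcongr
    rw [div_le_iff₀ (by positivity)] at e2 ⊢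
    calc (N : ℝ) * A ≤ 6 * X := hXN
      _ ≤ 6 * (2 * Real.log N * S1 * (32 * Real.log A)) := by linarith
      _ = S1 * (384 * Real.log A * Real.log N) := by ring
  -- second moment
  set W : ℝ := (Real.log N) ^ 2 * (Real.log A) ^ 2 with hW
  have hW0 : 0 < W := by positivity
  have hS2 : ∑ n ∈ Icc 1 N, (RR X b P n : ℝ) ^ 2 ≤ 398 * N * E * (A : ℝ) ^ 2 / W := by
    refine (second_expand X N b P).trans ?_
    have hPle : (P.card : ℝ) ≤ 4 * A := by
      have e1 : (P.card : ℝ) ≤ (QQ A).card := by exact_mod_cast Finset.card_le_card hPQ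
      have := QQ_card_le A
      linarith
    have e1 : (P.card : ℝ) * N ≤ N * E * (A : ℝ) ^ 2 / W := by
      rw [le_div_iff₀ hW0]
      have e3 : 4 * W ≤ A := by
        rw [hW]
        linarith
      calc (P.card : ℝ) * N * W ≤ 4 * A * N * W := by gcongr
        _ = N * A * (4 * W) := by ring
        _ ≤ N * A * A := by gcongr
        _ ≤ N * A * A * E := le_mul_of_one_le_right (by positivity) hE1
        _ = N * E * (A : ℝ) ^ 2 := by ring
    have e2 : ∑ q ∈ P.offDiag,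
        (((Icc 1 N).filter (fun n => good X b q.1 n ∧ good X b q.2 n)).card : ℝ) ≤
        ∑ q ∈ P.offDiag, (381 * N / (Real.log N) ^ 2 *
          cfac ((q.1 : ℤ) * b q.2 - q.2 * b q.1).natAbs + (N : ℝ) ^ (12 / 13 : ℝ)) := by
      apply Finset.sum_le_sum
      intro q hq
      rw [mem_offDiag] at hq
      obtain ⟨hq1, hq2, hq3⟩ := hq
      have hn2 : ∀ a ∈ P, a ≠ 2 := by
        intro a ha
        have := (hPA a ha).1
        omega
      refine (pair_good_le (by omega) hNX (hP _ hq1) (hP _ hq2) (hn2 _ hq1) (hn2 _ hq2) hq3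
        (by rw [hbc _ hq1]; exact hc _ hq1) (by rw [hbc _ hq2]; exact hc _ hq2)
        (hpar _ hq1 _ hq2) (hR _ hq1 _ hq2 hq3)).trans (le_of_eq ?_)
      ring
    rw [Finset.sum_add_distrib, ← Finset.mul_sum, Finset.sum_const, nsmul_eq_mul] at e2
    have e3 : 381 * N / (Real.log N) ^ 2 *
        ∑ q ∈ P.offDiag, cfac ((q.1 : ℤ) * b q.2 - q.2 * b q.1).natAbs ≤
        381 * (N * E * (A : ℝ) ^ 2 / W) := by
      calc 381 * N / (Real.log N) ^ 2 *
        ∑ q ∈ P.offDiag, cfac ((q.1 : ℤ) * b q.2 - q.2 * b q.1).natAbs ≤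
          381 * N / (Real.log N) ^ 2 * (E * (A : ℝ) ^ 2 / (Real.log A) ^ 2) := by gcongr
        _ = 381 * (N * E * (A : ℝ) ^ 2 / W) := by
          rw [hW]
          field_simp
    have e4 : (P.offDiag.card : ℝ) * (N : ℝ) ^ (12 / 13 : ℝ) ≤
        16 * (N * E * (A : ℝ) ^ 2 / W) := by
      have e5 : (P.offDiag.card : ℝ) ≤ (4 * A) ^ 2 := by
        have e6 : P.offDiag.card ≤ P.card * P.card := by
          rw [Finset.offDiag_card]
          omega
        have e7 : (P.offDiag.card : ℝ) ≤ P.card * P.card := by exact_mod_cast e6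
        refine e7.trans ?_
        rw [sq]
        gcongr
      calc (P.offDiag.card : ℝ) * (N : ℝ) ^ (12 / 13 : ℝ) ≤ (4 * A) ^ 2 * (N / W) := by gcongr
        _ = 16 * (N * (A : ℝ) ^ 2 / W) := by ring
        _ ≤ 16 * (N * (A : ℝ) ^ 2 / W * E) := by
          apply mul_le_mul_of_nonneg_left _ (by norm_num)
          exact le_mul_of_one_le_right (by positivity) hE1
        _ = 16 * (N * E * (A : ℝ) ^ 2 / W) := by ring
    calc (P.card : ℝ) * N + ∑ q ∈ P.offDiag,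
        (((Icc 1 N).filter (fun n => good X b q.1 n ∧ good X b q.2 n)).card : ℝ) ≤
          N * E * (A : ℝ) ^ 2 / W + (381 * (N * E * (A : ℝ) ^ 2 / W) +
            16 * (N * E * (A : ℝ) ^ 2 / W)) := by linarith
      _ = 398 * N * E * (A : ℝ) ^ 2 / W := by ring
  -- Cauchy–Schwarz
  have hCS := cauchy_step X N b P
  rw [← hS1] at hCS
  set G : ℝ := ((goodSet X b P N).card : ℝ) with hG
  have hG0 : 0 ≤ G := Nat.cast_nonneg _
  have h5 : (N * A / (384 * Real.log A * Real.log N)) ^ 2 ≤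
      G * (398 * N * E * (A : ℝ) ^ 2 / W) := by
    calc (N * A / (384 * Real.log A * Real.log N)) ^ 2 ≤ S1 ^ 2 := by
          apply pow_le_pow_left₀ (by positivity) hS1low
      _ ≤ G * ∑ n ∈ Icc 1 N, (RR X b P n : ℝ) ^ 2 := hCS
      _ ≤ _ := mul_le_mul_of_nonneg_left hS2 hG0
  have h6 : (N * A / (384 * Real.log A * Real.log N)) ^ 2 = N * ((N * A ^ 2 / W) / 147456) := by
    rw [hW]
    field_simp
    ring
  have h7 : G * (398 * N * E * (A : ℝ) ^ 2 / W) = (398 * E * G) * (N * A ^ 2 / W) := by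
    ring
  rw [h6, h7] at h5
  have h8 : (0 : ℝ) < N * A ^ 2 / W := by positivity
  have h9 : (N : ℝ) / 147456 * (N * A ^ 2 / W) ≤ (398 * E * G) * (N * A ^ 2 / W) := by
    refine le_trans (le_of_eq ?_) h5
    ring
  have h10 := le_of_mul_le_mul_right h9 h8
  calc (N : ℝ) = 147456 * (N / 147456) := by ring
    _ ≤ 147456 * (398 * E * G) := by linarith
    _ = 58687488 * E * G := by ring

end

end Pool.Agent.Lib_helper72.AP
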