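import Mathlib
import Pool.Agent.Lib_helper72.AP.PairAvg

set_option autoImplicit false

/-!
The average of `cfac |k k' - s| ^ 2` over pairs of primes `k, k'` in `(A, 4A]`, for `s = ± 1`.
-/

namespace Pool.Agent.Lib_helper72.AP

open Finset Filter

noncomputable section

lemma QQ_card_le' (A : ℕ) : ((QQ A).card : ℝ) ≤ 3 * A := by
  have h1 := Finset.card_filter_le (Ioc A (4 * A)) Nat.Prime
  rw [Nat.card_Ioc] at h1
  have h2 : (QQ A).card ≤ 3 * A := by
    rw [QQ]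
    omega
  exact_mod_cast h2

/-- Sums over pairs of primes of a function of the difference. -/
lemma offDiag_sum_le {A : ℕ} (hA : 3 ≤ A)
    (hpow : (A : ℝ) ^ (12 / 13 : ℝ) ≤ A / (Real.log A) ^ 2) (F : ℕ → ℝ) (hF : ∀ h, 0 ≤ F h) :
    ∑ q ∈ (QQ A).offDiag, F ((q.1 : ℤ) - (q.2 : ℤ)).natAbs ≤
      1016 * A / (Real.log A) ^ 2 * ∑ h ∈ Icc 1 (3 * A), F h * cfac h := by
  classical
  have hAr : (3 : ℝ) ≤ A := by exact_mod_cast hA
  have hlog : 0 < Real.log A := Real.log_pos (by linarith)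
  have h1 : ∑ q ∈ (QQ A).offDiag, F ((q.1 : ℤ) - (q.2 : ℤ)).natAbs =
      ∑ h ∈ Icc 1 (3 * A), ∑ q ∈ (QQ A).offDiag.filter
        (fun q => ((q.1 : ℤ) - (q.2 : ℤ)).natAbs = h),
        F ((q.1 : ℤ) - (q.2 : ℤ)).natAbs := by
    rw [Finset.sum_fiberwise_of_maps_to]
    intro q hq
    rw [mem_offDiag, QQ, mem_filter, mem_filter, mem_Ioc, mem_Ioc] at hq
    rw [mem_Icc]
    omega
  rw [h1, Finset.mul_sum]
  apply Finset.sum_le_sum
  intro h hh
  rw [mem_Icc] at hh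
  have hh0 : h ≠ 0 := by omega
  have e1 : ∑ q ∈ (QQ A).offDiag.filter
      (fun q => ((q.1 : ℤ) - (q.2 : ℤ)).natAbs = h),
      F ((q.1 : ℤ) - (q.2 : ℤ)).natAbs =
      ((QQ A).offDiag.filter (fun q => ((q.1 : ℤ) - (q.2 : ℤ)).natAbs = h)).card *
        F h := by
    rw [← nsmul_eq_mul, ← Finset.sum_const]
    apply Finset.sum_congr rfl
    intro q hq
    rw [(mem_filter.1 hq).2]
  have e2 : ((QQ A).offDiag.filter (fun q => ((q.1 : ℤ) - (q.2 : ℤ)).natAbs = h)).card ≤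
      2 * ((QQ A).filter (fun k => k + h ∈ QQ A)).card := by
    have e3 : (QQ A).offDiag.filter (fun q => ((q.1 : ℤ) - (q.2 : ℤ)).natAbs = h) ⊆
        ((QQ A).filter (fun k => k + h ∈ QQ A)).image (fun k => (k, k + h)) ∪
        ((QQ A).filter (fun k => k + h ∈ QQ A)).image (fun k => (k + h, k)) := by
      intro q hq
      rw [mem_filter, mem_offDiag] at hq
      obtain ⟨⟨hq1, hq2, hq3⟩, hq4⟩ := hq
      rw [mem_union, mem_image, mem_image]
      rcases lt_or_gt_of_ne hq3 with h5 | h5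
      · left
        have h6 : q.1 + h = q.2 := by omega
        refine ⟨q.1, ?_, ?_⟩
        · rw [mem_filter, h6]
          exact ⟨hq1, hq2⟩
        · rw [h6]
      · right
        have h6 : q.2 + h = q.1 := by omega
        refine ⟨q.2, ?_, ?_⟩
        · rw [mem_filter, h6]
          exact ⟨hq2, hq1⟩
        · rw [h6]
    have e4 := Finset.card_le_card e3
    have e5 := Finset.card_union_le
      (((QQ A).filter (fun k => k + h ∈ QQ A)).image (fun k => (k, k + h)))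
      (((QQ A).filter (fun k => k + h ∈ QQ A)).image (fun k => (k + h, k)))
    have e6 := Finset.card_image_le (s := (QQ A).filter (fun k => k + h ∈ QQ A))
      (f := fun k => (k, k + h))
    have e7 := Finset.card_image_le (s := (QQ A).filter (fun k => k + h ∈ QQ A))
      (f := fun k => (k + h, k))
    omega
  have e8 := pair_count_QQ (A := A) (h := h) (by omega) hh0
  have hc := cfac_ge_two hh0
  have e9 : (((QQ A).filter (fun k => k + h ∈ QQ A)).card : ℝ) ≤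
      508 * A / (Real.log A) ^ 2 * cfac h := by
    refine e8.trans ?_
    have e10 : (A : ℝ) / (Real.log A) ^ 2 ≤ A / (Real.log A) ^ 2 * cfac h := by
      apply le_mul_of_one_le_right (by positivity)
      linarith
    calc 507 * A * cfac h / (Real.log A) ^ 2 + (A : ℝ) ^ (12 / 13 : ℝ) ≤
          507 * A * cfac h / (Real.log A) ^ 2 + A / (Real.log A) ^ 2 * cfac h := by linarith
      _ = 508 * A / (Real.log A) ^ 2 * cfac h := by ring
  rw [e1]
  have e2r : (((QQ A).offDiag.filter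
      (fun q => ((q.1 : ℤ) - (q.2 : ℤ)).natAbs = h)).card : ℝ) ≤
      2 * (((QQ A).filter (fun k => k + h ∈ QQ A)).card : ℝ) := by exact_mod_cast e2
  calc (((QQ A).offDiag.filter
      (fun q => ((q.1 : ℤ) - (q.2 : ℤ)).natAbs = h)).card : ℝ) * F h ≤
        (2 * (508 * A / (Real.log A) ^ 2 * cfac h)) * F h := by
        apply mul_le_mul_of_nonneg_right _ (hF h)
        linarith
    _ = 1016 * A / (Real.log A) ^ 2 * (F h * cfac h) := by ring

/-- The multiples of `e`. -/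
lemma sum_cfac_multiples_le (e K : ℕ) (he : 0 < e) :
    ∑ h ∈ Icc 1 K, (if e ∣ h then (1 : ℝ) else 0) * cfac h ≤ 2 * cfac e * (K / e) := by
  classical
  have h1 : ∑ h ∈ Icc 1 K, (if e ∣ h then (1 : ℝ) else 0) * cfac h =
      ∑ j ∈ Icc 1 (K / e), cfac (e * j) := by
    have h2 : ∑ h ∈ Icc 1 K, (if e ∣ h then (1 : ℝ) else 0) * cfac h =
        ∑ h ∈ (Icc 1 K).filter (fun h => e ∣ h), cfac h := by
      rw [Finset.sum_filter]
      apply Finset.sum_congr rfl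
      intro h _
      split_ifs <;> simp
    rw [h2]
    symm
    apply Finset.sum_bij (fun j _ => e * j)
    · intro j hj
      rw [mem_Icc] at hj
      rw [mem_filter, mem_Icc]
      refine ⟨⟨Nat.mul_pos he hj.1, ?_⟩, dvd_mul_right _ _⟩
      calc e * j ≤ e * (K / e) := Nat.mul_le_mul_left _ hj.2
        _ ≤ K := Nat.mul_div_le K e
    · intro a _ b _ hab
      exact Nat.eq_of_mul_eq_mul_left he hab
    · intro h hh
      rw [mem_filter, mem_Icc] at hh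
      obtain ⟨⟨hh1, hh2⟩, j, rfl⟩ := hh
      refine ⟨j, ?_, rfl⟩
      rw [mem_Icc]
      constructor
      · rcases Nat.eq_zero_or_pos j with h | h
        · rw [h, mul_zero] at hh1
          omega
        · exact h
      · rw [Nat.le_div_iff_mul_le he, mul_comm]
        exact hh2
    · intro j _
      rfl
  rw [h1]
  have h2 : ∑ j ∈ Icc 1 (K / e), cfac (e * j) ≤ ∑ j ∈ Icc 1 (K / e), cfac e / 2 * cfac j := by
    apply Finset.sum_le_sum
    intro j _
    have := cfac_mul_le e j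
    linarith
  refine h2.trans ?_
  rw [← Finset.mul_sum]
  have h3 := sum_cfac_le (K / e)
  have h4 : ((K / e : ℕ) : ℝ) ≤ K / e := Nat.cast_div_le
  have h5 := cfac_nonneg e
  calc cfac e / 2 * ∑ j ∈ Icc 1 (K / e), cfac j ≤ cfac e / 2 * (4 * (K / e)) := by
        apply mul_le_mul_of_nonneg_left _ (by positivity)
        linarith
    _ = _ := by ring

/-- Pairs congruent modulo `e`. -/
lemma pairs_congr_le {A : ℕ} (hA : 3 ≤ A)
    (hpow : (A : ℝ) ^ (12 / 13 : ℝ) ≤ A / (Real.log A) ^ 2) (e : ℕ) (he : 0 < e) :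
    ((((QQ A) ×ˢ (QQ A)).filter (fun q => (q.1 : ZMod e) = (q.2 : ZMod e))).card : ℝ) ≤
      3 * A + 6096 * (A : ℝ) ^ 2 / (Real.log A) ^ 2 * (cfac e / e) := by
  classical
  have he0 : (0 : ℝ) < e := by exact_mod_cast he
  have hAr : (3 : ℝ) ≤ A := by exact_mod_cast hA
  have hlog : 0 < Real.log A := Real.log_pos (by linarith)
  rw [← Finset.diag_union_offDiag, Finset.filter_union]
  have h1 := Finset.card_union_le
    ((QQ A).diag.filter (fun q => (q.1 : ZMod e) = (q.2 : ZMod e)))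
    ((QQ A).offDiag.filter (fun q => (q.1 : ZMod e) = (q.2 : ZMod e)))
  have h2 : ((QQ A).diag.filter (fun q => (q.1 : ZMod e) = (q.2 : ZMod e))).card ≤
      (QQ A).card := by
    rw [← Finset.diag_card (QQ A)]
    exact Finset.card_filter_le _ _
  have h3 : (((QQ A).offDiag.filter (fun q => (q.1 : ZMod e) = (q.2 : ZMod e))).card : ℝ) =
      ∑ q ∈ (QQ A).offDiag,
        (fun h : ℕ => if e ∣ h then (1 : ℝ) else 0) ((q.1 : ℤ) - (q.2 : ℤ)).natAbs := by
    rw [Finset.card_filter, Nat.cast_sum]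
    apply Finset.sum_congr rfl
    intro q _
    have h4 : (q.1 : ZMod e) = (q.2 : ZMod e) ↔ e ∣ ((q.1 : ℤ) - (q.2 : ℤ)).natAbs := by
      rw [← Int.natCast_dvd, ← ZMod.intCast_zmod_eq_zero_iff_dvd]
      push_cast
      rw [sub_eq_zero]
    by_cases h5 : (q.1 : ZMod e) = (q.2 : ZMod e)
    · simp [h5, h4.1 h5]
    · have h6 : ¬ e ∣ ((q.1 : ℤ) - (q.2 : ℤ)).natAbs := fun h => h5 (h4.2 h)
      simp only [h5, h6, if_false, Nat.cast_zero]
  have h4 := offDiag_sum_le hA hpow (fun h : ℕ => if e ∣ h then (1 : ℝ) else 0)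
    (fun h => by split_ifs <;> norm_num)
  rw [← h3] at h4
  have h5 := sum_cfac_multiples_le e (3 * A) he
  have h6 : 1016 * A / (Real.log A) ^ 2 *
      ∑ h ∈ Icc 1 (3 * A), (if e ∣ h then (1 : ℝ) else 0) * cfac h ≤
      1016 * A / (Real.log A) ^ 2 * (2 * cfac e * (((3 * A : ℕ) : ℝ) / e)) :=
    mul_le_mul_of_nonneg_left h5 (by positivity)
  have h7 := QQ_card_le' A
  have h8 : (((QQ A).diag.filter (fun q => (q.1 : ZMod e) = (q.2 : ZMod e)) ∪
      (QQ A).offDiag.filter (fun q => (q.1 : ZMod e) = (q.2 : ZMod e))).card : ℝ) ≤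
      (QQ A).card + (((QQ A).offDiag.filter
        (fun q => (q.1 : ZMod e) = (q.2 : ZMod e))).card : ℝ) := by
    exact_mod_cast h1.trans (Nat.add_le_add_right h2 _)
  calc _ ≤ _ := h8
    _ ≤ 3 * A + 1016 * A / (Real.log A) ^ 2 * (2 * cfac e * (((3 * A : ℕ) : ℝ) / e)) :=
        add_le_add h7 (h4.trans h6)
    _ = _ := by
        push_cast
        ring

/-- Pairs with a given product modulo `e`. -/
lemma pairs_prod_le (Q : Finset ℕ) (e : ℕ) (he : 0 < e) (s : ZMod e) (hs : IsUnit s) :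
    ((Q ×ˢ Q).filter (fun q => (q.1 : ZMod e) * (q.2 : ZMod e) = s)).card ≤
      ((Q ×ˢ Q).filter (fun q => (q.1 : ZMod e) = (q.2 : ZMod e))).card := by
  classical
  have : NeZero e := ⟨he.ne'⟩
  -- real-valued class functions
  let f : ZMod e → ℝ := fun r => ∑ k ∈ Q, if (k : ZMod e) = r then 1 else 0
  let g : ZMod e → ℝ := fun r => ∑ k ∈ Q, if r * (k : ZMod e) = s then 1 else 0
  set V : ℝ := (((Q ×ˢ Q).filter (fun q => (q.1 : ZMod e) = (q.2 : ZMod e))).card : ℝ) with hV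
  have hf : ∑ r : ZMod e, f r ^ 2 = V := by
    have h1 : ∀ r : ZMod e, f r ^ 2 = ∑ q ∈ Q ×ˢ Q,
        (if (q.1 : ZMod e) = r then (if (q.2 : ZMod e) = r then (1 : ℝ) else 0) else 0) := by
      intro r
      rw [sq, Finset.sum_mul_sum, ← Finset.sum_product']
      apply Finset.sum_congr rfl
      intro q _
      split_ifs <;> simp
    simp only [h1]
    rw [Finset.sum_comm, hV, Finset.card_filter, Nat.cast_sum]
    apply Finset.sum_congr rfl
    intro q _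
    rw [Finset.sum_ite_eq]
    simp only [mem_univ, if_true]
    by_cases h : (q.1 : ZMod e) = (q.2 : ZMod e)
    · simp [h]
    · simp [h, Ne.symm h]
  have hg : ∑ r : ZMod e, g r ^ 2 ≤ V := by
    have h1 : ∀ r : ZMod e, g r ^ 2 = ∑ q ∈ Q ×ˢ Q,
        (if r * (q.1 : ZMod e) = s ∧ r * (q.2 : ZMod e) = s then (1 : ℝ) else 0) := by
      intro r
      rw [sq, Finset.sum_mul_sum, ← Finset.sum_product']
      apply Finset.sum_congr rfl
      intro q _
      by_cases h1 : r * (q.1 : ZMod e) = s <;> by_cases h2 : r * (q.2 : ZMod e) = s <;>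
        simp [h1, h2]
    simp only [h1]
    rw [Finset.sum_comm, hV, Finset.card_filter, Nat.cast_sum]
    apply Finset.sum_le_sum
    intro q _
    rw [← Finset.sum_filter, Finset.sum_const, nsmul_eq_mul, mul_one]
    have h2 : ((univ : Finset (ZMod e)).filter
        (fun r => r * (q.1 : ZMod e) = s ∧ r * (q.2 : ZMod e) = s)).card ≤
        if (q.1 : ZMod e) = (q.2 : ZMod e) then 1 else 0 := by
      have hinv : ∀ r : ZMod e, r * (q.1 : ZMod e) = s → IsUnit r ∧ IsUnit (q.1 : ZMod e) := by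
        intro r hr
        rw [← hr] at hs
        exact IsUnit.mul_iff.1 hs
      split_ifs with h
      · apply Finset.card_le_one.2
        intro r hr r' hr'
        rw [mem_filter] at hr hr'
        obtain ⟨_, hu⟩ := hinv r hr.2.1
        exact hu.mul_right_cancel (hr.2.1.trans hr'.2.1.symm)
      · apply le_of_eq
        rw [Finset.card_eq_zero, Finset.filter_eq_empty_iff]
        rintro r _ ⟨h1, h2⟩
        obtain ⟨hu, _⟩ := hinv r h1
        exact h (hu.mul_left_cancel (h1.trans h2.symm))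
    exact_mod_cast h2
  have hN : (((Q ×ˢ Q).filter (fun q => (q.1 : ZMod e) * (q.2 : ZMod e) = s)).card : ℝ) =
      ∑ r : ZMod e, f r * g r := by
    have h1 : ∀ r : ZMod e, f r * g r = ∑ q ∈ Q ×ˢ Q,
        (if (q.1 : ZMod e) = r then (if r * (q.2 : ZMod e) = s then (1 : ℝ) else 0) else 0) := by
      intro r
      rw [Finset.sum_mul_sum, ← Finset.sum_product']
      apply Finset.sum_congr rfl
      intro q _
      split_ifs <;> simp
    simp only [h1]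
    rw [Finset.sum_comm, Finset.card_filter, Nat.cast_sum]
    apply Finset.sum_congr rfl
    intro q _
    rw [Finset.sum_ite_eq]
    simp only [mem_univ, if_true]
    split_ifs <;> simp
  have h1 : ∑ r : ZMod e, f r * g r ≤ V := by
    have h2 : ∀ r : ZMod e, f r * g r ≤ (f r ^ 2 + g r ^ 2) / 2 := by
      intro r
      nlinarith [sq_nonneg (f r - g r)]
    calc ∑ r : ZMod e, f r * g r ≤ ∑ r : ZMod e, (f r ^ 2 + g r ^ 2) / 2 :=
          Finset.sum_le_sum (fun r _ => h2 r)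
      _ = (∑ r : ZMod e, f r ^ 2 + ∑ r : ZMod e, g r ^ 2) / 2 := by
          rw [← Finset.sum_div, Finset.sum_add_distrib]
      _ ≤ V := by linarith
  rw [← hN, hV] at h1
  exact_mod_cast h1

lemma sum_rpow_le (E : ℕ) :
    ∑ e ∈ Icc 1 E, (e : ℝ) ^ (-(3 / 4 : ℝ)) ≤ 4 * (E : ℝ) ^ (1 / 4 : ℝ) := by
  induction E with
  | zero => simp
  | succ n ih =>
    rw [Finset.sum_Icc_succ_top (by omega)]
    have key : ((n + 1 : ℕ) : ℝ) ^ (-(3 / 4 : ℝ)) ≤
        4 * (((n + 1 : ℕ) : ℝ) ^ (1 / 4 : ℝ) - (n : ℝ) ^ (1 / 4 : ℝ)) := by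
      have hu0 : (0 : ℝ) < ((n + 1 : ℕ) : ℝ) := by positivity
      have hn0 : (0 : ℝ) ≤ (n : ℝ) := Nat.cast_nonneg n
      set u : ℝ := ((n + 1 : ℕ) : ℝ) ^ (1 / 4 : ℝ) with hu
      set v : ℝ := (n : ℝ) ^ (1 / 4 : ℝ) with hv
      have hup : 0 < u := Real.rpow_pos_of_pos hu0 _
      have hvp : 0 ≤ v := Real.rpow_nonneg hn0 _
      have hu4 : u ^ 4 = ((n + 1 : ℕ) : ℝ) := by
        rw [hu, ← Real.rpow_natCast, ← Real.rpow_mul hu0.le]
        norm_num
      have hv4 : v ^ 4 = (n : ℝ) := by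
        rw [hv, ← Real.rpow_natCast, ← Real.rpow_mul hn0]
        norm_num
      have huv : v ≤ u := by
        apply Real.rpow_le_rpow hn0 _ (by norm_num)
        push_cast
        linarith
      have hlhs : ((n + 1 : ℕ) : ℝ) ^ (-(3 / 4 : ℝ)) = (u ^ 3)⁻¹ := by
        rw [hu, ← Real.rpow_natCast, ← Real.rpow_mul hu0.le, ← Real.rpow_neg hu0.le]
        norm_num
      rw [hlhs, inv_le_iff_one_le_mul₀ (by positivity)]
      have h1 : u ^ 4 - v ^ 4 = 1 := by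
        rw [hu4, hv4]
        push_cast
        ring
      have h2 : u ^ 4 - v ^ 4 = (u - v) * (u ^ 3 + u ^ 2 * v + u * v ^ 2 + v ^ 3) := by ring
      have h3 : u ^ 3 + u ^ 2 * v + u * v ^ 2 + v ^ 3 ≤ 4 * u ^ 3 := by
        have e1 : u ^ 2 * v ≤ u ^ 2 * u := mul_le_mul_of_nonneg_left huv (by positivity)
        have e2 : u * v ^ 2 ≤ u * u ^ 2 :=
          mul_le_mul_of_nonneg_left (pow_le_pow_left₀ hvp huv 2) hup.le
        have e3 : v ^ 3 ≤ u ^ 3 := pow_le_pow_left₀ hvp huv 3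
        nlinarith
      calc (1 : ℝ) = (u - v) * (u ^ 3 + u ^ 2 * v + u * v ^ 2 + v ^ 3) := by rw [← h2, h1]
        _ ≤ (u - v) * (4 * u ^ 3) := mul_le_mul_of_nonneg_left h3 (by linarith)
        _ = 4 * (u - v) * u ^ 3 := by ring
    linarith

lemma cfac_le_rpow {e : ℕ} (he : e ≠ 0) : cfac e ≤ 2 * ZZ * (e : ℝ) ^ (1 / 4 : ℝ) := by
  have he0 : (0 : ℝ) < e := by exact_mod_cast Nat.pos_of_ne_zero he
  have h1 : ∀ d ∈ e.divisors, (1 : ℝ) / d ≤ 1 / (d : ℝ) ^ (5 / 4 : ℝ) * (e : ℝ) ^ (1 / 4 : ℝ) := by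
    intro d hd
    have hd0 : (0 : ℝ) < d := by exact_mod_cast Nat.pos_of_mem_divisors hd
    have hde : (d : ℝ) ≤ e := by
      exact_mod_cast Nat.le_of_dvd (Nat.pos_of_ne_zero he) (Nat.dvd_of_mem_divisors hd)
    have h2 : (d : ℝ) ^ (5 / 4 : ℝ) = d * (d : ℝ) ^ (1 / 4 : ℝ) := by
      rw [show (5 / 4 : ℝ) = 1 + 1 / 4 by norm_num, Real.rpow_add hd0, Real.rpow_one]
    have h3 : (d : ℝ) ^ (1 / 4 : ℝ) ≤ (e : ℝ) ^ (1 / 4 : ℝ) :=
      Real.rpow_le_rpow hd0.le hde (by norm_num)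
    have h4 : 0 < (d : ℝ) ^ (1 / 4 : ℝ) := Real.rpow_pos_of_pos hd0 _
    rw [h2, one_div_mul_eq_div, le_div_iff₀ (by positivity)]
    calc 1 / (d : ℝ) * (d * (d : ℝ) ^ (1 / 4 : ℝ)) = (d : ℝ) ^ (1 / 4 : ℝ) := by
          field_simp
      _ ≤ _ := h3
  rw [cfac]
  have h2 := Finset.sum_le_sum h1
  rw [← Finset.sum_mul] at h2
  have h3 := sum_le_ZZ e.divisors
  have h4 : 0 ≤ (e : ℝ) ^ (1 / 4 : ℝ) := by positivity
  have h5 := mul_le_mul_of_nonneg_right h3 h4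
  calc 2 * ∑ d ∈ e.divisors, (1 : ℝ) / d ≤ 2 * (ZZ * (e : ℝ) ^ (1 / 4 : ℝ)) := by linarith
    _ = _ := by ring

lemma sum_cfac_rpow_le (E : ℕ) :
    ∑ e ∈ Icc 1 E, (e : ℝ) ^ (-(3 / 4 : ℝ)) * (cfac e / e) ≤ 2 * ZZ ^ 2 := by
  have h0 : (0 : ℝ) ≤ ZZ := by linarith [ZZ_ge_one]
  have h1 : ∀ e ∈ Icc 1 E, (e : ℝ) ^ (-(3 / 4 : ℝ)) * (cfac e / e) ≤
      2 * ZZ * (1 / (e : ℝ) ^ (5 / 4 : ℝ)) := by
    intro e he
    rw [mem_Icc] at he
    have he1 : (1 : ℝ) ≤ e := by exact_mod_cast he.1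
    have he0 : (0 : ℝ) < e := by linarith
    have h2 := cfac_le_rpow (e := e) (by omega)
    have h3 : 0 ≤ (e : ℝ) ^ (-(3 / 4 : ℝ)) := by positivity
    calc (e : ℝ) ^ (-(3 / 4 : ℝ)) * (cfac e / e) ≤
          (e : ℝ) ^ (-(3 / 4 : ℝ)) * (2 * ZZ * (e : ℝ) ^ (1 / 4 : ℝ) / e) := by gcongr
      _ = 2 * ZZ * ((e : ℝ) ^ (-(3 / 4 : ℝ)) * (e : ℝ) ^ (1 / 4 : ℝ) * (e : ℝ) ^ (-(1 : ℝ))) := by
        rw [Real.rpow_neg_one]
        ring
      _ = 2 * ZZ * (e : ℝ) ^ (-(3 / 2) : ℝ) := by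
        rw [← Real.rpow_add he0, ← Real.rpow_add he0]
        norm_num
      _ ≤ 2 * ZZ * (e : ℝ) ^ (-(5 / 4) : ℝ) := by
        apply mul_le_mul_of_nonneg_left _ (by positivity)
        exact Real.rpow_le_rpow_of_exponent_le he1 (by norm_num)
      _ = 2 * ZZ * (1 / (e : ℝ) ^ (5 / 4 : ℝ)) := by
        rw [Real.rpow_neg he0.le, one_div]
  refine (Finset.sum_le_sum h1).trans ?_
  rw [← Finset.mul_sum]
  have h2 := sum_le_ZZ (Icc 1 E)
  calc 2 * ZZ * ∑ e ∈ Icc 1 E, 1 / (e : ℝ) ^ (5 / 4 : ℝ) ≤ 2 * ZZ * ZZ :=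
        mul_le_mul_of_nonneg_left h2 (by positivity)
    _ = _ := by ring

/-- The average of the square of the singular factor of `k k' - s`. -/
theorem prod_avg {s : ℤ} (hs : s = 1 ∨ s = -1) : ∃ C : ℝ, 0 < C ∧ ∃ A₀ : ℕ, ∀ A : ℕ, A₀ ≤ A →
    ∑ q ∈ (QQ A).offDiag, cfac ((q.1 : ℤ) * (q.2 : ℤ) - s).natAbs ^ 2 ≤
      C * (A : ℝ) ^ 2 / (Real.log A) ^ 2 := by
  classical
  obtain ⟨A₁, hA₁⟩ := eventually_atTop.1 (eventually_rpow_le_div_log 2)
  have hZ := ZZ_ge_one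
  have hev : ∀ᶠ A : ℕ in atTop, (Real.log A) ^ 2 ≤ (A : ℝ) ^ (1 / 2 : ℝ) := by
    have h1 : Tendsto (fun x : ℝ => (Real.log x) ^ (2 : ℝ) / x ^ (1 / 2 : ℝ)) atTop (nhds 0) :=
      (isLittleO_log_rpow_rpow_atTop (2 : ℝ) (by norm_num : (0 : ℝ) < 1 / 2)).tendsto_div_nhds_zero
    have h2 := h1.comp (tendsto_natCast_atTop_atTop (R := ℝ))
    have h3 : ∀ᶠ N : ℕ in atTop, (Real.log N) ^ (2 : ℝ) / (N : ℝ) ^ (1 / 2 : ℝ) < 1 :=
      h2.eventually (gt_mem_nhds one_pos)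
    filter_upwards [h3, eventually_ge_atTop 3] with N hN hN3
    have hNr : (3 : ℝ) ≤ N := by exact_mod_cast hN3
    rw [div_lt_one (by positivity)] at hN
    have : (Real.log N) ^ (2 : ℝ) = (Real.log N) ^ 2 := by
      rw [← Real.rpow_natCast]
      norm_num
    rw [← this]
    exact hN.le
  obtain ⟨A₂, hA₂⟩ := eventually_atTop.1 hev
  refine ⟨4 * ZZ * (36 + 6096 * (2 * ZZ ^ 2)), by positivity, max (max A₁ A₂) 3, ?_⟩
  intro A hA
  have hA3 : 3 ≤ A := (le_max_right _ _).trans hA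
  have hAr : (3 : ℝ) ≤ A := by exact_mod_cast hA3
  have hA0 : (0 : ℝ) < A := by linarith
  have hlog : 0 < Real.log A := Real.log_pos (by linarith)
  have hpow := hA₁ A (((le_max_left _ _).trans (le_max_left _ _)).trans hA)
  have hlog2 := hA₂ A (((le_max_right _ _).trans (le_max_left _ _)).trans hA)
  set E := 81 * A ^ 2 with hE
  have hsu : ∀ e : ℕ, IsUnit ((s : ℤ) : ZMod e) := by
    intro e
    rcases hs with h | h
    · rw [h]
      simp
    · rw [h]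
      simp
  -- pointwise bound
  have h1 : ∀ q ∈ (QQ A).offDiag, cfac ((q.1 : ℤ) * (q.2 : ℤ) - s).natAbs ^ 2 ≤
      4 * ZZ * ∑ e ∈ Icc 1 E, (e : ℝ) ^ (-(3 / 4 : ℝ)) *
        (if (q.1 : ZMod e) * (q.2 : ZMod e) = ((s : ℤ) : ZMod e) then (1 : ℝ) else 0) := by
    intro q hq
    rw [mem_offDiag, QQ, mem_filter, mem_filter, mem_Ioc, mem_Ioc] at hq
    obtain ⟨⟨⟨hq1, hq2⟩, _⟩, ⟨⟨hq3, hq4⟩, _⟩, _⟩ := hq
    have hb1 : (3 : ℤ) ≤ q.1 := by
      have : 3 ≤ q.1 := by omega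
      exact_mod_cast this
    have hb2 : (3 : ℤ) ≤ q.2 := by
      have : 3 ≤ q.2 := by omega
      exact_mod_cast this
    have hb3 : (q.1 : ℤ) ≤ 4 * A := by exact_mod_cast hq2
    have hb4 : (q.2 : ℤ) ≤ 4 * A := by exact_mod_cast hq4
    have hb5 : (9 : ℤ) ≤ q.1 * q.2 := by nlinarith
    have hb6 : (q.1 : ℤ) * q.2 ≤ 16 * (A : ℤ) ^ 2 := by nlinarith
    have hb7 : (3 : ℤ) ≤ A := by exact_mod_cast hA3
    set n := ((q.1 : ℤ) * (q.2 : ℤ) - s).natAbs with hn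
    have hn0 : n ≠ 0 := by
      rw [hn, Int.natAbs_ne_zero]
      rcases hs with h | h <;> omega
    have hnE : n ≤ E := by
      have h2 : (n : ℤ) ≤ E := by
        rw [hn, Int.natCast_natAbs, hE]
        push_cast
        rw [abs_le]
        constructor <;> rcases hs with h | h <;> nlinarith
      exact_mod_cast h2
    refine (cfac_sq_le n).trans ?_
    apply mul_le_mul_of_nonneg_left _ (by positivity)
    have h2 : n.divisors ⊆ (Icc 1 E).filter
        (fun e => (q.1 : ZMod e) * (q.2 : ZMod e) = ((s : ℤ) : ZMod e)) := by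
      intro e he
      rw [Nat.mem_divisors] at he
      rw [mem_filter, mem_Icc]
      refine ⟨⟨Nat.pos_of_dvd_of_pos he.1 (Nat.pos_of_ne_zero hn0),
        (Nat.le_of_dvd (Nat.pos_of_ne_zero hn0) he.1).trans hnE⟩, ?_⟩
      have h3 := he.1
      rw [hn, ← Int.natCast_dvd, ← ZMod.intCast_zmod_eq_zero_iff_dvd] at h3
      push_cast at h3
      exact sub_eq_zero.1 h3
    refine (Finset.sum_le_sum_of_subset_of_nonneg h2 (fun i _ _ => by positivity)).trans
      (le_of_eq ?_)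
    rw [Finset.sum_filter]
    apply Finset.sum_congr rfl
    intro e _
    split_ifs <;> simp
  refine (Finset.sum_le_sum h1).trans ?_
  rw [← Finset.mul_sum, Finset.sum_comm]
  have h2 : ∀ e ∈ Icc 1 E, ∑ q ∈ (QQ A).offDiag, (e : ℝ) ^ (-(3 / 4 : ℝ)) *
        (if (q.1 : ZMod e) * (q.2 : ZMod e) = ((s : ℤ) : ZMod e) then (1 : ℝ) else 0) ≤
      (e : ℝ) ^ (-(3 / 4 : ℝ)) * (3 * A) + 6096 * (A : ℝ) ^ 2 / (Real.log A) ^ 2 *
        ((e : ℝ) ^ (-(3 / 4 : ℝ)) * (cfac e / e)) := by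
    intro e he
    rw [mem_Icc] at he
    rw [← Finset.mul_sum]
    have h3 : ∑ q ∈ (QQ A).offDiag,
        (if (q.1 : ZMod e) * (q.2 : ZMod e) = ((s : ℤ) : ZMod e) then (1 : ℝ) else 0) ≤
        ((((QQ A) ×ˢ (QQ A)).filter
          (fun q => (q.1 : ZMod e) * (q.2 : ZMod e) = ((s : ℤ) : ZMod e))).card : ℝ) := by
      rw [← Finset.sum_filter, Finset.sum_const, nsmul_eq_mul, mul_one]
      have h4 : (QQ A).offDiag.filter
          (fun q => (q.1 : ZMod e) * (q.2 : ZMod e) = ((s : ℤ) : ZMod e)) ⊆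
          ((QQ A) ×ˢ (QQ A)).filter
          (fun q => (q.1 : ZMod e) * (q.2 : ZMod e) = ((s : ℤ) : ZMod e)) := by
        apply Finset.filter_subset_filter
        rw [← Finset.diag_union_offDiag]
        exact Finset.subset_union_right
      exact_mod_cast Finset.card_le_card h4
    have h4 := pairs_prod_le (QQ A) e (by omega) ((s : ℤ) : ZMod e) (hsu e)
    have h5 := pairs_congr_le hA3 hpow e (by omega)
    have h6 : ((((QQ A) ×ˢ (QQ A)).filter
          (fun q => (q.1 : ZMod e) * (q.2 : ZMod e) = ((s : ℤ) : ZMod e))).card : ℝ) ≤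
        ((((QQ A) ×ˢ (QQ A)).filter (fun q => (q.1 : ZMod e) = (q.2 : ZMod e))).card : ℝ) := by
      exact_mod_cast h4
    have h7 : 0 ≤ (e : ℝ) ^ (-(3 / 4 : ℝ)) := by positivity
    refine (mul_le_mul_of_nonneg_left (h3.trans (h6.trans h5)) h7).trans (le_of_eq ?_)
    ring
  have h3 := Finset.sum_le_sum h2
  rw [Finset.sum_add_distrib, ← Finset.sum_mul, ← Finset.mul_sum] at h3
  have h4 := sum_rpow_le E
  have h5 := sum_cfac_rpow_le E
  have h6 : (E : ℝ) ^ (1 / 4 : ℝ) = 3 * (A : ℝ) ^ (1 / 2 : ℝ) := by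
    rw [hE]
    push_cast
    rw [Real.mul_rpow (by norm_num) (by positivity), ← Real.rpow_natCast (A : ℝ) 2,
      ← Real.rpow_mul hA0.le, show (81 : ℝ) = (3 : ℝ) ^ (4 : ℝ) by norm_num,
      ← Real.rpow_mul (by norm_num)]
    norm_num
  have h7 : (∑ e ∈ Icc 1 E, (e : ℝ) ^ (-(3 / 4 : ℝ))) * (3 * A) ≤
      36 * ((A : ℝ) ^ 2 / (Real.log A) ^ 2) := by
    rw [h6] at h4
    have e1 : (A : ℝ) ^ (1 / 2 : ℝ) ≤ A / (Real.log A) ^ 2 := by
      rw [le_div_iff₀ (by positivity)]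
      calc (A : ℝ) ^ (1 / 2 : ℝ) * (Real.log A) ^ 2 ≤
            (A : ℝ) ^ (1 / 2 : ℝ) * (A : ℝ) ^ (1 / 2 : ℝ) := by gcongr
        _ = A := by
          rw [← Real.rpow_add hA0]
          norm_num
    calc (∑ e ∈ Icc 1 E, (e : ℝ) ^ (-(3 / 4 : ℝ))) * (3 * A) ≤
          (4 * (3 * (A : ℝ) ^ (1 / 2 : ℝ))) * (3 * A) := by gcongr
      _ ≤ (4 * (3 * (A / (Real.log A) ^ 2))) * (3 * A) := by gcongr
      _ = 36 * ((A : ℝ) ^ 2 / (Real.log A) ^ 2) := by ring
  have h8 : 6096 * (A : ℝ) ^ 2 / (Real.log A) ^ 2 *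
      ∑ e ∈ Icc 1 E, (e : ℝ) ^ (-(3 / 4 : ℝ)) * (cfac e / e) ≤
      6096 * (2 * ZZ ^ 2) * ((A : ℝ) ^ 2 / (Real.log A) ^ 2) := by
    calc 6096 * (A : ℝ) ^ 2 / (Real.log A) ^ 2 *
        ∑ e ∈ Icc 1 E, (e : ℝ) ^ (-(3 / 4 : ℝ)) * (cfac e / e) ≤
          6096 * (A : ℝ) ^ 2 / (Real.log A) ^ 2 * (2 * ZZ ^ 2) := by gcongr
      _ = _ := by ring
  calc 4 * ZZ * ∑ e ∈ Icc 1 E, ∑ q ∈ (QQ A).offDiag, (e : ℝ) ^ (-(3 / 4 : ℝ)) *
        (if (q.1 : ZMod e) * (q.2 : ZMod e) = ((s : ℤ) : ZMod e) then (1 : ℝ) else 0) ≤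
        4 * ZZ * (36 * ((A : ℝ) ^ 2 / (Real.log A) ^ 2) +
          6096 * (2 * ZZ ^ 2) * ((A : ℝ) ^ 2 / (Real.log A) ^ 2)) := by
        apply mul_le_mul_of_nonneg_left _ (by positivity)
        linarith
    _ = _ := by ring

end

end Pool.Agent.Lib_helper72.AP
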